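import Mathlib

set_option autoImplicit false

open Complex Set MeasureTheory intervalIntegral Filter Topology Metric
open scoped ComplexConjugate

namespace H73.JP

/-- iterated derivatives of `(z - p) R(z)` -/
lemma iter_mul_sub {R : ℂ → ℂ} (hR : Differentiable ℂ R) (p : ℂ) (n : ℕ) :
    iteratedDeriv (n + 1) (fun z => (z - p) * R z) =
      fun z => (z - p) * iteratedDeriv (n + 1) R z + (n + 1) * iteratedDeriv n R z := by
  have hd : ∀ k : ℕ, Differentiable ℂ (iteratedDeriv k R) := fun k =>
    (hR.contDiff (n := (k + 1 : ℕ))).differentiable_iteratedDeriv k (by exact_mod_cast Nat.lt_succ_self k)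
  induction n with
  | zero =>
    funext z
    rw [zero_add, iteratedDeriv_one, iteratedDeriv_one, iteratedDeriv_zero]
    have h1 : HasDerivAt (fun z => (z - p) * R z) (1 * R z + (z - p) * deriv R z) z :=
      ((hasDerivAt_id z).sub_const p).mul (hR z).hasDerivAt
    rw [h1.deriv]
    push_cast
    ring
  | succ n ih =>
    rw [iteratedDeriv_succ, ih]
    funext z
    have h1 : HasDerivAt (iteratedDeriv (n + 1) R) (iteratedDeriv (n + 2) R z) z := by
      have := (hd (n + 1) z).hasDerivAt
      rwa [← iteratedDeriv_succ] at this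
    have h0 : HasDerivAt (iteratedDeriv n R) (iteratedDeriv (n + 1) R z) z := by
      have := (hd n z).hasDerivAt
      rwa [← iteratedDeriv_succ] at this
    have h2 : HasDerivAt (fun z => (z - p) * iteratedDeriv (n + 1) R z + (n + 1) * iteratedDeriv n R z)
        (1 * iteratedDeriv (n + 1) R z + (z - p) * iteratedDeriv (n + 2) R z +
          (n + 1) * iteratedDeriv (n + 1) R z) z :=
      (((hasDerivAt_id z).sub_const p).mul h1).add (h0.const_mul _)
    rw [h2.deriv]
    push_cast
    ring

lemma circ_one {v : ℂ} {r : ℝ} (hr : 0 < r) (hrv : r < 2 * ‖v‖) :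
    (∮ u in C(0, r), 2 * (v + u) / (u * (2 * v + u))) = 2 * Real.pi * I := by
  have hne : ∀ u ∈ closedBall (0 : ℂ) r, 2 * v + u ≠ 0 := fun u hu h => by
    rw [mem_closedBall, dist_zero_right] at hu
    have h1 : u = -(2 * v) := by linear_combination h
    rw [h1, norm_neg, norm_mul, Complex.norm_ofNat] at hu
    linarith
  have hne0 : ∀ u ∈ sphere (0 : ℂ) r, u ≠ 0 := fun u hu h => by
    rw [mem_sphere, dist_zero_right, h, norm_zero] at hu
    linarith
  have e : ∀ u ∈ sphere (0 : ℂ) r, 2 * (v + u) / (u * (2 * v + u)) = (u - 0)⁻¹ + (2 * v + u)⁻¹ := fun u hu => by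
    have h1 := hne u (sphere_subset_closedBall hu)
    have h2 := hne0 u hu
    rw [sub_zero]
    field_simp
    ring
  rw [circleIntegral.integral_congr hr.le e]
  have hi1 : CircleIntegrable (fun u : ℂ => (u - 0)⁻¹) 0 r := by
    apply ContinuousOn.circleIntegrable hr.le
    apply ContinuousOn.inv₀ (by fun_prop)
    intro u hu
    rw [sub_zero]
    exact hne0 u hu
  have hcont : ContinuousOn (fun u : ℂ => (2 * v + u)⁻¹) (closedBall 0 r) := by
    apply ContinuousOn.inv₀ (by fun_prop)
    exact hne
  have hi2 : CircleIntegrable (fun u : ℂ => (2 * v + u)⁻¹) 0 r := by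
    apply ContinuousOn.circleIntegrable hr.le
    exact hcont.mono sphere_subset_closedBall
  rw [circleIntegral.integral_add hi1 hi2, circleIntegral.integral_sub_center_inv 0 hr.ne']
  have h0 : (∮ u in C(0, r), (2 * v + u)⁻¹) = 0 := by
    apply DiffContOnCl.circleIntegral_eq_zero hr.le
    constructor
    · intro u hu
      have h1 := hne u (ball_subset_closedBall hu)
      have : DifferentiableAt ℂ (fun u : ℂ => (2 * v + u)⁻¹) u := by
        apply DifferentiableAt.inv (by fun_prop) h1
      exact this.differentiableWithinAt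
    · rw [closure_ball 0 hr.ne']
      exact hcont
  rw [h0, add_zero]

lemma circ_zero {v : ℂ} {r : ℝ} (hr : 0 < r) (hrv : r < 2 * ‖v‖) (n : ℕ) :
    (∮ u in C(0, r), 2 * (v + u) / (u * (2 * v + u)) ^ (n + 2)) = 0 := by
  have hne : ∀ u ∈ sphere (0 : ℂ) r, u * (2 * v + u) ≠ 0 := fun u hu h => by
    rw [mem_sphere, dist_zero_right] at hu
    rcases mul_eq_zero.mp h with h | h
    · rw [h, norm_zero] at hu
      linarith
    · have h1 : u = -(2 * v) := by linear_combination h
      rw [h1, norm_neg, norm_mul, Complex.norm_ofNat] at hu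
      linarith
  apply circleIntegral.integral_eq_zero_of_hasDerivWithinAt hr.le
    (f := fun u => -(1 / ((n : ℂ) + 1)) * ((u * (2 * v + u)) ^ (n + 1))⁻¹)
  intro u hu
  have h0 := hne u hu
  have h1 : HasDerivAt (fun u : ℂ => u * (2 * v + u)) (1 * (2 * v + u) + u * 1) u :=
    (hasDerivAt_id u).mul ((hasDerivAt_id u).const_add _)
  have h2 := ((h1.fun_pow (n + 1)).fun_inv (pow_ne_zero _ h0)).const_mul (-(1 / ((n : ℂ) + 1)))
  refine (h2.congr_deriv ?_).hasDerivWithinAt
  have hn : (n : ℂ) + 1 ≠ 0 := by exact_mod_cast Nat.succ_ne_zero n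
  have e1 : 1 * (2 * v + u) + u * 1 = 2 * (v + u) := by ring
  rw [e1]
  generalize u * (2 * v + u) = X at h0
  simp only [Nat.add_sub_cancel]
  push_cast
  field_simp
  ring

/-- Cauchy's formula in the variable `w`, for a function of `w ^ 2` -/
lemma kernel_cauchy {v : ℂ} {r : ℝ} (hr : 0 < r) (hrv : r < 2 * ‖v‖) (n : ℕ) : ∀ F : ℂ → ℂ,
    Differentiable ℂ F →
    (∮ u in C(0, r), F ((v + u) ^ 2) * (2 * (v + u) / (u * (2 * v + u)) ^ (n + 1))) =
      2 * Real.pi * I * (iteratedDeriv n F (v ^ 2) / n.factorial) := by
  have hne : ∀ u ∈ sphere (0 : ℂ) r, u * (2 * v + u) ≠ 0 := fun u hu h => by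
    rw [mem_sphere, dist_zero_right] at hu
    rcases mul_eq_zero.mp h with h | h
    · rw [h, norm_zero] at hu
      linarith
    · have h1 : u = -(2 * v) := by linear_combination h
      rw [h1, norm_neg, norm_mul, Complex.norm_ofNat] at hu
      linarith
  have hker : ∀ k : ℕ, ContinuousOn (fun u : ℂ => 2 * (v + u) / (u * (2 * v + u)) ^ k) (sphere 0 r) := by
    intro k
    apply ContinuousOn.div (by fun_prop) (by fun_prop)
    intro u hu
    exact pow_ne_zero _ (hne u hu)
  have hFc : ∀ F : ℂ → ℂ, Differentiable ℂ F → ContinuousOn (fun u : ℂ => F ((v + u) ^ 2)) (sphere 0 r) := by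
    intro F hF
    have := hF.continuous
    fun_prop
  induction n with
  | zero =>
    intro F hF
    set p := v ^ 2 with hp
    have hR : Differentiable ℂ (dslope F p) := by
      rw [← differentiableOn_univ] at hF ⊢
      exact (Complex.differentiableOn_dslope univ_mem).mpr hF
    have hFz : ∀ z, F z = F p + (z - p) * dslope F p z := fun z => by
      have := sub_smul_dslope F p z
      rw [smul_eq_mul] at this
      rw [this]
      ring
    have e : ∀ u ∈ sphere (0 : ℂ) r, F ((v + u) ^ 2) * (2 * (v + u) / (u * (2 * v + u)) ^ (0 + 1)) =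
        F p * (2 * (v + u) / (u * (2 * v + u))) + (2 * (v + u)) * dslope F p ((v + u) ^ 2) := fun u hu => by
      have h0 := hne u hu
      rw [hFz ((v + u) ^ 2)]
      have e1 : (v + u) ^ 2 - p = u * (2 * v + u) := by rw [hp]; ring
      rw [e1, zero_add, pow_one]
      generalize u * (2 * v + u) = X at h0
      field_simp
    rw [circleIntegral.integral_congr hr.le e, circleIntegral.integral_add, circleIntegral.integral_const_mul,
      circ_one hr hrv]
    · have h0 : (∮ u in C(0, r), (2 * (v + u)) * dslope F p ((v + u) ^ 2)) = 0 := by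
        apply DiffContOnCl.circleIntegral_eq_zero hr.le
        apply Differentiable.diffContOnCl
        have : Differentiable ℂ (fun u : ℂ => dslope F p ((v + u) ^ 2)) :=
          hR.comp (by fun_prop)
        fun_prop
      rw [h0]
      simp
      ring
    · apply ContinuousOn.circleIntegrable hr.le
      have := hker 1
      simp only [pow_one] at this
      fun_prop
    · apply ContinuousOn.circleIntegrable hr.le
      have := hFc _ hR
      fun_prop
  | succ n ih =>
    intro F hF
    set p := v ^ 2 with hp
    have hR : Differentiable ℂ (dslope F p) := by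
      rw [← differentiableOn_univ] at hF ⊢
      exact (Complex.differentiableOn_dslope univ_mem).mpr hF
    have hFz : ∀ z, F z = F p + (z - p) * dslope F p z := fun z => by
      have := sub_smul_dslope F p z
      rw [smul_eq_mul] at this
      rw [this]
      ring
    have e : ∀ u ∈ sphere (0 : ℂ) r, F ((v + u) ^ 2) * (2 * (v + u) / (u * (2 * v + u)) ^ (n + 1 + 1)) =
        F p * (2 * (v + u) / (u * (2 * v + u)) ^ (n + 2)) +
          dslope F p ((v + u) ^ 2) * (2 * (v + u) / (u * (2 * v + u)) ^ (n + 1)) := fun u hu => by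
      have h0 := hne u hu
      rw [hFz ((v + u) ^ 2)]
      have e1 : (v + u) ^ 2 - p = u * (2 * v + u) := by rw [hp]; ring
      rw [e1]
      generalize u * (2 * v + u) = X at h0
      field_simp
      ring
    rw [circleIntegral.integral_congr hr.le e, circleIntegral.integral_add, circleIntegral.integral_const_mul,
      circ_zero hr hrv, ih _ hR, mul_zero, zero_add]
    · have h1 : iteratedDeriv (n + 1) F p = (n + 1) * iteratedDeriv n (dslope F p) p := by
        have e2 : F = fun z => F p + (z - p) * dslope F p z := funext hFz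
        conv_lhs => rw [e2]
        rw [iteratedDeriv_const_add (by omega), iter_mul_sub hR]
        simp
      rw [h1, Nat.factorial_succ]
      have hn : (n : ℂ) + 1 ≠ 0 := by exact_mod_cast Nat.succ_ne_zero n
      have hf : (n.factorial : ℂ) ≠ 0 := by exact_mod_cast n.factorial_ne_zero
      push_cast
      field_simp
    · apply ContinuousOn.circleIntegrable hr.le
      have := hker (n + 2)
      fun_prop
    · apply ContinuousOn.circleIntegrable hr.le
      have h1 := hFc _ hR
      have h2 := hker (n + 1)
      exact h1.mul h2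

end H73.JP
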