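import Pool.Agent.Helper73.JP.A

set_option autoImplicit false

open Complex Set MeasureTheory intervalIntegral Filter Topology Metric
open scoped ComplexConjugate

namespace H73.JP

/-- the kernel -/
noncomputable def ker (n : ℕ) (v u : ℂ) : ℂ := (1 + u / v) * ((1 + u / (2 * v)) ^ (n + 1))⁻¹

/-- half circle integral with kernel -/
noncomputable def IK (G : ℂ → ℂ) (n : ℕ) (r : ℝ) (v : ℂ) : ℂ :=
  ∫ θ in (-(Real.pi / 2))..(Real.pi / 2),
    G (v + r * cexp (θ * I)) * cexp (-(n * θ * I)) * ker n v (r * cexp (θ * I))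

lemma ker_ne {v u : ℂ} (h : ‖u‖ < 2 * ‖v‖) : 1 + u / (2 * v) ≠ 0 := by
  intro h0
  have hv : v ≠ 0 := by
    rintro rfl
    simp at h
    linarith [norm_nonneg u]
  have h1 : u = -(2 * v) := by
    field_simp at h0
    linear_combination h0
  rw [h1, norm_neg, norm_mul, Complex.norm_ofNat] at h
  linarith

lemma norm_circ {r : ℝ} (hr : 0 < r) (θ : ℝ) : ‖(r : ℂ) * cexp (θ * I)‖ = r := by
  rw [norm_mul, Complex.norm_exp_ofReal_mul_I, Complex.norm_real, Real.norm_eq_abs, abs_of_pos hr, mul_one]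

lemma cont_int {G : ℂ → ℂ} (hG : Continuous G) {r : ℝ} (hr : 0 < r) (n : ℕ) {v : ℂ} (hrv : r < 2 * ‖v‖) :
    Continuous fun θ : ℝ => G (v + r * cexp (θ * I)) * cexp (-(n * θ * I)) * ker n v (r * cexp (θ * I)) := by
  have hk : Continuous fun θ : ℝ => ((1 + (r : ℂ) * cexp (θ * I) / (2 * v)) ^ (n + 1))⁻¹ := by
    apply Continuous.inv₀ (by fun_prop)
    intro θ
    apply pow_ne_zero
    apply ker_ne
    rw [norm_circ hr]
    exact hrv
  unfold ker
  fun_prop

lemma circ_form {F G : ℂ → ℂ} (hF : Differentiable ℂ F) (hFG : ∀ w, F (w ^ 2) = G w) {r : ℝ} (hr : 0 < r)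
    (n : ℕ) {v : ℂ} (hrv : r < 2 * ‖v‖) :
    iteratedDeriv n F (v ^ 2) * (2 * v) ^ n = (n.factorial / (2 * Real.pi * r ^ n) : ℝ) *
      ∫ θ in (0:ℝ)..(2 * Real.pi),
        G (v + r * cexp (θ * I)) * cexp (-(n * θ * I)) * ker n v (r * cexp (θ * I)) := by
  have h := kernel_cauchy hr hrv n F hF
  have hv : v ≠ 0 := by
    rintro rfl
    simp at hrv
    linarith
  have hpi : (Real.pi : ℂ) ≠ 0 := by exact_mod_cast Real.pi_ne_zero
  have hrc : (r : ℂ) ≠ 0 := by exact_mod_cast hr.ne'
  have hfac : (n.factorial : ℂ) ≠ 0 := by exact_mod_cast n.factorial_ne_zero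
  have e1 : (∮ u in C(0, r), F ((v + u) ^ 2) * (2 * (v + u) / (u * (2 * v + u)) ^ (n + 1))) =
      (I / (r ^ n * (2 * v) ^ n)) * ∫ θ in (0:ℝ)..(2 * Real.pi),
        G (v + r * cexp (θ * I)) * cexp (-(n * θ * I)) * ker n v (r * cexp (θ * I)) := by
    rw [circleIntegral, ← intervalIntegral.integral_const_mul]
    refine intervalIntegral.integral_congr fun θ _ => ?_
    simp only [deriv_circleMap, circleMap, smul_eq_mul, zero_add]
    rw [hFG]
    have e2 : cexp (-(n * θ * I)) = (cexp (θ * I) ^ n)⁻¹ := by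
      rw [← Complex.exp_nat_mul, ← Complex.exp_neg]
      congr 1
      ring
    rw [e2]
    have hE := Complex.exp_ne_zero (θ * I)
    have hkn : (2 * v + (r : ℂ) * cexp (θ * I)) ≠ 0 := by
      have h1 := ker_ne (v := v) (u := r * cexp (θ * I)) (by rw [norm_circ hr]; exact hrv)
      intro h2
      apply h1
      field_simp
      linear_combination h2
    unfold ker
    set E := cexp (θ * I) with hEd
    have e3 : 1 + (r : ℂ) * E / (2 * v) = (2 * v + r * E) / (2 * v) := by
      field_simp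
    rw [e3]
    generalize 2 * v + (r : ℂ) * E = Y at hkn
    rw [div_pow, inv_div, mul_pow, mul_pow (r : ℂ) E]
    field_simp
    ring
  rw [e1] at h
  generalize (∫ θ in (0:ℝ)..(2 * Real.pi),
        G (v + r * cexp (θ * I)) * cexp (-(n * θ * I)) * ker n v (r * cexp (θ * I))) = J at h ⊢
  have h2 : iteratedDeriv n F (v ^ 2) = (n.factorial / (2 * Real.pi * I)) * (I / (r ^ n * (2 * v) ^ n) * J) := by
    rw [h]
    have := I_ne_zero
    field_simp
  rw [h2]
  have hI := I_ne_zero
  push_cast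
  field_simp

lemma half_form {F G : ℂ → ℂ} (hF : Differentiable ℂ F) (hFG : ∀ w, F (w ^ 2) = G w) (hG : Continuous G)
    (hfe : ∀ w : ℂ, G w = conj (G (-conj w))) {r : ℝ} (hr : 0 < r) (n : ℕ) {v : ℂ} (hrv : r < 2 * ‖v‖) :
    iteratedDeriv n F (v ^ 2) * (2 * v) ^ n = (n.factorial / (2 * Real.pi * r ^ n) : ℝ) *
      (IK G n r v + (-1) ^ n * conj (IK G n r (-conj v))) := by
  rw [circ_form hF hFG hr n hrv]
  congr 1
  set f : ℝ → ℂ := fun θ => G (v + r * cexp (θ * I)) * cexp (-(n * θ * I)) * ker n v (r * cexp (θ * I)) with hf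
  have hfc : Continuous f := cont_int hG hr n hrv
  have hfi : ∀ b c : ℝ, IntervalIntegrable f volume b c := fun b c => hfc.intervalIntegrable _ _
  have hper : Function.Periodic f (2 * Real.pi) := by
    intro θ
    simp only [hf]
    have e1 : cexp (((θ + 2 * Real.pi : ℝ) : ℂ) * I) = cexp (θ * I) := by
      push_cast
      rw [add_mul, Complex.exp_add, Complex.exp_two_pi_mul_I, mul_one]
    have e2 : cexp (-(n * ((θ + 2 * Real.pi : ℝ) : ℂ) * I)) = cexp (-(n * θ * I)) := by
      push_cast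
      have : -((n : ℂ) * (θ + 2 * Real.pi) * I) = -(n * θ * I) + (-n : ℤ) * (2 * Real.pi * I) := by
        push_cast
        ring
      rw [this, Complex.exp_add, Complex.exp_int_mul_two_pi_mul_I, mul_one]
    rw [e1, e2]
  have h1 : ∫ θ in (0:ℝ)..(2 * Real.pi), f θ =
      (∫ θ in (-(Real.pi / 2))..(Real.pi / 2), f θ) +
        ∫ θ in (Real.pi / 2)..(3 * Real.pi / 2), f θ := by
    have h2 := hper.intervalIntegral_add_eq 0 (-(Real.pi / 2))
    rw [zero_add] at h2
    have e : -(Real.pi / 2) + 2 * Real.pi = 3 * Real.pi / 2 := by ring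
    rw [e] at h2
    rw [h2, intervalIntegral.integral_add_adjacent_intervals (hfi _ _) (hfi _ _)]
  rw [h1]
  congr 1
  have h3 := intervalIntegral.integral_comp_sub_left (a := -(Real.pi / 2)) (b := Real.pi / 2) f Real.pi
  have e1 : Real.pi - Real.pi / 2 = Real.pi / 2 := by ring
  have e2 : Real.pi - -(Real.pi / 2) = 3 * Real.pi / 2 := by ring
  rw [e1, e2] at h3
  rw [← h3]
  have h4 : conj (IK G n r (-conj v)) = ∫ θ in (-(Real.pi / 2))..(Real.pi / 2),
      conj (G (-conj v + r * cexp (θ * I)) * cexp (-(n * θ * I)) * ker n (-conj v) (r * cexp (θ * I))) := by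
    unfold IK
    rw [← intervalIntegral.intervalIntegral_conj]
  rw [h4, ← intervalIntegral.integral_const_mul]
  refine intervalIntegral.integral_congr fun θ _ => ?_
  simp only [hf]
  have e3 : cexp (((Real.pi - θ : ℝ) : ℂ) * I) = -cexp (-(θ * I)) := by
    push_cast
    rw [sub_mul, Complex.exp_sub, Complex.exp_pi_mul_I, Complex.exp_neg]
    ring
  have e4 : cexp (-(n * ((Real.pi - θ : ℝ) : ℂ) * I)) = (-1) ^ n * cexp (n * θ * I) := by
    push_cast
    have : -((n : ℂ) * (Real.pi - θ) * I) = n * (-(Real.pi * I)) + n * θ * I := by ring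
    rw [this, Complex.exp_add, Complex.exp_nat_mul, Complex.exp_neg, Complex.exp_pi_mul_I]
    norm_num
  have e7 : conj (cexp (θ * I)) = cexp (-(θ * I)) := by
    rw [← Complex.exp_conj]
    simp [Complex.conj_ofReal]
  rw [e3, e4, hfe]
  have e5 : -conj (v + r * -cexp (-(θ * I))) = -conj v + r * cexp (θ * I) := by
    simp only [map_add, map_mul, map_neg, Complex.conj_ofReal, ← Complex.exp_conj, Complex.conj_I]
    ring_nf
  have e6 : conj (cexp (-((n : ℂ) * θ * I))) = cexp (n * θ * I) := by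
    rw [← Complex.exp_conj]
    simp [Complex.conj_ofReal]
  have e8 : conj (ker n (-conj v) (r * cexp (θ * I))) = ker n v (r * -cexp (-(θ * I))) := by
    unfold ker
    simp only [map_mul, map_add, map_div₀, map_inv₀, map_pow, map_neg, map_one, Complex.conj_ofReal,
      Complex.conj_conj, e7, Complex.conj_ofNat]
    have a1 : (r : ℂ) * cexp (-(θ * I)) / (-v) = r * -cexp (-(θ * I)) / v := by
      rw [div_neg, mul_neg, neg_div]
    have a2 : (r : ℂ) * cexp (-(θ * I)) / (2 * -v) = r * -cexp (-(θ * I)) / (2 * v) := by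
      rw [mul_neg, div_neg, mul_neg, neg_div]
    rw [a1, a2]
  rw [e5, map_mul, map_mul, e6, e8]
  ring

end H73.JP
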