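import Pool.Agent.Helper73.JP.B
import Pool.Graph.R_seed8.H353R6.E7

set_option autoImplicit false

open Complex Set MeasureTheory intervalIntegral Filter Topology Metric
open scoped ComplexConjugate

namespace H73.JP

/-- the analytic data of a self-dual completed `L`-function, centred at `0` -/
structure JD (b k C κ : ℝ) (G γ D : ℂ → ℂ) : Prop where
  hb : 0 < b
  hk : 2 * b + 1 ≤ k
  hC : 1 ≤ C
  hκ : 0 < κ
  diff : Differentiable ℂ G
  even : ∀ w, G (-w) = G w
  real : ∀ w, G (conj w) = conj (G w)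
  der : ∀ w : ℂ, 1 ≤ w.re → HasDerivAt γ (γ w * D w) w
  ne : ∀ w : ℂ, 1 ≤ w.re → γ w ≠ 0
  dD : ∀ w : ℂ, 1 ≤ w.re → ∃ d : ℂ, HasDerivAt D d w ∧ ‖d‖ ≤ C / ‖w‖
  im : ∀ w : ℂ, 1 ≤ w.re → |(D w).im| ≤ C
  low : ∀ w : ℂ, 1 ≤ w.re → κ * Real.log ‖w‖ - C ≤ (D w).re
  up : ∀ w : ℂ, 1 ≤ w.re → ‖D w‖ ≤ C * (1 + Real.log ‖w‖)
  close : ∀ w : ℂ, 4 ≤ w.re → ‖G w - γ w‖ ≤ C * (1 / 2 : ℝ) ^ w.re * ‖γ w‖
  strip : ∀ w : ℂ, -(2 * b) ≤ w.re → ‖G w‖ ≤ C * ‖γ (w + k)‖
  zer : ∀ w : ℂ, G w = 0 → |w.re| ≤ b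

variable {b k C κ : ℝ} {G γ D : ℂ → ℂ}

lemma one_le_norm {w : ℂ} (h : 1 ≤ w.re) : 1 ≤ ‖w‖ := h.trans ((le_abs_self _).trans (Complex.abs_re_le_norm w))

lemma JD.gp (h : JD b k C κ G γ D) :
    H353.E.GP C (fun K => Real.exp ((K + C) / κ)) γ D where
  der := h.der
  ne := h.ne
  dD := fun s hs => by
    obtain ⟨d, h1, h2⟩ := h.dD s hs
    refine ⟨d, h1, h2.trans ?_⟩
    have hC := h.hC
    exact div_le_div_of_nonneg_left (by linarith) (by linarith)
      ((le_abs_self _).trans (Complex.abs_re_le_norm s))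
  im := h.im
  re := fun s hs => by
    have h1 := h.low s hs
    have h2 : 0 ≤ Real.log ‖s‖ := Real.log_nonneg (one_le_norm hs)
    have h3 := h.hκ
    nlinarith
  gr := fun K s hs hK => by
    have h1 := h.low s hs
    have h3 := h.hκ
    have h4 : (K + C) / κ ≤ Real.log ‖s‖ := by
      rw [Real.le_log_iff_exp_le (by linarith [one_le_norm hs])]
      exact hK.trans ((le_abs_self _).trans (Complex.abs_re_le_norm s))
    rw [div_le_iff₀ h3] at h4
    linarith

lemma JD.fe (h : JD b k C κ G γ D) (w : ℂ) : G w = conj (G (-conj w)) := by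
  rw [h.even, h.real, Complex.conj_conj]

lemma JD.lipY (h : JD b k C κ G γ D) {Y : ℝ} (hY : 0 < Y) {w w' : ℂ} (h1 : 1 ≤ w.re) (h2 : Y ≤ w.im)
    (h3 : 1 ≤ w'.re) (h4 : Y ≤ w'.im) : ‖D w - D w'‖ ≤ C / Y * ‖w - w'‖ := by
  have hC := h.hC
  have hconv : Convex ℝ {z : ℂ | 1 ≤ z.re ∧ Y ≤ z.im} :=
    (convex_halfSpace_re_ge 1).inter (convex_halfSpace_im_ge Y)
  choose! d hd1 hd2 using h.dD
  refine hconv.norm_image_sub_le_of_norm_hasDerivWithin_le (f := D) (f' := d) (C := C / Y)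
    (fun z hz => (hd1 z hz.1).hasDerivWithinAt) (fun z hz => ?_) ⟨h3, h4⟩ ⟨h1, h2⟩
  refine (hd2 z hz.1).trans ?_
  exact div_le_div_of_nonneg_left (by linarith) hY
    (hz.2.trans ((le_abs_self _).trans (Complex.abs_im_le_norm z)))

/-- moving along a segment with a comparison exponent -/
lemma JD.seg_eq (h : JD b k C κ G γ D) {s v lam : ℂ} {δ : ℝ}
    (hre : ∀ t ∈ Icc (0:ℝ) 1, 1 ≤ (s + t * v).re)
    (hd : ∀ t ∈ Icc (0:ℝ) 1, ‖D (s + t * v) - lam‖ * ‖v‖ ≤ δ) :
    ∃ ε : ℂ, ‖ε‖ ≤ δ ∧ γ (s + v) = γ s * cexp (lam * v) * cexp ε := by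
  have hpe := H353.E.path_eq h.gp (p := fun t : ℝ => s + t * v) (p' := fun _ => v) (a := 0) (b := 1)
    zero_le_one (fun t _ => by
      have h1 : HasDerivAt (fun t : ℝ => (t : ℂ)) 1 t := Complex.ofRealCLM.hasDerivAt
      simpa using (h1.mul_const v).const_add s) continuousOn_const hre
  simp only [ofReal_one, one_mul, ofReal_zero, zero_mul, add_zero] at hpe
  refine ⟨(∫ t in (0:ℝ)..1, D (s + t * v) * v) - lam * v, ?_, ?_⟩
  · have hc : ContinuousOn (fun t : ℝ => D (s + t * v) * v) (Icc 0 1) := by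
      refine ContinuousOn.mul (fun t ht => ?_) continuousOn_const
      have h2 : ContinuousAt (fun t : ℝ => s + t * v) t := by fun_prop
      exact (ContinuousAt.comp (f := fun t : ℝ => s + t * v) (h.gp.contD (hre t ht)) h2).continuousWithinAt
    have e : (∫ t in (0:ℝ)..1, D (s + t * v) * v) - lam * v =
        ∫ t in (0:ℝ)..1, (D (s + t * v) * v - lam * v) := by
      rw [intervalIntegral.integral_sub]
      · simp
      · apply ContinuousOn.intervalIntegrable
        rwa [uIcc_of_le zero_le_one]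
      · simp
    rw [e]
    have := intervalIntegral.norm_integral_le_of_norm_le_const (a := (0:ℝ)) (b := 1)
      (f := fun t : ℝ => D (s + t * v) * v - lam * v) (C := δ) (fun t ht => ?_)
    · simpa using this
    · rw [uIoc_of_le zero_le_one] at ht
      rw [← sub_mul, norm_mul]
      exact hd t ⟨ht.1.le, ht.2⟩
  · rw [mul_assoc, ← Complex.exp_add, add_sub_cancel]
    exact hpe

lemma right_grow (h : JD b k C κ G γ D) {s : ℂ} (hs : 1 ≤ s.re) {a m : ℝ} (ha : 0 ≤ a)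
    (hm : ∀ t ∈ Icc (0:ℝ) 1, m ≤ (D (s + t * a)).re) :
    Real.exp (m * a) * ‖γ s‖ ≤ ‖γ (s + a)‖ := by
  have hmove := H353.E.seg_le h.gp (s := s + a) (v := -(a : ℂ)) (A := -(m * a)) (fun t ht => ?_)
    (fun t ht => ?_)
  · rw [add_neg_cancel_right] at hmove
    rw [Real.exp_neg] at hmove
    have h1 := Real.exp_pos (m * a)
    rw [mul_comm, ← le_div_iff₀ h1, div_eq_mul_inv]
    exact hmove
  · simp only [add_re, ofReal_re, mul_re, neg_re, ofReal_im, neg_im, mul_neg, neg_zero, mul_zero,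
      sub_zero]
    nlinarith [ht.1, ht.2]
  · have h2 := hm (1 - t) ⟨by linarith [ht.2], by linarith [ht.1]⟩
    have e : s + ((1 - t : ℝ) : ℂ) * a = s + a + t * -(a : ℂ) := by
      push_cast
      ring
    rw [e] at h2
    simp only [mul_re, neg_re, ofReal_re, neg_im, ofReal_im, neg_zero, mul_zero, sub_zero]
    nlinarith

/-- Stirling, upper bound for the factorial -/
lemma fac_up {n : ℕ} (hn : 1 ≤ n) : (n.factorial : ℝ) * Real.exp n ≤ Real.exp 1 * Real.sqrt n * (n : ℝ) ^ n := by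
  obtain ⟨m, rfl⟩ : ∃ m, n = m + 1 := ⟨n - 1, by omega⟩
  have h1 := Stirling.stirlingSeq'_antitone (Nat.zero_le m)
  simp only [Function.comp, Nat.succ_eq_add_one, zero_add] at h1
  rw [Stirling.stirlingSeq_one, Stirling.stirlingSeq] at h1
  set n : ℕ := m + 1 with hndef
  have hn0 : (0:ℝ) < n := by exact_mod_cast Nat.succ_pos m
  have h2 : 0 < Real.sqrt (2 * n) * (n / Real.exp 1) ^ n := by positivity
  rw [div_le_iff₀ h2] at h1
  have h3 : Real.exp (n : ℝ) = Real.exp 1 ^ n := by rw [← Real.exp_nat_mul, mul_one]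
  rw [h3]
  have h4 : Real.sqrt (2 * n) = Real.sqrt 2 * Real.sqrt n := Real.sqrt_mul (by norm_num) _
  rw [h4, div_pow] at h1
  have h5 : Real.exp 1 / Real.sqrt 2 * (Real.sqrt 2 * Real.sqrt n * ((n : ℝ) ^ n / Real.exp 1 ^ n)) =
      Real.exp 1 * Real.sqrt n * (n : ℝ) ^ n / Real.exp 1 ^ n := by
    have : Real.sqrt 2 ≠ 0 := by positivity
    field_simp
  rw [h5, le_div_iff₀ (by positivity)] at h1
  exact h1

/-- the main integral of the model is of size `e^n / √n` -/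
lemma model_low {n : ℕ} (hn : 1 ≤ n) :
    2 * Real.exp n / Real.sqrt n ≤ 2 * Real.pi * (n : ℝ) ^ n / n.factorial := by
  have h1 := fac_up hn
  have hn0 : (0:ℝ) < n := by exact_mod_cast hn
  have hs : 0 < Real.sqrt n := Real.sqrt_pos.mpr hn0
  have hf : (0:ℝ) < n.factorial := by exact_mod_cast n.factorial_pos
  rw [div_le_div_iff₀ hs hf]
  have h2 : Real.exp 1 ≤ Real.pi := by
    have := Real.exp_one_lt_d9
    have := Real.pi_gt_d2
    linarith
  have h3 : 0 ≤ Real.sqrt n * (n : ℝ) ^ n := by positivity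
  nlinarith

lemma gauss_up {n : ℕ} (hn : 1 ≤ n) :
    ∫ θ in (-Real.pi)..Real.pi, Real.exp (n * Real.cos θ) ≤ 4 * Real.exp n / Real.sqrt n := by
  have hn0 : (0:ℝ) < n := by exact_mod_cast hn
  have hpi := Real.pi_pos
  set c : ℝ := 2 * n / Real.pi ^ 2 with hc
  have hc0 : 0 < c := by positivity
  have h1 : ∀ θ ∈ Icc (-Real.pi) Real.pi, Real.exp (n * Real.cos θ) ≤ Real.exp n * Real.exp (-c * θ ^ 2) := by
    intro θ hθ
    rw [← Real.exp_add]
    apply Real.exp_le_exp.mpr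
    have h3 := Real.cos_le_one_sub_mul_cos_sq (x := θ) (abs_le.mpr hθ)
    have h4 : (n : ℝ) * Real.cos θ ≤ n * (1 - 2 / Real.pi ^ 2 * θ ^ 2) := by gcongr
    have e : (n : ℝ) * (1 - 2 / Real.pi ^ 2 * θ ^ 2) = n + -c * θ ^ 2 := by
      rw [hc]
      field_simp
      ring
    linarith
  have hgi : Integrable (fun θ : ℝ => Real.exp (-c * θ ^ 2)) := integrable_exp_neg_mul_sq hc0
  have h2 : ∫ θ in (-Real.pi)..Real.pi, Real.exp (n * Real.cos θ) ≤
      ∫ θ in (-Real.pi)..Real.pi, Real.exp n * Real.exp (-c * θ ^ 2) := by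
    apply intervalIntegral.integral_mono_on (by linarith)
    · apply Continuous.intervalIntegrable
      fun_prop
    · apply Continuous.intervalIntegrable
      fun_prop
    · exact h1
  refine h2.trans ?_
  rw [intervalIntegral.integral_const_mul]
  have h3 : ∫ θ in (-Real.pi)..Real.pi, Real.exp (-c * θ ^ 2) ≤ Real.sqrt (Real.pi / c) := by
    rw [← integral_gaussian c, intervalIntegral.integral_of_le (by linarith)]
    exact setIntegral_le_integral hgi (Eventually.of_forall fun θ => (Real.exp_pos _).le)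
  have h4 : Real.sqrt (Real.pi / c) ≤ 4 / Real.sqrt n := by
    rw [Real.sqrt_le_left (by positivity), div_pow, Real.sq_sqrt hn0.le, hc]
    have h5 := Real.pi_lt_d2
    have e : Real.pi / (2 * n / Real.pi ^ 2) = Real.pi ^ 3 / 2 / n := by field_simp
    rw [e]
    gcongr
    have h6 : Real.pi ^ 3 ≤ 3.15 ^ 3 := by gcongr
    norm_num at h6 ⊢
    linarith
  calc Real.exp n * ∫ θ in (-Real.pi)..Real.pi, Real.exp (-c * θ ^ 2) ≤ Real.exp n * (4 / Real.sqrt n) :=
        mul_le_mul_of_nonneg_left (h3.trans h4) (Real.exp_pos _).le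
    _ = 4 * Real.exp n / Real.sqrt n := by ring

end H73.JP
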