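import Pool.Agent.Helper73.JP.C

set_option autoImplicit false

open Complex Set MeasureTheory intervalIntegral Filter Topology Metric
open scoped ComplexConjugate

namespace H73.JP

/-- holomorphic dependence on a parameter -/
lemma diff_param {f : ℂ → ℝ → ℂ} {v0 : ℂ} {δ M a b : ℝ} (hδ : 0 < δ) (hab : a ≤ b)
    (hc : ∀ v ∈ ball v0 δ, Continuous (f v))
    (hd : ∀ θ, ∀ v ∈ ball v0 δ, DifferentiableAt ℂ (fun v => f v θ) v)
    (hM : ∀ v ∈ ball v0 δ, ∀ θ ∈ Icc a b, ‖f v θ‖ ≤ M) :
    DifferentiableAt ℂ (fun v => ∫ θ in a..b, f v θ) v0 := by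
  have hM0 : 0 ≤ M := (norm_nonneg _).trans (hM v0 (mem_ball_self hδ) a ⟨le_rfl, hab⟩)
  have hder : ∀ θ ∈ Icc a b, ∀ v ∈ ball v0 (δ / 2), ‖deriv (fun v => f v θ) v‖ ≤ M / (δ / 4) := by
    intro θ hθ v hv
    have hsub : closedBall v (δ / 4) ⊆ ball v0 δ := fun z hz => by
      rw [mem_closedBall] at hz
      rw [mem_ball] at hv ⊢
      have := dist_triangle z v v0
      linarith
    apply Complex.norm_deriv_le_of_forall_mem_sphere_norm_le (by positivity)
    · apply DifferentiableOn.diffContOnCl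
      intro z hz
      rw [closure_ball v (by positivity)] at hz
      exact (hd θ z (hsub hz)).differentiableWithinAt
    · intro z hz
      exact hM z (hsub (sphere_subset_closedBall hz)) θ hθ
  refine (intervalIntegral.hasDerivAt_integral_of_dominated_loc_of_lip
    (F := f) (F' := fun θ => deriv (fun v => f v θ) v0) (s := ball v0 (δ / 2))
    (bound := fun _ => M / (δ / 4)) (ball_mem_nhds v0 (by positivity)) ?_ ?_ ?_ ?_ ?_ ?_).2.differentiableAt
  · filter_upwards [ball_mem_nhds v0 hδ] with v hv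
    exact (hc v hv).aestronglyMeasurable
  · exact (hc v0 (mem_ball_self hδ)).intervalIntegrable _ _
  · -- limit of difference quotients
    have hlim : ∀ θ, Tendsto (fun m : ℕ => ((δ / 2 / (m + 1) : ℝ) : ℂ)⁻¹ *
        (f (v0 + ((δ / 2 / (m + 1) : ℝ) : ℂ)) θ - f v0 θ)) atTop (𝓝 (deriv (fun v => f v θ) v0)) := by
      intro θ
      have h1 := (hd θ v0 (mem_ball_self hδ)).hasDerivAt
      have h2 := hasDerivAt_iff_tendsto_slope_zero.mp h1
      have h3 : Tendsto (fun m : ℕ => ((δ / 2 / (m + 1) : ℝ) : ℂ)) atTop (𝓝[≠] 0) := by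
        rw [tendsto_nhdsWithin_iff]
        constructor
        · have h4 : Tendsto (fun m : ℕ => δ / 2 / ((m : ℝ) + 1)) atTop (𝓝 0) := by
            have := tendsto_one_div_add_atTop_nhds_zero_nat (𝕜 := ℝ)
            have h5 := this.const_mul (δ / 2)
            rw [mul_zero] at h5
            refine h5.congr fun m => ?_
            ring
          have := (Complex.continuous_ofReal.tendsto 0).comp h4
          rw [Complex.ofReal_zero] at this
          exact this
        · refine Eventually.of_forall fun m => ?_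
          rw [mem_compl_iff, mem_singleton_iff]
          intro h
          have h5 : (0:ℝ) < δ / 2 / (m + 1) := by positivity
          exact h5.ne' (Complex.ofReal_eq_zero.mp h)
      have h6 := h2.comp h3
      simpa [Function.comp_def, smul_eq_mul] using h6
    refine aestronglyMeasurable_of_tendsto_ae atTop (fun m => ?_) (Eventually.of_forall hlim)
    have hmem : v0 + ((δ / 2 / ((m:ℝ) + 1) : ℝ) : ℂ) ∈ ball v0 δ := by
      rw [mem_ball, dist_eq_norm, add_sub_cancel_left, Complex.norm_real, Real.norm_eq_abs,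
        abs_of_pos (by positivity)]
      have hm : (0:ℝ) ≤ m := Nat.cast_nonneg m
      rw [div_lt_iff₀ (by positivity)]
      nlinarith
    exact (((hc _ hmem).sub (hc v0 (mem_ball_self hδ))).const_mul _).aestronglyMeasurable
  · refine Eventually.of_forall fun θ hθ => ?_
    rw [uIoc_of_le hab] at hθ
    have hθ' : θ ∈ Icc a b := ⟨hθ.1.le, hθ.2⟩
    rw [LipschitzOnWith]
    intro x hx y hy
    have h1 := (convex_ball v0 (δ / 2)).norm_image_sub_le_of_norm_deriv_le (𝕜 := ℂ) (f := fun v => f v θ)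
      (C := M / (δ / 4)) (fun v hv => hd θ v (ball_subset_ball (by linarith) hv))
      (fun v hv => hder θ hθ' v hv) hy hx
    rw [edist_dist, edist_dist, dist_eq_norm, dist_eq_norm]
    have hnn : ((Real.nnabs (M / (δ / 4)) : NNReal) : ENNReal) = ENNReal.ofReal (M / (δ / 4)) := by
      rw [← ENNReal.ofReal_coe_nnreal, Real.coe_nnabs, abs_of_nonneg (by positivity)]
    rw [hnn, ← ENNReal.ofReal_mul (by positivity)]
    exact ENNReal.ofReal_le_ofReal h1
  · simp
  · refine Eventually.of_forall fun θ _ => ?_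
    exact (hd θ v0 (mem_ball_self hδ)).hasDerivAt

lemma IK_diff {G : ℂ → ℂ} (hG : Differentiable ℂ G) {r : ℝ} (hr : 0 < r) (n : ℕ) {v : ℂ} (hrv : r < 2 * ‖v‖) :
    DifferentiableAt ℂ (IK G n r) v := by
  unfold IK
  set δ : ℝ := (2 * ‖v‖ - r) / 4 with hδd
  have hδ : 0 < δ := by rw [hδd]; linarith
  have hball : ∀ v' ∈ closedBall v δ, r < 2 * ‖v'‖ := fun v' hv' => by
    rw [mem_closedBall, dist_eq_norm] at hv'
    have := norm_le_norm_add_norm_sub' v v'
    rw [norm_sub_rev] at this
    rw [hδd] at hv'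
    linarith
  have hv0 : ∀ v' ∈ closedBall v δ, v' ≠ 0 := fun v' hv' h => by
    have := hball v' hv'
    rw [h, norm_zero] at this
    linarith
  -- joint continuity
  have hcont : ContinuousOn (fun p : ℂ × ℝ => G (p.1 + r * cexp (p.2 * I)) * cexp (-(n * p.2 * I)) *
      ker n p.1 (r * cexp (p.2 * I))) (closedBall v δ ×ˢ Icc (-(Real.pi / 2)) (Real.pi / 2)) := by
    have hGc := hG.continuous
    unfold ker
    apply ContinuousOn.mul (by fun_prop)
    apply ContinuousOn.mul
    · apply ContinuousOn.add continuousOn_const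
      apply ContinuousOn.div (by fun_prop) (by fun_prop)
      intro p hp
      exact hv0 p.1 hp.1
    · apply ContinuousOn.inv₀
      · apply ContinuousOn.pow
        apply ContinuousOn.add continuousOn_const
        apply ContinuousOn.div (by fun_prop) (by fun_prop)
        intro p hp
        exact mul_ne_zero two_ne_zero (hv0 p.1 hp.1)
      · intro p hp
        apply pow_ne_zero
        apply ker_ne
        rw [norm_circ hr]
        exact hball p.1 hp.1
  obtain ⟨M, hM⟩ := ((isCompact_closedBall v δ).prod isCompact_Icc).exists_bound_of_continuousOn hcont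
  refine diff_param (M := M) hδ (by linarith [Real.pi_pos]) (fun v' hv' => ?_) (fun θ v' hv' => ?_)
    (fun v' hv' θ hθ => hM (v', θ) ⟨ball_subset_closedBall hv', hθ⟩)
  · exact cont_int hG.continuous hr n (hball v' (ball_subset_closedBall hv'))
  · have h1 := hball v' (ball_subset_closedBall hv')
    have h2 := hv0 v' (ball_subset_closedBall hv')
    have hG1 : DifferentiableAt ℂ (fun v => G (v + r * cexp (θ * I))) v' := by
      have : Differentiable ℂ (fun v => G (v + r * cexp (θ * I))) := hG.comp (by fun_prop)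
      exact this v'
    unfold ker
    refine (hG1.mul_const _).mul (DifferentiableAt.mul ?_ (DifferentiableAt.inv ?_ ?_))
    · exact (DifferentiableAt.div (by fun_prop) (by fun_prop) h2).const_add _
    · exact ((DifferentiableAt.div (by fun_prop) (by fun_prop) (mul_ne_zero two_ne_zero h2)).const_add _).pow _
    · apply pow_ne_zero
      apply ker_ne
      rw [norm_circ hr]
      exact h1

/-- the kernel is close to one -/
lemma ker_close {n : ℕ} {v u : ℂ} {η : ℝ} (hη : η ≤ 1 / 8) (hv : v ≠ 0) (h : (n + 1) * (‖u‖ / ‖v‖) ≤ η) :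
    ‖ker n v u - 1‖ ≤ 4 * η := by
  have hvn : 0 < ‖v‖ := norm_pos_iff.mpr hv
  set x : ℝ := ‖u‖ / ‖v‖ with hx
  have hx0 : 0 ≤ x := by positivity
  have hn0 : (0:ℝ) ≤ n := Nat.cast_nonneg n
  have hη0 : 0 ≤ η := le_trans (by positivity) h
  have hx1 : x ≤ η := by nlinarith
  set a : ℂ := u / (2 * v) with ha
  have han : ‖a‖ = x / 2 := by
    rw [ha, norm_div, norm_mul, Complex.norm_ofNat, hx]
    field_simp
  have h1 : ‖(1 + a) ^ (n + 1) - 1‖ ≤ η := by
    have h2 : ‖(1 + a) ^ (n + 1) - 1‖ ≤ (1 + ‖a‖) ^ (n + 1) - 1 := by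
      induction n + 1 with
      | zero => simp
      | succ m ih =>
        have e : (1 + a) ^ (m + 1) - 1 = ((1 + a) ^ m - 1) * (1 + a) + a := by ring
        rw [e]
        refine (norm_add_le _ _).trans ?_
        rw [norm_mul]
        have h3 : ‖1 + a‖ ≤ 1 + ‖a‖ := by
          have := norm_add_le 1 a
          rwa [norm_one] at this
        have h4 : 0 ≤ ‖(1 + a) ^ m - 1‖ := norm_nonneg _
        have h5 : 0 ≤ ‖a‖ := norm_nonneg _
        calc ‖(1 + a) ^ m - 1‖ * ‖1 + a‖ + ‖a‖ ≤ ((1 + ‖a‖) ^ m - 1) * (1 + ‖a‖) + ‖a‖ := by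
              gcongr
              exact h4.trans ih
          _ = (1 + ‖a‖) ^ (m + 1) - 1 := by ring
    have h3 : (1 + ‖a‖) ^ (n + 1) ≤ Real.exp (η / 2) := by
      have h4 : 1 + ‖a‖ ≤ Real.exp ‖a‖ := by linarith [Real.add_one_le_exp ‖a‖]
      calc (1 + ‖a‖) ^ (n + 1) ≤ Real.exp ‖a‖ ^ (n + 1) := by gcongr
        _ = Real.exp ((n + 1 : ℕ) * ‖a‖) := by rw [← Real.exp_nat_mul]
        _ ≤ Real.exp (η / 2) := by
          apply Real.exp_le_exp.mpr
          rw [han]
          push_cast
          linarith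
    have h5 : Real.exp (η / 2) ≤ 1 + η := by
      have h6 := Real.abs_exp_sub_one_le (x := η / 2) (by rw [abs_of_nonneg (by linarith)]; linarith)
      rw [abs_of_nonneg (by linarith : 0 ≤ η / 2)] at h6
      linarith [le_abs_self (Real.exp (η / 2) - 1)]
    linarith
  have h2 : ‖(((1 + a) ^ (n + 1))⁻¹ : ℂ) - 1‖ ≤ 2 * η := by
    set z := (1 + a) ^ (n + 1) with hz
    have hz1 : 1 / 2 ≤ ‖z‖ := by
      have := norm_sub_norm_le 1 (1 - z)
      rw [norm_one, sub_sub_cancel, norm_sub_rev] at this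
      linarith
    have hz0 : z ≠ 0 := norm_pos_iff.mp (by linarith)
    have e : z⁻¹ - 1 = -(z - 1) / z := by
      field_simp
      ring
    rw [e, norm_div, norm_neg, div_le_iff₀ (by linarith)]
    nlinarith [norm_nonneg (z - 1)]
  have h3 : ‖(1 + u / v) - 1‖ ≤ η := by
    rw [add_sub_cancel_left, norm_div]
    exact hx1
  have e : ker n v u - 1 = ((1 + u / v) - 1) * ((((1 + a) ^ (n + 1))⁻¹ - 1) + 1) +
      (((1 + a) ^ (n + 1))⁻¹ - 1) := by
    unfold ker
    rw [← ha]
    ring
  rw [e]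
  refine (norm_add_le _ _).trans ?_
  rw [norm_mul]
  have h4 : ‖((((1 + a) ^ (n + 1))⁻¹ : ℂ) - 1) + 1‖ ≤ 2 * η + 1 := by
    refine (norm_add_le _ _).trans ?_
    rw [norm_one]
    linarith
  have h5 : ‖(1 + u / v) - 1‖ * ‖((((1 + a) ^ (n + 1))⁻¹ : ℂ) - 1) + 1‖ ≤ η * (2 * η + 1) := by
    gcongr
  nlinarith

end H73.JP
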