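import Pool.Agent.Helper73.JP.D

set_option autoImplicit false

open Complex Set MeasureTheory intervalIntegral Filter Topology Metric
open scoped ComplexConjugate

namespace H73.JP

variable {b k C κ : ℝ} {G γ D : ℂ → ℂ}

lemma norm_exp_negN (n : ℕ) (θ : ℝ) : ‖cexp (-(n * θ * I))‖ = 1 := by
  have : -((n : ℂ) * θ * I) = ((-(n * θ) : ℝ) : ℂ) * I := by push_cast; ring
  rw [this, Complex.norm_exp_ofReal_mul_I]

/-- the main constant of the model -/
noncomputable def KK (n : ℕ) (r : ℝ) (lam : ℂ) : ℂ :=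
  cexp (-(lam * r)) * (2 * Real.pi * r ^ n / n.factorial * lam ^ n)

lemma KK_norm {n : ℕ} {r : ℝ} {lam : ℂ} (hr0 : 0 < r) (hr : r * ‖lam‖ = n) :
    ‖KK n r lam‖ = Real.exp (-(lam.re * r)) * (2 * Real.pi * (n : ℝ) ^ n / n.factorial) := by
  unfold KK
  rw [norm_mul, Complex.norm_exp]
  have e1 : (-(lam * (r : ℂ))).re = -(lam.re * r) := by simp
  rw [e1]
  congr 1
  have e2 : (2 * Real.pi * r ^ n / n.factorial * lam ^ n : ℂ) =
      ((2 * Real.pi / n.factorial : ℝ) : ℂ) * ((r : ℂ) * lam) ^ n := by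
    push_cast
    rw [mul_pow]
    ring
  rw [e2, norm_mul, norm_pow, norm_mul, Complex.norm_real, Complex.norm_real, Real.norm_eq_abs,
    Real.norm_eq_abs, abs_of_pos hr0, hr, abs_of_nonneg (by positivity)]
  ring

lemma model_int {n : ℕ} {r : ℝ} {lam : ℂ} (hr0 : 0 < r) :
    KK n r lam = ∫ θ in (-(Real.pi / 2))..(3 * Real.pi / 2),
      cexp (lam * (r * cexp (θ * I) - r)) * cexp (-(n * θ * I)) := by
  have h1 := H353.E.circ (Φ := fun z => cexp (lam * z)) (by fun_prop) hr0 n 0
  rw [iteratedDeriv_cexp_const_mul] at h1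
  simp only [mul_zero, Complex.exp_zero, mul_one, zero_add] at h1
  set f : ℝ → ℂ := fun θ => cexp (lam * (r * cexp (θ * I))) * cexp (-(n * θ * I)) with hf
  have hper : Function.Periodic f (2 * Real.pi) := by
    intro θ
    simp only [hf]
    have e1 : cexp (((θ + 2 * Real.pi : ℝ) : ℂ) * I) = cexp (θ * I) := by
      push_cast
      rw [add_mul, Complex.exp_add, Complex.exp_two_pi_mul_I, mul_one]
    have e2 : cexp (-(n * ((θ + 2 * Real.pi : ℝ) : ℂ) * I)) = cexp (-(n * θ * I)) := by
      push_cast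
      have : -((n : ℂ) * (θ + 2 * Real.pi) * I) = -(n * θ * I) + (-n : ℤ) * (2 * Real.pi * I) := by
        push_cast
        ring
      rw [this, Complex.exp_add, Complex.exp_int_mul_two_pi_mul_I, mul_one]
    rw [e1, e2]
  have h2 := hper.intervalIntegral_add_eq 0 (-(Real.pi / 2))
  rw [zero_add] at h2
  have e : -(Real.pi / 2) + 2 * Real.pi = 3 * Real.pi / 2 := by ring
  rw [e] at h2
  rw [h2] at h1
  have e3 : ∫ θ in (-(Real.pi / 2))..(3 * Real.pi / 2),
      cexp (lam * (r * cexp (θ * I) - r)) * cexp (-(n * θ * I)) =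
      cexp (-(lam * r)) * ∫ θ in (-(Real.pi / 2))..(3 * Real.pi / 2), f θ := by
    rw [← intervalIntegral.integral_const_mul]
    refine intervalIntegral.integral_congr fun θ _ => ?_
    simp only [hf]
    rw [mul_sub, sub_eq_add_neg, Complex.exp_add]
    ring
  rw [e3]
  unfold KK
  congr 1
  rw [h1]
  have hpi : (Real.pi : ℂ) ≠ 0 := by exact_mod_cast Real.pi_ne_zero
  have hrc : (r : ℂ) ≠ 0 := by exact_mod_cast hr0.ne'
  have hfac : (n.factorial : ℂ) ≠ 0 := by exact_mod_cast n.factorial_ne_zero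
  push_cast
  field_simp

lemma re_lam_u (lam : ℂ) (r θ : ℝ) : (lam * (r * cexp (θ * I))).re =
    r * (lam.re * Real.cos θ - lam.im * Real.sin θ) := by
  rw [Complex.exp_mul_I, ← Complex.ofReal_cos, ← Complex.ofReal_sin]
  simp only [mul_re, mul_im, add_re, add_im, ofReal_re, ofReal_im, I_re, I_im]
  ring

lemma re_lam_le {n : ℕ} {r : ℝ} {lam : ℂ} (hr0 : 0 < r) (hr : r * ‖lam‖ = n) (hlp : 0 < lam.re)
    (him : |lam.im| ≤ ‖lam‖ / 5) {θ : ℝ} (hθ : Real.cos θ ≤ 1 / 4) :
    (lam * (r * cexp (θ * I))).re ≤ n / 2 := by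
  rw [re_lam_u]
  have h1 : lam.re * Real.cos θ ≤ ‖lam‖ / 4 := by
    have := Complex.re_le_norm lam
    nlinarith
  have h2 : -(lam.im * Real.sin θ) ≤ ‖lam‖ / 5 := by
    have h3 : |lam.im * Real.sin θ| ≤ ‖lam‖ / 5 := by
      rw [abs_mul]
      have := Real.abs_sin_le_one θ
      have := abs_nonneg lam.im
      have := abs_nonneg (Real.sin θ)
      nlinarith
    linarith [neg_abs_le (lam.im * Real.sin θ)]
  have h4 := norm_nonneg lam
  calc r * (lam.re * Real.cos θ - lam.im * Real.sin θ) ≤ r * (‖lam‖ / 2) := by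
        apply mul_le_mul_of_nonneg_left _ hr0.le
        linarith
    _ = n / 2 := by rw [← hr]; ring

lemma gauss_shift {n : ℕ} {r : ℝ} {lam : ℂ} (hn : 1 ≤ n) (hr : r * ‖lam‖ = n) :
    ∫ θ in (-(Real.pi / 2))..(Real.pi / 2), Real.exp ((lam * (r * cexp (θ * I))).re) ≤
      4 * Real.exp n / Real.sqrt n := by
  have hpi := Real.pi_pos
  have e : ∀ θ : ℝ, (lam * (r * cexp (θ * I))).re = n * Real.cos (θ + arg lam) := by
    intro θ
    have h1 : lam = ‖lam‖ * cexp (arg lam * I) := (Complex.norm_mul_exp_arg_mul_I lam).symm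
    have h2 : lam * (r * cexp (θ * I)) = ((n : ℝ) : ℂ) * cexp ((θ + arg lam : ℝ) * I) := by
      conv_lhs => rw [h1]
      rw [← hr]
      push_cast
      rw [add_mul, Complex.exp_add]
      ring
    rw [h2, Complex.re_ofReal_mul, Complex.exp_ofReal_mul_I_re]
  simp only [e]
  set g : ℝ → ℝ := fun θ => Real.exp (n * Real.cos θ) with hg
  have hgc : Continuous g := by fun_prop
  have h1 : ∫ θ in (-(Real.pi / 2))..(Real.pi / 2), g (θ + arg lam) ≤
      ∫ θ in (-Real.pi)..Real.pi, g (θ + arg lam) := by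
    apply intervalIntegral.integral_mono_interval (by linarith) (by linarith) (by linarith)
    · exact Eventually.of_forall fun θ => (Real.exp_pos _).le
    · apply Continuous.intervalIntegrable
      fun_prop
  refine h1.trans ?_
  rw [intervalIntegral.integral_comp_add_right g (arg lam)]
  have hper : Function.Periodic g (2 * Real.pi) := fun θ => by
    simp only [hg]
    rw [Real.cos_add_two_pi]
  have h2 := hper.intervalIntegral_add_eq (-Real.pi) (-Real.pi + arg lam)
  have e1 : -Real.pi + 2 * Real.pi = Real.pi := by ring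
  have e2 : -Real.pi + arg lam + 2 * Real.pi = Real.pi + arg lam := by ring
  rw [e1, e2] at h2
  rw [← h2]
  exact gauss_up hn

/-- the main estimate -/
lemma main_est (h : JD b k C κ G γ D) {n : ℕ} {y r : ℝ} {lam : ℂ} (hn : 1 ≤ n)
    (hlam : lam = D (1 + y * I)) (hlp : 0 < lam.re) (him : |lam.im| ≤ ‖lam‖ / 5) (hr0 : 0 < r)
    (hr : r * ‖lam‖ = n) (hrk : 8 * k ≤ r) (hrb : 4 ≤ r / 4 - 2 * b)
    (hclose : C * (1 / 2 : ℝ) ^ (r / 4 - 2 * b) ≤ 1 / 100) (hy : 2 * (2 * b + r) ≤ y)
    (hδ : C / (y / 2) * (2 * b + 1 + r + k) * (2 * r + k) ≤ 1 / 1000)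
    (hker : (n + 1) * (r / (y - 2 * b)) ≤ 1 / 4000)
    (hbig : Real.pi * (2 * C * Real.exp (n / 8) + 2) * Real.exp (n / 2) ≤ 9 / 10 * (Real.exp n / Real.sqrt n))
    {v : ℂ} (hv : ‖v - y * I‖ ≤ 2 * b) :
    ‖IK G n r v - γ (v + r) * KK n r lam‖ ≤ ‖γ (v + r)‖ * ‖KK n r lam‖ / 2 := by
  have hb := h.hb
  have hC := h.hC
  have hk := h.hk
  have hpi := Real.pi_pos
  have hy0 : 0 < y := by linarith
  have hvre : -(2 * b) ≤ v.re := by
    have h1 := (abs_le.mp ((Complex.abs_re_le_norm _).trans hv)).1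
    simp at h1
    linarith
  have hvim : y - 2 * b ≤ v.im := by
    have h1 := (abs_le.mp ((Complex.abs_im_le_norm _).trans hv)).1
    simp at h1
    linarith
  have hvn : y - 2 * b ≤ ‖v‖ := hvim.trans ((le_abs_self _).trans (Complex.abs_im_le_norm v))
  have hvpos : 0 < y - 2 * b := by linarith
  have hv0 : v ≠ 0 := norm_pos_iff.mp (by linarith)
  have hrv : r < 2 * ‖v‖ := by linarith
  set X : ℂ := γ (v + r) with hX
  have hδ0 : 0 ≤ C / (y / 2) := by positivity
  -- the shared segment estimate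
  have hseg : ∀ (θ a : ℝ), 0 ≤ a → a ≤ k → (-(2 * b) + r * Real.cos θ + a) ≥ 1 →
      ∃ ε : ℂ, ‖ε‖ ≤ 1 / 1000 ∧ γ (v + r * cexp (θ * I) + a) =
        X * cexp (lam * (r * cexp (θ * I) + a - r)) * cexp ε := by
    intro θ a ha hak hre1
    set u : ℂ := r * cexp (θ * I) with hu
    have hun : ‖u‖ = r := norm_circ hr0 θ
    have hure : u.re = r * Real.cos θ := by
      rw [hu, Complex.re_ofReal_mul, Complex.exp_ofReal_mul_I_re]
    have hre : ∀ t ∈ Icc (0:ℝ) 1, 1 ≤ (v + r + t * (u + a - r)).re := fun t ht => by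
      have e : (v + r + t * (u + a - r)).re = v.re + (1 - t) * r + t * (r * Real.cos θ + a) := by
        simp only [add_re, ofReal_re, mul_re, sub_re, sub_im, add_im, ofReal_im, hure]
        ring
      rw [e]
      have h1 : (1 - t) * (2 * b + 1) ≤ (1 - t) * r :=
        mul_le_mul_of_nonneg_left (by linarith) (by linarith [ht.2])
      have h2 : t * (2 * b + 1) ≤ t * (r * Real.cos θ + a) :=
        mul_le_mul_of_nonneg_left (by linarith) ht.1
      linarith
    have hd : ∀ t ∈ Icc (0:ℝ) 1, ‖D (v + r + t * (u + a - r)) - lam‖ * ‖u + a - r‖ ≤ 1 / 1000 := by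
      intro t ht
      have him1 : y / 2 ≤ (v + r + t * (u + a - r)).im := by
        have e : (v + r + t * (u + a - r)).im = v.im + t * u.im := by
          simp
        rw [e]
        have h1 : -r ≤ u.im := by
          have := (abs_le.mp (Complex.abs_im_le_norm u)).1
          linarith
        nlinarith [ht.1, ht.2]
      have h3 := h.lipY (Y := y / 2) (by linarith) (hre t ht) him1 (w' := 1 + y * I) (by simp)
        (by simp; linarith)
      rw [← hlam] at h3
      have h4 : ‖v + r + t * (u + a - r) - (1 + y * I)‖ ≤ 2 * b + 1 + r + k := by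
        have e : v + r + t * (u + a - r) - (1 + y * I) =
            (v - y * I) + (-1) + (((1 - t) * r : ℝ) : ℂ) + t * u + ((t * a : ℝ) : ℂ) := by
          push_cast
          ring
        rw [e]
        have n1 : ‖(((1 - t) * r : ℝ) : ℂ)‖ = (1 - t) * r := by
          rw [Complex.norm_real, Real.norm_eq_abs, abs_of_nonneg]
          exact mul_nonneg (by linarith [ht.2]) hr0.le
        have n2 : ‖(t : ℂ) * u‖ = t * r := by
          rw [norm_mul, Complex.norm_real, Real.norm_eq_abs, abs_of_nonneg ht.1, hun]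
        have n3 : ‖((t * a : ℝ) : ℂ)‖ ≤ k := by
          rw [Complex.norm_real, Real.norm_eq_abs, abs_of_nonneg (mul_nonneg ht.1 ha)]
          nlinarith [ht.1, ht.2]
        have n4 : ‖(-1 : ℂ)‖ = 1 := by simp
        have := norm_add_le ((v - y * I) + (-1) + (((1 - t) * r : ℝ) : ℂ) + t * u) (((t * a : ℝ) : ℂ))
        have := norm_add_le ((v - y * I) + (-1) + (((1 - t) * r : ℝ) : ℂ)) (t * u)
        have := norm_add_le ((v - y * I) + (-1)) (((1 - t) * r : ℝ) : ℂ)
        have := norm_add_le (v - y * I) (-1)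
        linarith
      have h5 : ‖u + a - r‖ ≤ 2 * r + k := by
        have n1 : ‖(r : ℂ)‖ = r := by rw [Complex.norm_real, Real.norm_eq_abs, abs_of_pos hr0]
        have n2 : ‖(a : ℂ)‖ ≤ k := by rw [Complex.norm_real, Real.norm_eq_abs, abs_of_nonneg ha]; exact hak
        have := norm_sub_le (u + a) r
        have := norm_add_le u a
        linarith
      calc ‖D (v + r + t * (u + a - r)) - lam‖ * ‖u + a - r‖
          ≤ (C / (y / 2) * (2 * b + 1 + r + k)) * (2 * r + k) := by
            have h6 : ‖D (v + r + t * (u + a - r)) - lam‖ ≤ C / (y / 2) * (2 * b + 1 + r + k) :=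
              h3.trans (mul_le_mul_of_nonneg_left h4 hδ0)
            exact mul_le_mul h6 h5 (norm_nonneg _) ((norm_nonneg _).trans h6)
        _ ≤ 1 / 1000 := hδ
    obtain ⟨ε, hε, he⟩ := h.seg_eq hre hd
    refine ⟨ε, hε, ?_⟩
    rw [hX, ← he]
    congr 1
    ring
  -- exponentials of small numbers
  have hexp : ∀ ε : ℂ, ‖ε‖ ≤ 1 / 1000 → ‖cexp ε - 1‖ ≤ 2 / 1000 := fun ε hε => by
    have := Complex.norm_exp_sub_one_le (x := ε) (by linarith)
    linarith
  have hkc : ∀ θ : ℝ, ‖ker n v (r * cexp (θ * I)) - 1‖ ≤ 1 / 1000 := fun θ => by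
    have h1 : ((n : ℝ) + 1) * (‖(r : ℂ) * cexp (θ * I)‖ / ‖v‖) ≤ 1 / 4000 := by
      rw [norm_circ hr0]
      refine le_trans ?_ hker
      have hn0 : (0:ℝ) ≤ n := Nat.cast_nonneg n
      gcongr
    have := ker_close (by norm_num) hv0 h1
    linarith
  set E0 : ℝ := Real.exp (-(lam.re * r)) with hE0
  have hE0p : 0 < E0 := Real.exp_pos _
  have hmn : ∀ (θ a : ℝ), ‖cexp (lam * (r * cexp (θ * I) + a - r))‖ =
      E0 * Real.exp ((lam * (r * cexp (θ * I))).re) * Real.exp (lam.re * a) := by
    intro θ a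
    rw [Complex.norm_exp, hE0, ← Real.exp_add, ← Real.exp_add]
    congr 1
    have e : lam * (r * cexp (θ * I) + a - r) = lam * (r * cexp (θ * I)) + lam * a - lam * r := by ring
    rw [e, sub_re, add_re]
    simp only [mul_re, ofReal_re, ofReal_im, mul_zero, sub_zero]
    ring
  set f1 : ℝ → ℂ := fun θ => G (v + r * cexp (θ * I)) * cexp (-(n * θ * I)) * ker n v (r * cexp (θ * I))
    with hf1
  set f2 : ℝ → ℂ := fun θ => X * (cexp (lam * (r * cexp (θ * I) - r)) * cexp (-(n * θ * I))) with hf2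
  have hf1c : Continuous f1 := cont_int h.diff.continuous hr0 n hrv
  have hf2c : Continuous f2 := by fun_prop
  have hm2 : ∀ θ, ‖f2 θ‖ = ‖X‖ * (E0 * Real.exp ((lam * (r * cexp (θ * I))).re)) := fun θ => by
    simp only [hf2]
    rw [norm_mul, norm_mul, norm_exp_negN n θ, mul_one]
    have := hmn θ 0
    simp only [ofReal_zero, add_zero, mul_zero, Real.exp_zero, mul_one] at this
    rw [this]
  have hlk : lam.re * k ≤ n / 8 := by
    have h1 := Complex.re_le_norm lam
    have h2 := norm_nonneg lam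
    have h3 : 8 * k * ‖lam‖ ≤ r * ‖lam‖ := mul_le_mul_of_nonneg_right hrk h2
    have h4 : lam.re * k ≤ ‖lam‖ * k := mul_le_mul_of_nonneg_right h1 (by linarith)
    rw [hr] at h3
    linarith
  -- pointwise bound
  have hpt : ∀ θ ∈ Icc (-(Real.pi / 2)) (Real.pi / 2), ‖f1 θ - f2 θ‖ ≤
      ‖X‖ * E0 * (1 / 50 * Real.exp ((lam * (r * cexp (θ * I))).re) +
        (2 * C * Real.exp (n / 8) + 1) * Real.exp (n / 2)) := by
    intro θ hθ
    have hcos : 0 ≤ Real.cos θ := Real.cos_nonneg_of_mem_Icc hθ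
    have hure : (v + r * cexp (θ * I)).re = v.re + r * Real.cos θ := by
      rw [add_re, Complex.re_ofReal_mul, Complex.exp_ofReal_mul_I_re]
    have hXn := norm_nonneg X
    set e1 : ℝ := Real.exp ((lam * (r * cexp (θ * I))).re) with he1
    have he1p : 0 < e1 := Real.exp_pos _
    have hc := hkc θ
    set c : ℂ := ker n v (r * cexp (θ * I)) - 1 with hcd
    rcases le_or_gt (1 / 4) (Real.cos θ) with h1 | h1
    · obtain ⟨ε, hε, he⟩ := hseg θ 0 le_rfl (by linarith) (by nlinarith)
      simp only [ofReal_zero, add_zero] at he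
      have h2 := hexp ε hε
      have hre4 : r / 4 - 2 * b ≤ (v + r * cexp (θ * I)).re := by
        rw [hure]
        nlinarith
      have h3 := h.close (v + r * cexp (θ * I)) (by linarith)
      have h4 : C * (1 / 2 : ℝ) ^ (v + r * cexp (θ * I)).re ≤ 1 / 100 := by
        refine le_trans ?_ hclose
        apply mul_le_mul_of_nonneg_left _ (by linarith)
        exact Real.rpow_le_rpow_of_exponent_ge (by norm_num) (by norm_num) hre4
      set g : ℂ := γ (v + r * cexp (θ * I)) with hg
      set d : ℂ := G (v + r * cexp (θ * I)) - g with hd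
      have h5 : ‖d‖ ≤ 1 / 100 * ‖g‖ := h3.trans (mul_le_mul_of_nonneg_right h4 (norm_nonneg _))
      set M : ℂ := cexp (lam * (r * cexp (θ * I) - r)) with hM
      have hMn : ‖X * M‖ = ‖X‖ * (E0 * e1) := by
        have := hmn θ 0
        simp only [ofReal_zero, add_zero, mul_zero, Real.exp_zero, mul_one] at this
        rw [norm_mul, hM, this]
      have hgn : ‖g‖ ≤ ‖X * M‖ * (1002 / 1000) := by
        rw [he, norm_mul]
        apply mul_le_mul_of_nonneg_left _ (norm_nonneg _)
        have e2 : cexp ε = (cexp ε - 1) + 1 := by ring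
        rw [e2]
        refine (norm_add_le _ _).trans ?_
        rw [norm_one]
        linarith
      have e3 : f1 θ - f2 θ = (X * M * (cexp ε - 1) + g * c + d * (1 + c)) * cexp (-(n * θ * I)) := by
        have hGg : G (v + r * cexp (θ * I)) = g + d := by rw [hd]; ring
        have hkk : ker n v (r * cexp (θ * I)) = 1 + c := by rw [hcd]; ring
        simp only [hf1, hf2]
        rw [hGg, hkk, ← hM]
        have : X * M * cexp ε = g := by rw [he]
        linear_combination (-cexp (-(n * θ * I))) * this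
      rw [e3, norm_mul, norm_exp_negN, mul_one]
      have h6 : ‖X * M * (cexp ε - 1) + g * c + d * (1 + c)‖ ≤ 1 / 50 * ‖X * M‖ := by
        have a1 : ‖X * M * (cexp ε - 1)‖ ≤ ‖X * M‖ * (2 / 1000) := by
          rw [norm_mul]
          exact mul_le_mul_of_nonneg_left h2 (norm_nonneg _)
        have a2 : ‖g * c‖ ≤ ‖X * M‖ * (1002 / 1000) * (1 / 1000) := by
          rw [norm_mul]
          exact mul_le_mul hgn hc (norm_nonneg _) (by positivity)
        have a3 : ‖1 + c‖ ≤ 1001 / 1000 := by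
          refine (norm_add_le _ _).trans ?_
          rw [norm_one]
          linarith
        have a4 : ‖d * (1 + c)‖ ≤ 1 / 100 * (‖X * M‖ * (1002 / 1000)) * (1001 / 1000) := by
          rw [norm_mul]
          refine mul_le_mul (h5.trans ?_) a3 (norm_nonneg _) (by positivity)
          exact mul_le_mul_of_nonneg_left hgn (by norm_num)
        have := norm_add_le (X * M * (cexp ε - 1) + g * c) (d * (1 + c))
        have := norm_add_le (X * M * (cexp ε - 1)) (g * c)
        have := norm_nonneg (X * M)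
        linarith
      refine h6.trans ?_
      rw [hMn]
      have h7 : 0 ≤ ‖X‖ * E0 * ((2 * C * Real.exp (n / 8) + 1) * Real.exp (n / 2)) := by positivity
      linarith
    · obtain ⟨ε, hε, he⟩ := hseg θ k (by linarith) le_rfl (by nlinarith)
      have h2 := hexp ε hε
      have h3 := h.strip (v + r * cexp (θ * I)) (by rw [hure]; nlinarith)
      have h4 : e1 ≤ Real.exp (n / 2) := Real.exp_le_exp.mpr (re_lam_le hr0 hr hlp him h1.le)
      have h5 : ‖γ (v + r * cexp (θ * I) + k)‖ ≤ ‖X‖ * (E0 * Real.exp (n / 2) * Real.exp (n / 8)) *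
          (1002 / 1000) := by
        rw [he, norm_mul, norm_mul, hmn]
        have e2 : cexp ε = (cexp ε - 1) + 1 := by ring
        have a1 : ‖cexp ε‖ ≤ 1002 / 1000 := by
          rw [e2]
          refine (norm_add_le _ _).trans ?_
          rw [norm_one]
          linarith
        have a2 : Real.exp (lam.re * k) ≤ Real.exp (n / 8) := Real.exp_le_exp.mpr hlk
        gcongr
      have h6 : ‖f1 θ‖ ≤ ‖X‖ * E0 * (2 * C * Real.exp (n / 8) * Real.exp (n / 2)) := by
        simp only [hf1]
        rw [norm_mul, norm_mul, norm_exp_negN, mul_one]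
        have a3 : ‖ker n v (r * cexp (θ * I))‖ ≤ 1001 / 1000 := by
          have : ker n v (r * cexp (θ * I)) = c + 1 := by rw [hcd]; ring
          rw [this]
          refine (norm_add_le _ _).trans ?_
          rw [norm_one]
          linarith
        have a4 : ‖G (v + r * cexp (θ * I))‖ ≤ C * (‖X‖ * (E0 * Real.exp (n / 2) * Real.exp (n / 8)) *
          (1002 / 1000)) := h3.trans (mul_le_mul_of_nonneg_left h5 (by linarith))
        calc ‖G (v + r * cexp (θ * I))‖ * ‖ker n v (r * cexp (θ * I))‖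
            ≤ C * (‖X‖ * (E0 * Real.exp (n / 2) * Real.exp (n / 8)) * (1002 / 1000)) * (1001 / 1000) :=
              mul_le_mul a4 a3 (norm_nonneg _) (by positivity)
          _ ≤ ‖X‖ * E0 * (2 * C * Real.exp (n / 8) * Real.exp (n / 2)) := by
              have : 0 ≤ C * (‖X‖ * (E0 * Real.exp (n / 2) * Real.exp (n / 8))) := by positivity
              nlinarith
      have h7 : ‖f2 θ‖ ≤ ‖X‖ * E0 * Real.exp (n / 2) := by
        rw [hm2, mul_assoc]
        gcongr
      refine (norm_sub_le _ _).trans ?_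
      have h8 : 0 ≤ ‖X‖ * E0 * (1 / 50 * e1) := by positivity
      nlinarith
  have hII : ∀ (f : ℝ → ℂ), Continuous f → ∀ a b : ℝ, IntervalIntegrable f volume a b :=
    fun f hf a b => hf.intervalIntegrable _ _
  have hsplit : IK G n r v - X * KK n r lam = (∫ θ in (-(Real.pi / 2))..(Real.pi / 2), (f1 θ - f2 θ)) -
      ∫ θ in (Real.pi / 2)..(3 * Real.pi / 2), f2 θ := by
    rw [intervalIntegral.integral_sub (hII _ hf1c _ _) (hII _ hf2c _ _), model_int hr0,
      ← intervalIntegral.integral_const_mul]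
    have h1 := intervalIntegral.integral_add_adjacent_intervals (hII _ hf2c (-(Real.pi / 2)) (Real.pi / 2))
      (hII _ hf2c (Real.pi / 2) (3 * Real.pi / 2))
    have h2 : (∫ θ in (-(Real.pi / 2))..(3 * Real.pi / 2),
      X * (cexp (lam * (r * cexp (θ * I) - r)) * cexp (-(n * θ * I)))) =
      ∫ θ in (-(Real.pi / 2))..(3 * Real.pi / 2), f2 θ := rfl
    rw [h2, ← h1]
    have h3 : IK G n r v = ∫ θ in (-(Real.pi / 2))..(Real.pi / 2), f1 θ := rfl
    rw [h3]
    ring
  have hA : ‖∫ θ in (-(Real.pi / 2))..(Real.pi / 2), (f1 θ - f2 θ)‖ ≤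
      ‖X‖ * E0 * (1 / 50 * (4 * Real.exp n / Real.sqrt n) +
        Real.pi * ((2 * C * Real.exp (n / 8) + 1) * Real.exp (n / 2))) := by
    have h1 : ‖∫ θ in (-(Real.pi / 2))..(Real.pi / 2), (f1 θ - f2 θ)‖ ≤
        ∫ θ in (-(Real.pi / 2))..(Real.pi / 2),
          ‖X‖ * E0 * (1 / 50 * Real.exp ((lam * (r * cexp (θ * I))).re) +
          (2 * C * Real.exp (n / 8) + 1) * Real.exp (n / 2)) := by
      apply intervalIntegral.norm_integral_le_of_norm_le (by linarith)
      · exact Eventually.of_forall fun θ hθ => hpt θ ⟨hθ.1.le, hθ.2⟩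
      · apply Continuous.intervalIntegrable
        have : Continuous fun θ : ℝ => (lam * (r * cexp (θ * I))).re :=
          Complex.continuous_re.comp (by fun_prop)
        fun_prop
    refine h1.trans ?_
    rw [intervalIntegral.integral_const_mul]
    apply mul_le_mul_of_nonneg_left _ (by positivity)
    have hcre : Continuous fun θ : ℝ => (lam * (r * cexp (θ * I))).re :=
      Complex.continuous_re.comp (by fun_prop)
    rw [intervalIntegral.integral_add, intervalIntegral.integral_const_mul, intervalIntegral.integral_const]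
    · have h2 := gauss_shift hn hr
      have e : Real.pi / 2 - -(Real.pi / 2) = Real.pi := by ring
      rw [e, smul_eq_mul]
      gcongr
    · apply Continuous.intervalIntegrable
      fun_prop
    · simp
  have hB : ‖∫ θ in (Real.pi / 2)..(3 * Real.pi / 2), f2 θ‖ ≤ ‖X‖ * E0 * (Real.pi * Real.exp (n / 2)) := by
    have h1 := intervalIntegral.norm_integral_le_of_norm_le_const (a := Real.pi / 2) (b := 3 * Real.pi / 2)
      (f := f2) (C := ‖X‖ * (E0 * Real.exp (n / 2))) (fun θ hθ => ?_)
    · have e : |3 * Real.pi / 2 - Real.pi / 2| = Real.pi := by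
        rw [show 3 * Real.pi / 2 - Real.pi / 2 = Real.pi by ring, abs_of_pos hpi]
      rw [e] at h1
      refine h1.trans (le_of_eq ?_)
      ring
    · rw [uIoc_of_le (by linarith)] at hθ
      have hcos : Real.cos θ ≤ 0 := Real.cos_nonpos_of_pi_div_two_le_of_le hθ.1.le (by linarith [hθ.2])
      rw [hm2]
      have := Real.exp_le_exp.mpr (re_lam_le hr0 hr hlp him (θ := θ) (by linarith))
      gcongr
  have hKn := KK_norm (n := n) hr0 hr
  have hml := model_low hn
  rw [hsplit]
  refine (norm_sub_le _ _).trans ?_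
  refine (add_le_add hA hB).trans ?_
  rw [hKn, ← hE0]
  have hlast : 1 / 50 * (4 * Real.exp n / Real.sqrt n) +
        Real.pi * ((2 * C * Real.exp (n / 8) + 1) * Real.exp (n / 2)) + Real.pi * Real.exp (n / 2) ≤
        (2 * Real.pi * (n : ℝ) ^ n / n.factorial) / 2 := by
    have e1 : Real.pi * ((2 * C * Real.exp (n / 8) + 1) * Real.exp (n / 2)) + Real.pi * Real.exp (n / 2) =
        Real.pi * (2 * C * Real.exp (n / 8) + 2) * Real.exp (n / 2) := by ring
    have e2 : 1 / 50 * (4 * Real.exp n / Real.sqrt n) = 4 / 50 * (Real.exp n / Real.sqrt n) := by ring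
    have e3 : 2 * Real.exp n / Real.sqrt n = 2 * (Real.exp n / Real.sqrt n) := by ring
    rw [e3] at hml
    have h9 : 0 < Real.exp n / Real.sqrt n := by
      have : (0:ℝ) < n := by exact_mod_cast hn
      positivity
    rw [add_assoc, e1, e2]
    linarith
  calc ‖X‖ * E0 * (1 / 50 * (4 * Real.exp n / Real.sqrt n) +
        Real.pi * ((2 * C * Real.exp (n / 8) + 1) * Real.exp (n / 2))) +
        ‖X‖ * E0 * (Real.pi * Real.exp (n / 2)) = ‖X‖ * E0 * (1 / 50 * (4 * Real.exp n / Real.sqrt n) +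
        Real.pi * ((2 * C * Real.exp (n / 8) + 1) * Real.exp (n / 2)) + Real.pi * Real.exp (n / 2)) := by ring
    _ ≤ ‖X‖ * E0 * ((2 * Real.pi * (n : ℝ) ^ n / n.factorial) / 2) :=
        mul_le_mul_of_nonneg_left hlast (by positivity)
    _ = ‖X‖ * (E0 * (2 * Real.pi * (n : ℝ) ^ n / n.factorial)) / 2 := by ring

end H73.JP
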