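import Pool.Agent.Helper73.JP.E

set_option autoImplicit false

open Complex Set MeasureTheory intervalIntegral Filter Topology Metric
open scoped ComplexConjugate

namespace H73.JP

variable {b k C κ : ℝ} {G γ D : ℂ → ℂ}

/-- the parameters are admissible -/
structure Adm (b k C : ℝ) (D : ℂ → ℂ) (n : ℕ) (y r : ℝ) (lam : ℂ) : Prop where
  hn : 1 ≤ n
  hlam : lam = D (1 + y * I)
  hl1 : 1 ≤ lam.re
  hlb : 2 / b < lam.re
  him : |lam.im| ≤ ‖lam‖ / 5
  hr0 : 0 < r
  hr : r * ‖lam‖ = n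
  hrk : 8 * k ≤ r
  hrb : 4 ≤ r / 4 - 2 * b
  hclose : C * (1 / 2 : ℝ) ^ (r / 4 - 2 * b) ≤ 1 / 100
  hy : 2 * (2 * b + r) ≤ y
  hδ : C / (y / 2) * (2 * b + 1 + r + k) * (2 * r + k) ≤ 1 / 1000
  hker : (n + 1) * (r / (y - 2 * b)) ≤ 1 / 4000
  hbig : Real.pi * (2 * C * Real.exp (n / 8) + 2) * Real.exp (n / 2) ≤ 9 / 10 * (Real.exp n / Real.sqrt n)

lemma IK_lt (h : JD b k C κ G γ D) {n : ℕ} {y r : ℝ} {lam : ℂ} (P : Adm b k C D n y r lam)
    {x : ℝ} (hx : 0 < x) (hxb : x ≤ b) :
    ‖IK G n r (-x + y * I)‖ < ‖IK G n r (x + y * I)‖ := by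
  obtain ⟨hn, hlam, hl1, hlb, him, hr0, hr, hrk, hrb, hclose, hy, hδ, hker, hbig⟩ := P
  have hb := h.hb
  have hC := h.hC
  have hk := h.hk
  have hlp : 0 < lam.re := by linarith
  have hy0 : 0 < y := by linarith
  set K := KK n r lam with hK
  have hKn : ‖K‖ = Real.exp (-(lam.re * r)) * (2 * Real.pi * (n : ℝ) ^ n / n.factorial) := KK_norm hr0 hr
  have hKpos : 0 < ‖K‖ := by
    rw [hKn]
    have : (0:ℝ) < n := by exact_mod_cast hn
    positivity
  have hK0 : K ≠ 0 := norm_pos_iff.mp hKpos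
  set c : ℂ := y * I with hc
  have hre : ∀ v ∈ closedBall c (2 * b), 1 ≤ (v + r).re := fun v hv => by
    rw [mem_closedBall, dist_eq_norm] at hv
    have h1 := (abs_le.mp ((Complex.abs_re_le_norm _).trans hv)).1
    simp [hc] at h1
    rw [add_re, ofReal_re]
    linarith
  have hnorm : ∀ v ∈ closedBall c (2 * b), r < 2 * ‖v‖ := fun v hv => by
    rw [mem_closedBall, dist_eq_norm] at hv
    have h1 := (abs_le.mp ((Complex.abs_im_le_norm _).trans hv)).1
    simp [hc] at h1
    have h2 := (le_abs_self _).trans (Complex.abs_im_le_norm v)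
    linarith
  set hf : ℂ → ℂ := fun v => IK G n r v / (γ (v + r) * K) with hhf
  have hmain : ∀ v ∈ closedBall c (2 * b), ‖hf v - 1‖ ≤ 1 / 2 := fun v hv => by
    have hγ : γ (v + r) ≠ 0 := h.ne _ (hre v hv)
    have hγK : 0 < ‖γ (v + r) * K‖ := norm_pos_iff.mpr (mul_ne_zero hγ hK0)
    have h1 := main_est h hn hlam hlp him hr0 hr hrk hrb hclose hy hδ hker hbig (v := v)
      (by rwa [mem_closedBall, dist_eq_norm] at hv)
    have e : hf v - 1 = (IK G n r v - γ (v + r) * K) / (γ (v + r) * K) := by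
      simp only [hhf]
      field_simp
    rw [e, norm_div, div_le_iff₀ hγK, norm_mul]
    linarith
  have hdiff : ∀ v ∈ closedBall c (2 * b), DifferentiableAt ℂ hf v := fun v hv => by
    have hγ : γ (v + r) ≠ 0 := h.ne _ (hre v hv)
    have h1 : DifferentiableAt ℂ (fun v => γ (v + r)) v :=
      DifferentiableAt.comp (g := γ) (f := fun z : ℂ => z + r) v
        (h.der _ (hre v hv)).differentiableAt (by fun_prop)
    exact (IK_diff h.diff hr0 n (hnorm v hv)).div (h1.mul_const K) (mul_ne_zero hγ hK0)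
  have hder : ∀ v ∈ closedBall c b, ‖deriv hf v‖ ≤ 1 / 2 / b := fun v hv => by
    have hsub : closedBall v b ⊆ closedBall c (2 * b) := fun z hz => by
      rw [mem_closedBall] at hz hv ⊢
      have := dist_triangle z v c
      linarith
    have e : deriv hf v = deriv (fun v => hf v - 1) v := by
      rw [deriv_sub_const]
    rw [e]
    apply Complex.norm_deriv_le_of_forall_mem_sphere_norm_le hb
    · apply DifferentiableOn.diffContOnCl
      intro z hz
      rw [closure_ball v hb.ne'] at hz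
      exact ((hdiff z (hsub hz)).sub_const 1).differentiableWithinAt
    · intro z hz
      exact hmain z (hsub (sphere_subset_closedBall hz))
  have hxm : ((-x : ℝ) : ℂ) + c ∈ closedBall c b := by
    rw [mem_closedBall, dist_eq_norm, add_sub_cancel_right, Complex.norm_real, Real.norm_eq_abs, abs_neg,
      abs_of_pos hx]
    exact hxb
  have hxp : (x : ℂ) + c ∈ closedBall c b := by
    rw [mem_closedBall, dist_eq_norm, add_sub_cancel_right, Complex.norm_real, Real.norm_eq_abs,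
      abs_of_pos hx]
    exact hxb
  have hsubb : closedBall c b ⊆ closedBall c (2 * b) := closedBall_subset_closedBall (by linarith)
  have hmv := (convex_closedBall c b).norm_image_sub_le_of_norm_deriv_le (𝕜 := ℂ) (f := hf)
    (fun v hv => hdiff v (hsubb hv)) (fun v hv => hder v hv) hxp hxm
  have e1 : ‖((-x : ℝ) : ℂ) + c - ((x : ℂ) + c)‖ = 2 * x := by
    have : ((-x : ℝ) : ℂ) + c - ((x : ℂ) + c) = ((-(2 * x) : ℝ) : ℂ) := by
      push_cast
      ring
    rw [this, Complex.norm_real, Real.norm_eq_abs, abs_neg, abs_of_pos (by positivity)]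
  rw [e1] at hmv
  have hhx : 1 / 2 ≤ ‖hf ((x : ℂ) + c)‖ := by
    have h1 := hmain _ (hsubb hxp)
    have h2 := norm_sub_norm_le 1 (1 - hf ((x : ℂ) + c))
    rw [norm_one, sub_sub_cancel, norm_sub_rev] at h2
    linarith
  have hm : ‖hf (((-x : ℝ) : ℂ) + c)‖ ≤ ‖hf ((x : ℂ) + c)‖ * Real.exp (2 / b * x) := by
    have h1 := norm_le_norm_add_norm_sub' (hf (((-x : ℝ) : ℂ) + c)) (hf ((x : ℂ) + c))
    have h2 := Real.add_one_le_exp (2 / b * x)
    have h3 : 1 / 2 / b * (2 * x) = 1 / 2 * (2 / b * x) := by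
      field_simp
    rw [h3] at hmv
    have h4 : 0 < 2 / b * x := by positivity
    nlinarith
  -- growth of gamma
  have hgam : Real.exp (lam.re / 2 * (2 * x)) * ‖γ (((-x : ℝ) : ℂ) + c + r)‖ ≤ ‖γ ((x : ℂ) + c + r)‖ := by
    have h1 := right_grow h (s := ((-x : ℝ) : ℂ) + c + r) (a := 2 * x) (m := lam.re / 2)
      (hre _ (hsubb hxm)) (by positivity) (fun t ht => ?_)
    · have e : ((-x : ℝ) : ℂ) + c + r + ((2 * x : ℝ) : ℂ) = (x : ℂ) + c + r := by
        push_cast
        ring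
      rw [e] at h1
      exact h1
    · set p : ℂ := ((-x : ℝ) : ℂ) + c + r + t * ((2 * x : ℝ) : ℂ) with hp
      have hpre : p.re = -x + r + t * (2 * x) := by
        simp [hp, hc]
      have hpim : p.im = y := by
        simp [hp, hc]
      have hp1 : 1 ≤ p.re := by
        rw [hpre]
        nlinarith [ht.1, ht.2]
      have h3 := h.lipY (Y := y / 2) (by linarith) hp1 (by rw [hpim]; linarith) (w' := 1 + y * I) (by simp)
        (by simp; linarith)
      rw [← hlam] at h3
      have h4 : ‖p - (1 + y * I)‖ ≤ 2 * b + 1 + r + k := by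
        have e : p - (1 + y * I) = ((-x + r + t * (2 * x) - 1 : ℝ) : ℂ) := by
          rw [hp, hc]
          push_cast
          ring
        rw [e, Complex.norm_real, Real.norm_eq_abs, abs_le]
        constructor
        · nlinarith [ht.1, ht.2]
        · nlinarith [ht.1, ht.2]
      have h5 : ‖D p - lam‖ ≤ 1 / 1000 := by
        have hδ0 : 0 ≤ C / (y / 2) := by positivity
        have h6 : ‖D p - lam‖ ≤ C / (y / 2) * (2 * b + 1 + r + k) :=
          h3.trans (mul_le_mul_of_nonneg_left h4 hδ0)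
        have h7 : C / (y / 2) * (2 * b + 1 + r + k) ≤ C / (y / 2) * (2 * b + 1 + r + k) * (2 * r + k) := by
          have hk0 : 0 < k := by linarith
          have : 0 ≤ C / (y / 2) * (2 * b + 1 + r + k) := by positivity
          nlinarith
        linarith
      have h8 := (abs_le.mp ((Complex.abs_re_le_norm _).trans h5)).1
      rw [sub_re] at h8
      linarith
  have hval : ∀ v ∈ closedBall c (2 * b), ‖IK G n r v‖ = ‖hf v‖ * (‖γ (v + r)‖ * ‖K‖) := fun v hv => by
    have hγ : γ (v + r) ≠ 0 := h.ne _ (hre v hv)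
    rw [← norm_mul, ← norm_mul]
    congr 1
    simp only [hhf]
    field_simp
  have e2 : (-x : ℂ) + y * I = ((-x : ℝ) : ℂ) + c := by push_cast; rfl
  rw [e2]
  have e3 : (x : ℂ) + y * I = (x : ℂ) + c := rfl
  rw [e3, hval _ (hsubb hxm), hval _ (hsubb hxp)]
  have hγp : 0 < ‖γ ((x : ℂ) + c + r)‖ := norm_pos_iff.mpr (h.ne _ (hre _ (hsubb hxp)))
  have hγm : 0 < ‖γ (((-x : ℝ) : ℂ) + c + r)‖ := norm_pos_iff.mpr (h.ne _ (hre _ (hsubb hxm)))
  have h10 : Real.exp (2 / b * x) < Real.exp (lam.re / 2 * (2 * x)) := by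
    apply Real.exp_lt_exp.mpr
    have : lam.re / 2 * (2 * x) = lam.re * x := by ring
    rw [this]
    exact mul_lt_mul_of_pos_right hlb hx
  calc ‖hf (((-x : ℝ) : ℂ) + c)‖ * (‖γ (((-x : ℝ) : ℂ) + c + r)‖ * ‖K‖)
      ≤ (‖hf ((x : ℂ) + c)‖ * Real.exp (2 / b * x)) * (‖γ (((-x : ℝ) : ℂ) + c + r)‖ * ‖K‖) := by gcongr
    _ < (‖hf ((x : ℂ) + c)‖ * Real.exp (lam.re / 2 * (2 * x))) *
        (‖γ (((-x : ℝ) : ℂ) + c + r)‖ * ‖K‖) := by
        have : 0 < ‖hf ((x : ℂ) + c)‖ := by linarith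
        have : 0 < ‖γ (((-x : ℝ) : ℂ) + c + r)‖ * ‖K‖ := by positivity
        gcongr
    _ = ‖hf ((x : ℂ) + c)‖ * (Real.exp (lam.re / 2 * (2 * x)) * ‖γ (((-x : ℝ) : ℂ) + c + r)‖ * ‖K‖) := by
        ring
    _ ≤ ‖hf ((x : ℂ) + c)‖ * (‖γ ((x : ℂ) + c + r)‖ * ‖K‖) := by gcongr

lemma zero_line (h : JD b k C κ G γ D) {F : ℂ → ℂ} (hF : Differentiable ℂ F) (hFG : ∀ w, F (w ^ 2) = G w)
    {n : ℕ} {y r : ℝ} {lam : ℂ} (P : Adm b k C D n y r lam) {v : ℂ} (hvy : v.im = y) (hvb : |v.re| ≤ b)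
    (h0 : iteratedDeriv n F (v ^ 2) = 0) : v.re = 0 := by
  have hrv : r < 2 * ‖v‖ := by
    have h2 := (le_abs_self _).trans (Complex.abs_im_le_norm v)
    have := P.hy
    have := P.hr0
    have := h.hb
    rw [hvy] at h2
    linarith
  have h1 := half_form hF hFG h.diff.continuous h.fe P.hr0 n hrv
  rw [h0, zero_mul] at h1
  have hne : (((n.factorial / (2 * Real.pi * r ^ n) : ℝ)) : ℂ) ≠ 0 := by
    have := P.hr0
    have := n.factorial_pos
    have : (0:ℝ) < n.factorial / (2 * Real.pi * r ^ n) := by positivity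
    exact_mod_cast this.ne'
  have h2 : IK G n r v + (-1) ^ n * conj (IK G n r (-conj v)) = 0 := by
    rcases mul_eq_zero.mp h1.symm with h | h
    · exact absurd h hne
    · exact h
  have h3 : ‖IK G n r v‖ = ‖IK G n r (-conj v)‖ := by
    have e : IK G n r v = -((-1) ^ n * conj (IK G n r (-conj v))) := by linear_combination h2
    rw [e, norm_neg, norm_mul, norm_pow, norm_neg, norm_one, one_pow, one_mul, Complex.norm_conj]
  have e1 : v = (v.re : ℂ) + y * I := by rw [← hvy]; exact (Complex.re_add_im v).symm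
  have e2 : -conj v = ((-v.re : ℝ) : ℂ) + y * I := by
    apply Complex.ext
    · simp
    · simp [hvy]
  by_contra hx
  rcases lt_or_gt_of_ne hx with hneg | hpos
  · have h4 := IK_lt h P (x := -v.re) (by linarith) (by rw [abs_of_neg hneg] at hvb; exact hvb)
    have e3 : -((-v.re : ℝ) : ℂ) + y * I = v := by
      rw [e1]
      simp
    have e4 : ((-v.re : ℝ) : ℂ) + y * I = -conj v := e2.symm
    rw [e3, e4] at h4
    linarith
  · have h4 := IK_lt h P (x := v.re) hpos (by rw [abs_of_pos hpos] at hvb; exact hvb)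
    have e3 : -((v.re : ℝ) : ℂ) + y * I = -conj v := by rw [e2]; push_cast; rfl
    rw [e3, ← e1] at h4
    linarith

end H73.JP
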