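import Pool.Agent.Helper73.JP.F

set_option autoImplicit false

open Complex Set MeasureTheory intervalIntegral Filter Topology Metric
open scoped ComplexConjugate

namespace H73.JP

variable {b k C κ : ℝ} {G γ D : ℂ → ℂ}

lemma big_ok {C x : ℝ} (hC : 1 ≤ C) (hCx : C ≤ x) (hx : 4000 ≤ x) :
    Real.pi * (2 * C * Real.exp (x / 8) + 2) * Real.exp (x / 2) ≤ 9 / 10 * (Real.exp x / Real.sqrt x) := by
  have hx0 : 0 < x := by linarith
  have hs : 0 < Real.sqrt x := Real.sqrt_pos.mpr hx0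
  have hpi := Real.pi_lt_four
  have hpi0 := Real.pi_pos
  have h1 : Real.exp x = Real.exp (3 / 8 * x) * Real.exp (x / 8) * Real.exp (x / 2) := by
    rw [← Real.exp_add, ← Real.exp_add]
    congr 1
    ring
  have he1 : 1 ≤ Real.exp (x / 8) := Real.one_le_exp (by positivity)
  have hsx : Real.sqrt x ≤ x / 60 := by
    rw [Real.sqrt_le_left (by positivity)]
    nlinarith
  have h2 : (3 / 8 * x) ^ 3 / 6 ≤ Real.exp (3 / 8 * x) := by
    have := Real.pow_div_factorial_le_exp (3 / 8 * x) (by positivity) 3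
    norm_num [Nat.factorial] at this
    linarith
  have h3 : 16 * x * Real.sqrt x ≤ 9 / 10 * Real.exp (3 / 8 * x) := by
    have h4 : 16 * x * Real.sqrt x ≤ 16 * x * (x / 60) := by gcongr
    have h5 : 16 * x * (x / 60) ≤ 9 / 10 * ((3 / 8 * x) ^ 3 / 6) := by
      have : 0 ≤ x ^ 2 * (x - 4000) := by
        have : 0 ≤ x - 4000 := by linarith
        positivity
      nlinarith [sq_nonneg x]
    linarith
  have h6 : Real.pi * (2 * C * Real.exp (x / 8) + 2) ≤ 16 * x * Real.exp (x / 8) := by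
    have h7 : 2 * C * Real.exp (x / 8) + 2 ≤ 4 * x * Real.exp (x / 8) := by
      have : 2 * C * Real.exp (x / 8) ≤ 2 * x * Real.exp (x / 8) := by gcongr
      have : 2 ≤ 2 * x * Real.exp (x / 8) := by nlinarith
      linarith
    have h8 : 0 ≤ 4 * x * Real.exp (x / 8) := by positivity
    nlinarith
  rw [mul_div_assoc', le_div_iff₀ hs, h1]
  calc Real.pi * (2 * C * Real.exp (x / 8) + 2) * Real.exp (x / 2) * Real.sqrt x
      ≤ (16 * x * Real.exp (x / 8)) * Real.exp (x / 2) * Real.sqrt x := by gcongr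
    _ = (16 * x * Real.sqrt x) * Real.exp (x / 8) * Real.exp (x / 2) := by ring
    _ ≤ (9 / 10 * Real.exp (3 / 8 * x)) * Real.exp (x / 8) * Real.exp (x / 2) := by gcongr
    _ = 9 / 10 * (Real.exp (3 / 8 * x) * Real.exp (x / 8) * Real.exp (x / 2)) := by ring

/-- the local theorem: the zeros of the `n`-th derivative in the range `n ^ 6 ≤ Im w ≤ exp (c n)` -/
theorem local_thm (h : JD b k C κ G γ D) {F : ℂ → ℂ} (hF : Differentiable ℂ F)
    (hFG : ∀ w, F (w ^ 2) = G w) : ∃ A : ℝ, 0 < A ∧ ∃ N : ℕ, ∀ n : ℕ, N ≤ n → ∀ v : ℂ, |v.re| ≤ b →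
    (n : ℝ) ^ 6 ≤ v.im → A * (1 + Real.log v.im) ≤ n → iteratedDeriv n F (v ^ 2) = 0 → v.re = 0 := by
  have hb := h.hb
  have hC := h.hC
  have hk := h.hk
  have hκ := h.hκ
  have hk0 : 0 < k := by linarith
  -- closeness threshold
  obtain ⟨S, hS⟩ : ∃ S : ℝ, ∀ x, S ≤ x → C * (1 / 2 : ℝ) ^ x ≤ 1 / 100 := by
    have h1 : Tendsto (fun x : ℝ => C * (1 / 2 : ℝ) ^ x) atTop (𝓝 (C * 0)) :=
      (tendsto_rpow_atTop_of_base_lt_one (1 / 2) (by norm_num) (by norm_num)).const_mul C
    rw [mul_zero] at h1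
    have h2 := h1.eventually (Iic_mem_nhds (show (0:ℝ) < 1 / 100 by norm_num))
    obtain ⟨S, hS⟩ := eventually_atTop.mp h2
    exact ⟨S, hS⟩
  set R0 : ℝ := 8 * k + 4 * (4 + 2 * b + |S|) with hR0
  have hR0p : 0 < R0 := by positivity
  set L0 : ℝ := 5 * C + 2 / b + 1 with hL0
  have hL0p : 1 < L0 := by
    have : 0 < 2 / b := by positivity
    linarith
  set N0 : ℝ := 4000 + C + 2 * b + 1 + k + Real.exp ((L0 + C) / κ) with hN0
  obtain ⟨N, hN⟩ := exists_nat_ge N0
  refine ⟨2 * C * R0, by positivity, N, fun n hnN v hvb hvy hvA h0 => ?_⟩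
  have hnN' : N0 ≤ n := hN.trans (by exact_mod_cast hnN)
  set y := v.im with hy
  have hexp0 := Real.exp_pos ((L0 + C) / κ)
  have hn4 : (4000:ℝ) ≤ n := by linarith
  have hnC : C ≤ n := by linarith
  have hnb : 2 * b + 1 + k ≤ n := by linarith
  have hn1 : (1:ℝ) ≤ n := by linarith
  have hn6 : (n : ℝ) ≤ (n : ℝ) ^ 6 := by
    calc (n : ℝ) = (n : ℝ) ^ 1 := (pow_one _).symm
      _ ≤ (n : ℝ) ^ 6 := pow_le_pow_right₀ hn1 (by norm_num)
  have hy1 : (n : ℝ) ≤ y := hn6.trans hvy
  have hy0 : 0 < y := by linarith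
  set lam : ℂ := D (1 + y * I) with hlam
  have hnrm1 : y ≤ ‖(1 : ℂ) + y * I‖ := by
    have := (le_abs_self _).trans (Complex.abs_im_le_norm (1 + y * I))
    simpa using this
  have hnrm2 : ‖(1 : ℂ) + y * I‖ ≤ 2 * y := by
    refine (norm_add_le _ _).trans ?_
    rw [norm_one, norm_mul, Complex.norm_real, Real.norm_eq_abs, abs_of_pos hy0, norm_I]
    linarith
  have hlogy : 0 < Real.log y := Real.log_pos (by linarith)
  have hlow := h.low (1 + y * I) (by simp)
  have hup := h.up (1 + y * I) (by simp)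
  have him0 := h.im (1 + y * I) (by simp)
  rw [← hlam] at hlow hup him0
  have hlre : L0 ≤ lam.re := by
    have h1 : (L0 + C) / κ ≤ Real.log ‖(1 : ℂ) + y * I‖ := by
      rw [Real.le_log_iff_exp_le (by linarith)]
      linarith
    rw [div_le_iff₀ hκ] at h1
    linarith
  have hlnorm : L0 ≤ ‖lam‖ := hlre.trans (Complex.re_le_norm lam)
  have hln0 : 0 < ‖lam‖ := by linarith
  have hlup : ‖lam‖ ≤ 2 * C * (1 + Real.log y) := by
    have h1 : Real.log ‖(1 : ℂ) + y * I‖ ≤ Real.log 2 + Real.log y := by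
      rw [← Real.log_mul (by norm_num) hy0.ne']
      exact Real.log_le_log (by linarith) hnrm2
    have h2 : Real.log 2 ≤ 1 := by
      have := Real.log_two_lt_d9
      linarith
    have h3 : C * (1 + Real.log ‖(1 : ℂ) + y * I‖) ≤ C * (2 * (1 + Real.log y)) := by
      apply mul_le_mul_of_nonneg_left _ (by linarith)
      linarith
    linarith
  set r : ℝ := n / ‖lam‖ with hr
  have hr0 : 0 < r := by positivity
  have hrn : r ≤ n := by
    rw [hr, div_le_iff₀ hln0]
    nlinarith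
  have hrR : R0 ≤ r := by
    rw [hr, le_div_iff₀ hln0]
    calc R0 * ‖lam‖ ≤ R0 * (2 * C * (1 + Real.log y)) := by gcongr
      _ = 2 * C * R0 * (1 + Real.log y) := by ring
      _ ≤ n := hvA
  have hS0 := le_abs_self S
  have hS1 := abs_nonneg S
  have hy6 : (n:ℝ) ^ 6 ≤ y := hvy
  have h2b : 2 * b ≤ n := by linarith
  have hn5 : (4000:ℝ) ^ 5 ≤ (n:ℝ) ^ 5 := by gcongr
  have hn6' : 4000 ^ 5 * (n:ℝ) ≤ (n:ℝ) ^ 6 := by
    calc 4000 ^ 5 * (n:ℝ) ≤ (n:ℝ) ^ 5 * n := by gcongr
      _ = (n:ℝ) ^ 6 := by ring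
  have P : Adm b k C D n y r lam := by
    refine ⟨by exact_mod_cast hn1, rfl, by linarith, ?_, ?_, hr0, ?_, by linarith, by linarith, ?_, ?_, ?_, ?_, ?_⟩
    · linarith
    · have : 0 < 2 / b := by positivity
      linarith
    · rw [hr, div_mul_cancel₀ _ hln0.ne']
    · exact hS _ (by linarith)
    · norm_num at hn6'
      linarith
    · have h1 : C / (y / 2) ≤ n / ((n:ℝ) ^ 6 / 2) := by gcongr
      calc C / (y / 2) * (2 * b + 1 + r + k) * (2 * r + k) ≤ n / ((n:ℝ) ^ 6 / 2) * (2 * n) * (3 * n) := by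
            gcongr
            · linarith
            · linarith
        _ = 12 / (n:ℝ) ^ 3 := by
            have : (n:ℝ) ≠ 0 := by linarith
            field_simp
            ring
        _ ≤ 1 / 1000 := by
            rw [div_le_div_iff₀ (by positivity) (by norm_num)]
            have : (4000:ℝ) ^ 3 ≤ (n:ℝ) ^ 3 := by gcongr
            norm_num at this
            linarith
    · have h1 : (n:ℝ) ^ 6 / 2 ≤ y - 2 * b := by
        norm_num at hn6'
        linarith
      have h2 : (0:ℝ) < (n:ℝ) ^ 6 / 2 := by positivity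
      have h3 : r / (y - 2 * b) ≤ n / ((n:ℝ) ^ 6 / 2) := div_le_div₀ (by linarith) hrn h2 h1
      calc ((n:ℝ) + 1) * (r / (y - 2 * b)) ≤ (2 * n) * (n / ((n:ℝ) ^ 6 / 2)) := by
            apply mul_le_mul (by linarith) h3 (by apply div_nonneg hr0.le; linarith) (by positivity)
        _ = 4 / (n:ℝ) ^ 4 := by
            have : (n:ℝ) ≠ 0 := by linarith
            field_simp
            ring
        _ ≤ 1 / 4000 := by
            rw [div_le_div_iff₀ (by positivity) (by norm_num)]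
            have : (4000:ℝ) ^ 4 ≤ (n:ℝ) ^ 4 := by gcongr
            norm_num at this
            linarith
    · exact big_ok hC hnC hn4
  exact zero_line h hF hFG P rfl hvb h0

end H73.JP
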