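import Mathlib
import Pool.Graph.R_seed8.H353R6.E13

set_option autoImplicit false

open Complex Set Filter Topology Metric
open scoped ComplexConjugate

namespace H73.JP

open Pool.Agent.Helper242.KK

lemma real_cancel {F G q : ℂ → ℂ} (hF : ∀ z, F (conj z) = conj (F z)) (hG : Continuous G)
    (hq : ∀ z, q (conj z) = conj (q z)) (hFG : ∀ z, F z = q z * G z) (hfin : {z | q z = 0}.Countable) (z : ℂ) :
    G (conj z) = conj (G z) := by
  have hd : Dense ({z | q z = 0}ᶜ) := hfin.dense_compl ℂ
  have h1 : Continuous fun z => G (conj z) := hG.comp Complex.continuous_conj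
  have h2 : Continuous fun z => conj (G z) := Complex.continuous_conj.comp hG
  have := h1.ext_on hd h2 (fun z hz => ?_)
  · exact congrFun this z
  · have hz' : q z ≠ 0 := hz
    have hz2 : q (conj z) ≠ 0 := by
      rw [hq]
      exact (map_ne_zero _).mpr hz'
    have e := hF z
    rw [hFG, hFG z, map_mul, hq] at e
    rw [hq] at hz2
    exact mul_left_cancel₀ hz2 e

/-- splitting off all zeros in a disc, real functions -/
lemma split_real {ρ M : ℝ} (hρ : 0 < ρ) (N : ℕ) : ∀ F : ℂ → ℂ, Differentiable ℂ F →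
    (∀ z, F (conj z) = conj (F z)) → F 0 ≠ 0 →
    (∀ w ∈ closedBall (0 : ℂ) (2 * ρ), ‖F w‖ ≤ Real.exp M) →
    (∑ᶠ u, (MeromorphicOn.divisor F (closedBall 0 ρ) u : ℝ) * 1) ≤ N →
    ∃ (l1 : List ℝ) (l2 : List ℂ) (G : ℂ → ℂ), Differentiable ℂ G ∧ (∀ z, G (conj z) = conj (G z)) ∧ G 0 = F 0 ∧
      (∀ w ∈ closedBall (0 : ℂ) (2 * ρ), ‖G w‖ ≤ Real.exp M) ∧
      (∀ w, F w = (l1.map fun r : ℝ => 1 - w / (r : ℂ)).prod *
        (l2.map fun u => (1 - w / u) * (1 - w / conj u)).prod * G w) ∧
      (∀ u ∈ closedBall (0 : ℂ) ρ, G u ≠ 0) ∧ (∀ r ∈ l1, F r = 0) ∧ ∀ u ∈ l2, u.im ≠ 0 ∧ F u = 0 := by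
  induction N using Nat.strong_induction_on with
  | _ N ih =>
    intro F hF hreal h0 hb hn
    by_cases hz : ∀ u ∈ closedBall (0 : ℂ) ρ, F u ≠ 0
    · exact ⟨[], [], F, hF, hreal, rfl, hb, fun w => by simp, hz, fun u hu => by simp at hu,
        fun u hu => by simp at hu⟩
    push Not at hz
    obtain ⟨u, hu, hFu⟩ := hz
    have hu0 : u ≠ 0 := by
      rintro rfl
      exact h0 hFu
    obtain ⟨G, hG, hG0, hGb, hFG, hdiv⟩ := lnz_split hF hρ h0 hb hu hFu
    rw [lnz_sum_split ρ u (fun _ => 1) hdiv] at hn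
    have hcnt : ∀ H : ℂ → ℂ, Differentiable ℂ H →
        0 ≤ ∑ᶠ u, (MeromorphicOn.divisor H (closedBall 0 ρ) u : ℝ) * 1 := fun H hH => by
      refine finsum_nonneg (fun u => mul_nonneg ?_ zero_le_one)
      exact_mod_cast lnz_divisor_nonneg hH _ u
    have hN1 : 1 ≤ N := by
      have := hcnt G hG
      have h1 : (1:ℝ) ≤ N := by linarith
      exact_mod_cast h1
    by_cases him : u.im = 0
    · -- real zero
      have hur : u = (u.re : ℂ) := by
        apply Complex.ext <;> simp [him]
      have hGreal : ∀ z, G (conj z) = conj (G z) := by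
        refine real_cancel (q := fun w => 1 - w / u) hreal hG.continuous (fun z => ?_) hFG ?_
        · rw [hur]
          simp only [map_sub, map_one, map_div₀, Complex.conj_ofReal]
        · apply Set.Countable.mono (s₂ := {u}) _ (Set.countable_singleton u)
          intro z hz
          simp only [mem_ofPred_eq] at hz
          rw [mem_singleton_iff]
          field_simp at hz
          linear_combination -hz
      obtain ⟨l1, l2, G', hG', hGr', hG0', hGb', hFG', hnz, hl1, hl2⟩ := ih (N - 1) (by omega) G hG hGreal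
        (by rw [hG0]; exact h0) hGb (by
          push_cast [Nat.cast_sub hN1]
          linarith)
      refine ⟨u.re :: l1, l2, G', hG', hGr', by rw [hG0', hG0], hGb', fun w => ?_, hnz, fun v hv => ?_,
        fun v hv => ?_⟩
      · rw [hFG w, hFG' w, List.map_cons, List.prod_cons, ← hur]
        ring
      · rcases List.mem_cons.mp hv with rfl | hv
        · rw [← hur]
          exact hFu
        · rw [hFG, hl1 v hv, mul_zero]
      · refine ⟨(hl2 v hv).1, ?_⟩
        rw [hFG, (hl2 v hv).2, mul_zero]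
    · -- a pair
      have hcu : conj u ≠ u := fun h => him (Complex.conj_eq_iff_im.mp h)
      have hcu0 : conj u ≠ 0 := (map_ne_zero _).mpr hu0
      have hGc : G (conj u) = 0 := by
        have h1 := hFG (conj u)
        rw [hreal, hFu, map_zero] at h1
        have h2 : 1 - conj u / u ≠ 0 := by
          intro h
          apply hcu
          field_simp at h
          linear_combination -h
        rcases mul_eq_zero.mp h1.symm with h | h
        · exact absurd h h2
        · exact h
      have hucb : conj u ∈ closedBall (0 : ℂ) ρ := by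
        rw [mem_closedBall, dist_zero_right, Complex.norm_conj]
        simpa using hu
      obtain ⟨G2, hG2, hG20, hGb2, hFG2, hdiv2⟩ := lnz_split hG hρ (by rw [hG0]; exact h0) hGb hucb hGc
      rw [lnz_sum_split ρ (conj u) (fun _ => 1) hdiv2] at hn
      have hN2 : 2 ≤ N := by
        have := hcnt G2 hG2
        have h1 : (2:ℝ) ≤ N := by linarith
        exact_mod_cast h1
      have hFG3 : ∀ w, F w = ((1 - w / u) * (1 - w / conj u)) * G2 w := fun w => by
        rw [hFG w, hFG2 w, mul_assoc]
      have hGreal : ∀ z, G2 (conj z) = conj (G2 z) := by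
        refine real_cancel (q := fun w => (1 - w / u) * (1 - w / conj u)) hreal hG2.continuous (fun z => ?_) hFG3 ?_
        · simp only [map_sub, map_one, map_div₀, map_mul, Complex.conj_conj]
          ring
        · apply Set.Countable.mono (s₂ := {u, conj u}) _ (Set.countable_insert.mpr (Set.countable_singleton _))
          intro z hz
          simp only [mem_ofPred_eq] at hz
          rw [mem_insert_iff, mem_singleton_iff]
          rcases mul_eq_zero.mp hz with h | h
          · left
            field_simp at h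
            linear_combination -h
          · right
            field_simp at h
            linear_combination -h
      obtain ⟨l1, l2, G', hG', hGr', hG0', hGb', hFG', hnz, hl1, hl2⟩ := ih (N - 2) (by omega) G2 hG2 hGreal
        (by rw [hG20, hG0]; exact h0) hGb2 (by
          push_cast [Nat.cast_sub hN2]
          linarith)
      refine ⟨l1, u :: l2, G', hG', hGr', by rw [hG0', hG20, hG0], hGb', fun w => ?_, hnz, fun v hv => ?_,
        fun v hv => ?_⟩
      · rw [hFG3 w, hFG' w, List.map_cons, List.prod_cons]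
        ring
      · rw [hFG3, hl1 v hv, mul_zero]
      · rcases List.mem_cons.mp hv with rfl | hv
        · exact ⟨him, hFu⟩
        · exact ⟨(hl2 v hv).1, by rw [hFG3, (hl2 v hv).2, mul_zero]⟩

/-- the logarithm of a zero free function of slow growth -/
lemma slow_log1 {G : ℂ → ℂ} (hG : Differentiable ℂ G) {ρ M : ℝ} (hρ : 0 < ρ)
    (hnz : ∀ u ∈ closedBall (0 : ℂ) ρ, G u ≠ 0) (hb : ∀ w ∈ closedBall (0 : ℂ) (2 * ρ), ‖G w‖ ≤ Real.exp M) :
    (∀ w : ℂ, ‖w‖ ≤ 3 * ρ / 8 → ‖deriv G w / G w‖ ≤ 16 * (M - Real.log ‖G 0‖ + 1) / ρ) ∧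
    (∀ w : ℂ, ‖w‖ ≤ 3 * ρ / 8 → ∃ L : ℂ, ‖L‖ ≤ 16 * (M - Real.log ‖G 0‖ + 1) / ρ * ‖w‖ ∧
      G w = G 0 * cexp L) := by
  have h0 : G 0 ≠ 0 := hnz 0 (mem_closedBall_self hρ.le)
  have h0n : 0 < ‖G 0‖ := norm_pos_iff.2 h0
  have hg : DifferentiableOn ℂ (fun z => deriv G z / G z) (ball 0 ρ) := by
    refine DifferentiableOn.div ?_ hG.differentiableOn (fun u hu => hnz u (ball_subset_closedBall hu))
    exact (hG.contDiff (n := 2)).differentiable_deriv_two.differentiableOn
  obtain ⟨L0, hL0⟩ := hg.isExactOn_ball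
  set L : ℂ → ℂ := fun z => L0 z - L0 0 with hLdef
  have hL : ∀ z ∈ ball (0 : ℂ) ρ, HasDerivAt L (deriv G z / G z) z := fun z hz =>
    (hL0 z hz).sub_const _
  have hLz : L 0 = 0 := by simp [hLdef]
  have hconst : ∀ z ∈ ball (0 : ℂ) ρ, G z * cexp (-L z) = G 0 := by
    intro z hz
    have hd : ∀ x ∈ ball (0 : ℂ) ρ, HasDerivAt (fun y => G y * cexp (-L y)) 0 x := by
      intro x hx
      have h1 := (hG x).hasDerivAt.mul ((hL x hx).neg.cexp)
      have e : deriv G x * cexp (-L x) + G x * (cexp (-L x) * -(deriv G x / G x)) = 0 := by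
        have hx' := hnz x (ball_subset_closedBall hx)
        field_simp
        ring
      have h1' : HasDerivAt (fun y => G y * cexp (-L y))
        (deriv G x * cexp (-L x) + G x * (cexp (-L x) * -(deriv G x / G x))) x := h1
      rwa [e] at h1'
    have h2 := (convex_ball (0 : ℂ) ρ).is_const_of_fderivWithin_eq_zero (𝕜 := ℂ)
      (f := fun y => G y * cexp (-L y))
      (fun x hx => (hd x hx).differentiableAt.differentiableWithinAt) (by
        intro x hx
        rw [((hd x hx).hasFDerivAt.hasFDerivWithinAt (s := ball (0 : ℂ) ρ)).fderivWithin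
          (isOpen_ball.uniqueDiffWithinAt hx)]
        ext
        simp) hz (mem_ball_self hρ)
    simpa [hLz] using h2
  have hFL : ∀ z ∈ ball (0 : ℂ) ρ, G z = G 0 * cexp (L z) := by
    intro z hz
    rw [← hconst z hz, mul_assoc, ← Complex.exp_add]
    simp
  have hnorm : ∀ z ∈ ball (0 : ℂ) ρ, ‖G z‖ = Real.exp (Real.log ‖G 0‖ + (L z).re) := by
    intro z hz
    rw [hFL z hz, norm_mul, Complex.norm_exp, Real.exp_add, Real.exp_log h0n]
  set A : ℝ := M - Real.log ‖G 0‖ with hA
  have hre : ∀ z ∈ ball (0 : ℂ) ρ, (L z).re ≤ A := by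
    intro z hz
    have h1 := hb z (ball_subset_closedBall (ball_subset_ball (by linarith) hz))
    rw [hnorm z hz, Real.exp_le_exp] at h1
    linarith
  have hA0 : 0 ≤ A := by
    have := hre 0 (mem_ball_self hρ)
    rwa [hLz] at this
  have hLb : ∀ w : ℂ, ‖w‖ ≤ ρ / 2 → ‖L w‖ ≤ 2 * (A + 1) := fun w hw => by
    have hwb : w ∈ ball (0 : ℂ) ρ := by
      rw [mem_ball, dist_zero_right]
      linarith
    have h1 := Complex.borelCaratheodory_zero (f := L) (R := ρ) (z := w)
      (M := A + 1) (by linarith)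
      (fun z hz => (hL z hz).differentiableAt.differentiableWithinAt)
      (fun z hz => by
        show (L z).re ≤ _
        linarith [hre z hz]) hρ hwb hLz
    refine h1.trans ?_
    rw [div_le_iff₀ (by linarith)]
    nlinarith [norm_nonneg w]
  have hb1 : ∀ w : ℂ, ‖w‖ ≤ 3 * ρ / 8 → ‖deriv G w / G w‖ ≤ 16 * (A + 1) / ρ := fun w hw => by
    have hsub : ∀ z ∈ closedBall w (ρ / 8), ‖z‖ ≤ ρ / 2 := fun z hz => by
      rw [mem_closedBall, dist_eq_norm] at hz
      have : ‖z‖ ≤ ‖z - w‖ + ‖w‖ := by
        have := norm_add_le (z - w) w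
        simpa using this
      linarith
    have hsub' : ∀ z ∈ closedBall w (ρ / 8), z ∈ ball (0 : ℂ) ρ := fun z hz => by
      rw [mem_ball, dist_zero_right]
      linarith [hsub z hz]
    have h1 := Complex.norm_deriv_le_of_forall_mem_sphere_norm_le (c := w) (R := ρ / 8)
      (C := 2 * (A + 1)) (f := L) (by positivity) ?_ (fun z hz => hLb z (hsub z (sphere_subset_closedBall hz)))
    · rw [(hL w (hsub' w (mem_closedBall_self (by positivity)))).deriv] at h1
      refine h1.trans (le_of_eq ?_)
      field_simp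
      ring
    · apply DifferentiableOn.diffContOnCl
      intro z hz
      rw [closure_ball w (by positivity)] at hz
      exact (hL z (hsub' z hz)).differentiableAt.differentiableWithinAt
  refine ⟨hb1, fun w hw => ⟨L w, ?_, hFL w ?_⟩⟩
  · have hsub : ∀ z ∈ closedBall (0 : ℂ) (3 * ρ / 8), z ∈ ball (0 : ℂ) ρ := fun z hz => by
      rw [mem_closedBall, dist_zero_right] at hz
      rw [mem_ball, dist_zero_right]
      linarith
    have := (convex_closedBall (0 : ℂ) (3 * ρ / 8)).norm_image_sub_le_of_norm_deriv_le (𝕜 := ℂ) (f := L)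
      (C := 16 * (A + 1) / ρ) (x := 0) (y := w) (fun z hz => (hL z (hsub z hz)).differentiableAt)
      (fun z hz => by
        rw [(hL z (hsub z hz)).deriv]
        exact hb1 z (by simpa using hz)) (mem_closedBall_self (by positivity)) (by simpa using hw)
    simpa [hLz] using this
  · rw [mem_ball, dist_zero_right]
    linarith

lemma exists_real_ne {F : ℂ → ℂ} (hF : Differentiable ℂ F) (hne : ∃ z, F z ≠ 0) : ∃ a : ℝ, F a ≠ 0 := by
  by_contra hcon
  push Not at hcon
  obtain ⟨z0, hz0⟩ := hne
  apply hz0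
  have hA : AnalyticOnNhd ℂ F univ := fun x _ => hF.analyticAt x
  refine hA.eqOn_zero_of_preconnected_of_frequently_eq_zero isPreconnected_univ
    (mem_univ (0 : ℂ)) ?_ (mem_univ z0)
  have ht : Tendsto (fun n : ℕ => ((1 / ((n : ℝ) + 1) : ℝ) : ℂ)) atTop (𝓝[≠] (0 : ℂ)) := by
    rw [tendsto_nhdsWithin_iff]
    constructor
    · have h1 := (Complex.continuous_ofReal.tendsto 0).comp (tendsto_one_div_add_atTop_nhds_zero_nat (𝕜 := ℝ))
      rw [Complex.ofReal_zero] at h1
      exact h1
    · refine Eventually.of_forall fun n => ?_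
      rw [mem_compl_iff, mem_singleton_iff]
      intro h
      have h2 : (0 : ℝ) < 1 / ((n : ℝ) + 1) := by positivity
      exact h2.ne' (Complex.ofReal_eq_zero.mp h)
  exact ht.frequently (Frequently.of_forall fun n => hcon _)

end H73.JP
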