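import Pool.Agent.Helper73.JP.H
import Pool.Graph.R_seed8.H353R6.E14

set_option autoImplicit false

open Complex Set Filter Topology Metric
open scoped ComplexConjugate

namespace H73.JP

open Pool.Agent.Helper242.KK

/-- real entire functions of slow growth with zeros in a parabola -/
structure EC (b : ℝ) (F : ℂ → ℂ) : Prop where
  diff : Differentiable ℂ F
  real : ∀ z, F (conj z) = conj (F z)
  slow : ∃ E : ℝ → ℝ, Monotone E ∧ Tendsto (fun ρ => E ρ / ρ) atTop (𝓝 0) ∧ ∀ z, ‖F z‖ ≤ Real.exp (E ‖z‖)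
  zer : ∀ z, F z = 0 → z.im ^ 2 ≤ 4 * b ^ 2 * (b ^ 2 - z.re)

lemma tend_shift1 {E : ℝ → ℝ} (hEt : Tendsto (fun ρ => E ρ / ρ) atTop (𝓝 0)) (a : ℝ) :
    Tendsto (fun ρ => E (ρ + a) / ρ) atTop (𝓝 0) := by
  have h1 : Tendsto (fun ρ : ℝ => ρ + a) atTop atTop := tendsto_atTop_add_const_right _ _ tendsto_id
  have h2 := hEt.comp h1
  have h3 : Tendsto (fun ρ : ℝ => (1 + a / ρ)) atTop (𝓝 (1 + 0)) :=
    (tendsto_const_nhds.add (tendsto_const_nhds.div_atTop tendsto_id))
  have h4 := h2.mul h3
  rw [zero_mul] at h4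
  refine h4.congr' ?_
  filter_upwards [eventually_gt_atTop 0, eventually_gt_atTop (-a)] with ρ h5 h6
  simp only [Function.comp]
  have h7 : ρ + a ≠ 0 := by linarith
  field_simp

/-- the approximation of a real entire function by products over zeros, at a given radius -/
lemma approx_fac {b : ℝ} {F : ℂ → ℂ} (h : EC b F) {a : ℝ} (ha : F a ≠ 0) {ε R : ℝ} (hε : 0 < ε) (hR : 0 < R) :
    ∃ (l1 : List ℝ) (l2 : List ℂ) (G : ℂ → ℂ), Differentiable ℂ G ∧ G 0 = F a ∧
      (∀ w, F (a + w) = (l1.map fun r : ℝ => 1 - w / (r : ℂ)).prod *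
        (l2.map fun u => (1 - w / u) * (1 - w / conj u)).prod * G w) ∧
      (∀ w : ℂ, ‖w‖ ≤ R → G w ≠ 0) ∧ (∀ r ∈ l1, F (a + r) = 0) ∧ (∀ u ∈ l2, u.im ≠ 0 ∧ F (a + u) = 0) ∧
      (∀ w : ℂ, ‖w‖ ≤ R → ‖deriv G w / G w‖ ≤ ε) ∧
      (∀ w : ℂ, ‖w‖ ≤ R → ∃ L : ℂ, ‖L‖ ≤ ε * ‖w‖ ∧ G w = G 0 * cexp L) := by
  obtain ⟨E, hE, hEt, hb⟩ := h.slow
  set Fa : ℂ → ℂ := fun w => F (a + w) with hFa
  have hFad : Differentiable ℂ Fa := h.diff.comp (by fun_prop)
  have hFar : ∀ z, Fa (conj z) = conj (Fa z) := fun z => by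
    simp only [hFa]
    rw [← h.real, map_add, Complex.conj_ofReal]
  have hFa0 : Fa 0 ≠ 0 := by simpa [hFa] using ha
  have hlim : Tendsto (fun ρ : ℝ => 16 * (E (2 * ρ + |a|) - Real.log ‖Fa 0‖ + 1) / ρ) atTop (𝓝 0) := by
    have h1 : Tendsto (fun ρ : ℝ => 2 * ρ) atTop atTop := tendsto_id.const_mul_atTop two_pos
    have h2 := ((tend_shift1 hEt |a|).comp h1).const_mul 2
    have h3 : Tendsto (fun ρ : ℝ => (-Real.log ‖Fa 0‖ + 1) / ρ) atTop (𝓝 0) :=
      tendsto_const_nhds.div_atTop tendsto_id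
    have h4 := ((h2.add h3).const_mul 16)
    simp only [mul_zero, add_zero] at h4
    refine h4.congr fun ρ => ?_
    simp only [Function.comp]
    rcases eq_or_ne ρ 0 with rfl | hρ
    · simp
    · field_simp
      ring
  obtain ⟨ρ, hρε, hρR, hρ0⟩ := ((hlim.eventually (gt_mem_nhds hε)).and
    ((eventually_ge_atTop (8 * R / 3)).and (eventually_gt_atTop 0))).exists
  have hbρ : ∀ z ∈ closedBall (0 : ℂ) (2 * ρ), ‖Fa z‖ ≤ Real.exp (E (2 * ρ + |a|)) := fun z hz => by
    rw [mem_closedBall, dist_zero_right] at hz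
    refine (hb _).trans (Real.exp_le_exp.mpr (hE ?_))
    have := norm_add_le (a : ℂ) z
    rw [Complex.norm_real, Real.norm_eq_abs] at this
    linarith
  obtain ⟨n, hn⟩ := exists_nat_ge (∑ᶠ u, (MeromorphicOn.divisor Fa (closedBall 0 ρ) u : ℝ) * 1)
  obtain ⟨l1, l2, G, hG, hGr, hG0, hGb, hFG, hnz, hl1, hl2⟩ := split_real hρ0 n Fa hFad hFar hFa0 hbρ hn
  obtain ⟨hs1, hs2⟩ := slow_log1 hG hρ0 hnz hGb
  rw [hG0] at hs1 hs2
  have hR8 : R ≤ 3 * ρ / 8 := by linarith
  refine ⟨l1, l2, G, hG, by rw [hG0, hFa]; simp, hFG, fun w hw => hnz w ?_, hl1, hl2, fun w hw => ?_,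
    fun w hw => ?_⟩
  · rw [mem_closedBall, dist_zero_right]
    linarith
  · exact (hs1 w (by linarith)).trans hρε.le
  · obtain ⟨L, hL, hGL⟩ := hs2 w (by linarith)
    refine ⟨L, hL.trans ?_, by rw [hG0]; exact hGL⟩
    exact mul_le_mul_of_nonneg_right hρε.le (norm_nonneg w)

lemma list_sum_re' {α : Type*} (l : List α) (f : α → ℂ) : ((l.map f).sum).re = (l.map fun u => (f u).re).sum := by
  induction l with
  | nil => simp
  | cons v l ih => simp only [List.map_cons, List.sum_cons, add_re, ih]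

lemma pair_der (l : List ℂ) {w : ℂ} (h : ∀ u ∈ l, u ≠ 0 ∧ w ≠ u ∧ w ≠ conj u) :
    HasDerivAt (fun w => (l.map fun u => (1 - w / u) * (1 - w / conj u)).prod)
      ((l.map fun u => (1 - w / u) * (1 - w / conj u)).prod *
        (l.map fun u => 1 / (w - u) + 1 / (w - conj u)).sum) w := by
  induction l with
  | nil => simpa using hasDerivAt_const w (1 : ℂ)
  | cons v l ih =>
    obtain ⟨hv0, hv1, hv2⟩ := h v List.mem_cons_self
    have hcv : conj v ≠ 0 := (map_ne_zero _).mpr hv0
    have h1 : HasDerivAt (fun w : ℂ => 1 - w / v) (-(1 / v)) w :=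
      ((hasDerivAt_id w).div_const v).const_sub 1
    have h1' : HasDerivAt (fun w : ℂ => 1 - w / conj v) (-(1 / conj v)) w :=
      ((hasDerivAt_id w).div_const (conj v)).const_sub 1
    have h2 := (h1.fun_mul h1').fun_mul (ih fun u hu => h u (List.mem_cons_of_mem v hu))
    simp only [List.map_cons, List.prod_cons, List.sum_cons]
    refine h2.congr_deriv ?_
    have h3 : w - v ≠ 0 := sub_ne_zero.mpr hv1
    have h3' : w - conj v ≠ 0 := sub_ne_zero.mpr hv2
    have e : (1 : ℂ) - w / v = -((w - v) / v) := by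
      field_simp
      ring
    have e' : (1 : ℂ) - w / conj v = -((w - conj v) / conj v) := by
      field_simp
      ring
    rw [e, e']
    field_simp

lemma real_der (l : List ℝ) {w : ℂ} (h : ∀ r ∈ l, r ≠ 0 ∧ w ≠ r) :
    HasDerivAt (fun w => (l.map fun r : ℝ => 1 - w / (r : ℂ)).prod)
      ((l.map fun r : ℝ => 1 - w / (r : ℂ)).prod * (l.map fun r : ℝ => 1 / (w - r)).sum) w := by
  have h1 := H353.E.prod_der (l.map fun r : ℝ => (r : ℂ)) (w := w) (fun u hu => by
    obtain ⟨r, hr, rfl⟩ := List.mem_map.mp hu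
    exact ⟨by exact_mod_cast (h r hr).1, (h r hr).2⟩)
  simpa [List.map_map, Function.comp_def] using h1

/-- positivity of a linear functional of the logarithmic derivative -/
lemma logpos {b : ℝ} {F : ℂ → ℂ} (h : EC b F) (hne : ∃ z, deriv F z ≠ 0) {z0 ω : ℂ} (hz0 : F z0 ≠ 0)
    (h1 : ∀ r : ℝ, F r = 0 → 0 < (ω * (1 / (z0 - r))).re)
    (h2 : ∀ u : ℂ, u.im ≠ 0 → F u = 0 → 0 < (ω * (1 / (z0 - u) + 1 / (z0 - conj u))).re) :
    deriv F z0 ≠ 0 := by
  intro hd0
  have hne0 : ∃ z, F z ≠ 0 := ⟨z0, hz0⟩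
  obtain ⟨a, ha⟩ := exists_real_ne h.diff hne0
  -- formula
  have hform : ∀ (l1 : List ℝ) (l2 : List ℂ) (G : ℂ → ℂ), Differentiable ℂ G →
      (∀ w, F (a + w) = (l1.map fun r : ℝ => 1 - w / (r : ℂ)).prod *
        (l2.map fun u => (1 - w / u) * (1 - w / conj u)).prod * G w) →
      (∀ r ∈ l1, F (a + r) = 0) → (∀ u ∈ l2, u.im ≠ 0 ∧ F (a + u) = 0) → ∀ w, F (a + w) ≠ 0 →
      deriv F (a + w) / F (a + w) = (l1.map fun r : ℝ => 1 / (w - r)).sum +
        (l2.map fun u => 1 / (w - u) + 1 / (w - conj u)).sum + deriv G w / G w := by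
    intro l1 l2 G hG hFG hl1 hl2 w hw
    have a1 : ∀ r ∈ l1, r ≠ 0 ∧ w ≠ r := fun r hr => ⟨fun h0 => by
      have := hl1 r hr
      rw [h0, ofReal_zero, add_zero] at this
      exact ha this, fun h0 => by
      apply hw
      rw [h0]
      exact hl1 r hr⟩
    have a2 : ∀ u ∈ l2, u ≠ 0 ∧ w ≠ u ∧ w ≠ conj u := fun u hu => ⟨fun h0 => by
      have := (hl2 u hu).1
      rw [h0] at this
      exact this rfl, fun h0 => by
      apply hw
      rw [h0]
      exact (hl2 u hu).2, fun h0 => by
      apply hw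
      have : (a : ℂ) + w = conj (a + u) := by rw [map_add, Complex.conj_ofReal, h0]
      rw [this, h.real, (hl2 u hu).2, map_zero]⟩
    have d1 := real_der l1 a1
    have d2 := pair_der l2 a2
    have d3 := (d1.fun_mul d2).fun_mul (hG w).hasDerivAt
    have e : (fun w => (l1.map fun r : ℝ => 1 - w / (r : ℂ)).prod *
        (l2.map fun u => (1 - w / u) * (1 - w / conj u)).prod * G w) = fun w => F (a + w) := (funext hFG).symm
    rw [e] at d3
    have d4 : deriv (fun w => F (a + w)) w = deriv F (a + w) := deriv_comp_const_add F a w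
    rw [← d4, d3.deriv, hFG w]
    have n1 : (l1.map fun r : ℝ => 1 - w / (r : ℂ)).prod ≠ 0 := fun h0 => hw (by rw [hFG, h0]; ring)
    have n2 : (l2.map fun u => (1 - w / u) * (1 - w / conj u)).prod ≠ 0 := fun h0 => hw (by rw [hFG, h0]; ring)
    have n3 : G w ≠ 0 := fun h0 => hw (by rw [hFG, h0]; ring)
    field_simp
  set w0 : ℂ := z0 - a with hw0
  have haw : (a : ℂ) + w0 = z0 := by rw [hw0]; ring
  by_cases hzero : ∃ ρ, F ρ = 0
  · obtain ⟨ρ1, hρ1⟩ := hzero
    -- the contribution of this zero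
    set c : ℝ := if ρ1.im = 0 then (ω * (1 / (z0 - ρ1.re))).re else (ω * (1 / (z0 - ρ1) + 1 / (z0 - conj ρ1))).re
      with hc
    have hc0 : 0 < c := by
      rw [hc]
      split_ifs with him
      · apply h1
        have : ρ1 = (ρ1.re : ℂ) := by apply Complex.ext <;> simp [him]
        rw [← this]
        exact hρ1
      · exact h2 ρ1 him hρ1
    set ε : ℝ := c / (2 * (‖ω‖ + 1)) with hε
    have hε0 : 0 < ε := by positivity
    set R : ℝ := ‖w0‖ + ‖ρ1 - a‖ + 1 with hR
    obtain ⟨l1, l2, G, hG, hG0, hFG, hnz, hl1, hl2, hs, -⟩ := approx_fac h ha hε0 (R := R) (by positivity)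
    have hf := hform l1 l2 G hG hFG hl1 hl2 w0 (by rw [haw]; exact hz0)
    rw [haw, hd0, zero_div] at hf
    have hsw := hs w0 (by rw [hR]; linarith [norm_nonneg (ρ1 - a)])
    have hre : 0 = ((l1.map fun r : ℝ => (ω * (1 / (w0 - r))).re).sum +
        (l2.map fun u => (ω * (1 / (w0 - u) + 1 / (w0 - conj u))).re).sum) + (ω * (deriv G w0 / G w0)).re := by
      have e1 : (l1.map fun r : ℝ => (ω * (1 / (w0 - r))).re).sum =
          (ω * (l1.map fun r : ℝ => 1 / (w0 - (r : ℂ))).sum).re := by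
        rw [← List.sum_map_mul_left, list_sum_re']
      have e2 : (l2.map fun u => (ω * (1 / (w0 - u) + 1 / (w0 - conj u))).re).sum =
          (ω * (l2.map fun u => 1 / (w0 - u) + 1 / (w0 - conj u)).sum).re := by
        rw [← List.sum_map_mul_left, list_sum_re']
      rw [e1, e2, ← add_re, ← add_re, ← mul_add, ← mul_add, ← hf]
      simp
    have hG1 : |(ω * (deriv G w0 / G w0)).re| ≤ c / 2 := by
      refine (Complex.abs_re_le_norm _).trans ?_
      rw [norm_mul]
      calc ‖ω‖ * ‖deriv G w0 / G w0‖ ≤ ‖ω‖ * ε := by gcongr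
        _ ≤ c / 2 := by
          rw [hε, mul_div_assoc', div_le_div_iff₀ (by positivity) (by norm_num)]
          nlinarith [norm_nonneg ω]
    have p1 : ∀ x ∈ (l1.map fun r : ℝ => (ω * (1 / (w0 - r))).re), 0 ≤ x := fun x hx => by
      obtain ⟨r, hr, rfl⟩ := List.mem_map.mp hx
      have := h1 (a + r) (by push_cast; exact hl1 r hr)
      have e : z0 - ((a + r : ℝ) : ℂ) = w0 - r := by rw [hw0]; push_cast; ring
      rw [e] at this
      exact this.le
    have p2 : ∀ x ∈ (l2.map fun u => (ω * (1 / (w0 - u) + 1 / (w0 - conj u))).re), 0 ≤ x := fun x hx => by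
      obtain ⟨u, hu, rfl⟩ := List.mem_map.mp hx
      have := h2 (a + u) (by simpa using (hl2 u hu).1) (hl2 u hu).2
      have e : z0 - (a + u) = w0 - u := by rw [hw0]; ring
      have e' : z0 - conj (a + u) = w0 - conj u := by rw [hw0, map_add, Complex.conj_ofReal]; ring
      rw [e, e'] at this
      exact this.le
    -- the zero is in the list
    have hin : c ≤ (l1.map fun r : ℝ => (ω * (1 / (w0 - r))).re).sum +
        (l2.map fun u => (ω * (1 / (w0 - u) + 1 / (w0 - conj u))).re).sum := by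
      have s1 := List.sum_nonneg p1
      have s2 := List.sum_nonneg p2
      have hw1 : F (a + (ρ1 - a)) = 0 := by
        rw [add_sub_cancel]
        exact hρ1
      rw [hFG] at hw1
      have hGn := hnz (ρ1 - a) (by rw [hR]; linarith [norm_nonneg w0])
      have hw2 := (mul_eq_zero.mp hw1).resolve_right hGn
      rcases mul_eq_zero.mp hw2 with hw3 | hw3
      · rw [List.prod_eq_zero_iff, List.mem_map] at hw3
        obtain ⟨r, hr, hr0⟩ := hw3
        have hr1 : r ≠ 0 := fun h0 => by
          have := hl1 r hr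
          rw [h0, ofReal_zero, add_zero] at this
          exact ha this
        have hrc : (r : ℂ) ≠ 0 := by exact_mod_cast hr1
        have hρr : ρ1 = a + r := by
          field_simp at hr0
          linear_combination -hr0
        have him : ρ1.im = 0 := by rw [hρr]; simp
        have hcc : c = (ω * (1 / (w0 - r))).re := by
          rw [hc, if_pos him]
          have : z0 - (ρ1.re : ℂ) = w0 - r := by
            rw [hρr, hw0]
            simp
            ring
          rw [this]
        rw [hcc]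
        have := List.single_le_sum p1 _ (List.mem_map.mpr ⟨r, hr, rfl⟩)
        linarith
      · rw [List.prod_eq_zero_iff, List.mem_map] at hw3
        obtain ⟨u, hu, hu0⟩ := hw3
        have him := (hl2 u hu).1
        have hu1 : u ≠ 0 := fun h0 => by rw [h0] at him; exact him rfl
        have hcu1 : conj u ≠ 0 := (map_ne_zero _).mpr hu1
        have hmem := List.single_le_sum p2 _ (List.mem_map.mpr ⟨u, hu, rfl⟩)
        rcases mul_eq_zero.mp hu0 with h0 | h0
        · have hρu : ρ1 = a + u := by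
            field_simp at h0
            linear_combination -h0
          have him1 : ρ1.im ≠ 0 := by rw [hρu]; simpa using him
          have hcc : c = (ω * (1 / (w0 - u) + 1 / (w0 - conj u))).re := by
            rw [hc, if_neg him1, hρu, hw0, map_add, Complex.conj_ofReal]
            congr 4 <;> ring
          rw [hcc]
          linarith
        · have hρu : ρ1 = a + conj u := by
            field_simp at h0
            linear_combination -h0
          have him1 : ρ1.im ≠ 0 := by rw [hρu]; simpa using him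
          have hcc : c = (ω * (1 / (w0 - u) + 1 / (w0 - conj u))).re := by
            rw [hc, if_neg him1, hρu, hw0, map_add, Complex.conj_ofReal, Complex.conj_conj]
            rw [add_comm (1 / (z0 - (↑a + conj u)))]
            congr 4 <;> ring
          rw [hcc]
          linarith
    have := (abs_le.mp hG1).1
    linarith
  · -- no zeros: the logarithmic derivative vanishes
    push Not at hzero
    obtain ⟨z, hz⟩ := hne
    apply hz
    set w : ℂ := z - a with hw
    have hawz : (a : ℂ) + w = z := by rw [hw]; ring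
    have hsmall : ∀ ε : ℝ, 0 < ε → ‖deriv F z / F z‖ ≤ ε := by
      intro ε hε
      obtain ⟨l1, l2, G, hG, hG0, hFG, hnz, hl1, hl2, hs, -⟩ := approx_fac h ha hε (R := ‖w‖ + 1) (by positivity)
      have hl1e : l1 = [] := by
        rcases l1 with _ | ⟨r, l⟩
        · rfl
        · exact absurd (hl1 r List.mem_cons_self) (hzero _)
      have hl2e : l2 = [] := by
        rcases l2 with _ | ⟨r, l⟩
        · rfl
        · exact absurd (hl2 r List.mem_cons_self).2 (hzero _)
      have hf := hform l1 l2 G hG hFG hl1 hl2 w (hzero _)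
      rw [hawz, hl1e, hl2e] at hf
      simp only [List.map_nil, List.sum_nil, zero_add] at hf
      rw [hf]
      exact hs w (by linarith)
    have h3 : ‖deriv F z / F z‖ ≤ 0 := le_of_forall_pos_le_add fun ε hε => by
      rw [zero_add]
      exact hsmall ε hε
    have h4 : deriv F z / F z = 0 := norm_le_zero_iff.mp h3
    rcases div_eq_zero_iff.mp h4 with h5 | h5
    · exact h5
    · exact absurd h5 (hzero z)

lemma re_one_div_pos {t ω : ℂ} (h : 0 < (ω * t).re) : 0 < (ω⁻¹ * (1 / t)).re := by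
  have h1 : ω * t ≠ 0 := fun h0 => by rw [h0] at h; simp at h
  have e : ω⁻¹ * (1 / t) = (ω * t)⁻¹ := by
    rw [mul_inv, one_div]
  rw [e, Complex.inv_re]
  exact div_pos h (normSq_pos.mpr h1)

/-- Gauss–Lucas for the parabola -/
lemma EC.deriv {b : ℝ} {F : ℂ → ℂ} (h : EC b F) (hne : ∃ z, deriv F z ≠ 0) : EC b (deriv F) := by
  obtain ⟨E, hE, hEt, hb⟩ := h.slow
  refine ⟨h.diff.deriv, fun z => ?_, ⟨fun ρ => E (ρ + 1), fun a b hab => hE (by linarith), tend_shift1 hEt 1,
    fun s => ?_⟩, fun z0 hz => ?_⟩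
  · have e : F = conj ∘ F ∘ conj := funext fun z => by simp [h.real]
    have h1 : HasDerivAt (conj ∘ F ∘ conj) (conj (_root_.deriv F z)) (conj z) := by
      have := (h.diff z).hasDerivAt.conj_conj
      exact this
    rw [← e] at h1
    exact h1.deriv
  · have h1 := Complex.norm_deriv_le_of_forall_mem_sphere_norm_le (c := s) (R := 1)
      (C := Real.exp (E (‖s‖ + 1))) (f := F) one_pos h.diff.diffContOnCl (fun z hz => ?_)
    · simpa using h1
    · refine (hb z).trans (Real.exp_le_exp.mpr (hE ?_))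
      rw [mem_sphere, dist_eq_norm] at hz
      have := norm_add_le (z - s) s
      rw [sub_add_cancel] at this
      linarith
  · by_contra hcon
    push Not at hcon
    have hz0 : F z0 ≠ 0 := fun h0 => by linarith [h.zer z0 h0]
    set ω : ℂ := ⟨4 * b ^ 2, -(2 * z0.im)⟩ with hω
    have key : ∀ u : ℂ, u.im ^ 2 ≤ 4 * b ^ 2 * (b ^ 2 - u.re) → 0 < (ω * (z0 - u)).re := fun u hu => by
      have e : (ω * (z0 - u)).re = 4 * b ^ 2 * (z0.re - u.re) + 2 * z0.im * (z0.im - u.im) := by
        rw [hω]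
        simp [mul_re]
      rw [e]
      nlinarith [sq_nonneg (z0.im - u.im)]
    refine logpos h hne (ω := ω⁻¹) hz0 (fun r hr => ?_) (fun u _ hu => ?_) hz
    · have := h.zer r hr
      exact re_one_div_pos (key r this)
    · have k1 := h.zer u hu
      have k2 : (conj u).im ^ 2 ≤ 4 * b ^ 2 * (b ^ 2 - (conj u).re) := by
        simpa using k1
      rw [mul_add, add_re]
      exact add_pos (re_one_div_pos (key u k1)) (re_one_div_pos (key _ k2))

/-- Jensen discs -/
lemma jensen_disc {b : ℝ} {F : ℂ → ℂ} (h : EC b F) (hne : ∃ z, deriv F z ≠ 0) {z0 : ℂ} (hz : deriv F z0 = 0)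
    (hz0 : z0.im ≠ 0) : ∃ u : ℂ, u.im ≠ 0 ∧ F u = 0 ∧ (z0.re - u.re) ^ 2 + z0.im ^ 2 ≤ u.im ^ 2 := by
  by_contra hcon
  push Not at hcon
  have hF0 : F z0 ≠ 0 := fun h0 => by
    have := hcon z0 hz0 h0
    simp at this
  have hy2 : 0 < z0.im ^ 2 := by positivity
  refine logpos h hne (ω := ⟨0, z0.im⟩) hF0 (fun r _ => ?_) (fun u hu hFu => ?_) hz
  · have e1 : (z0 - (r : ℂ)) ≠ 0 := fun h0 => by
      apply hz0
      have := congrArg Complex.im h0
      simpa using this
    have hns := normSq_pos.mpr e1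
    rw [mul_re, one_div, Complex.inv_re, Complex.inv_im]
    simp only [zero_mul, zero_sub, sub_im, ofReal_im, sub_zero]
    have e2 : -(z0.im * (-z0.im / normSq (z0 - r))) = z0.im ^ 2 / normSq (z0 - r) := by
      ring
    rw [e2]
    positivity
  · have hlt := hcon u hu hFu
    have n1 : z0 - u ≠ 0 := fun h0 => hF0 (by rw [sub_eq_zero.mp h0]; exact hFu)
    have n2 : z0 - conj u ≠ 0 := fun h0 => hF0 (by
      rw [sub_eq_zero.mp h0, h.real, hFu, map_zero])
    have q1 := normSq_pos.mpr n1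
    have q2 := normSq_pos.mpr n2
    rw [mul_re, add_im, one_div, one_div, Complex.inv_im, Complex.inv_im]
    simp only [zero_mul, zero_sub]
    have m1 : normSq (z0 - u) = (z0.re - u.re) ^ 2 + (z0.im - u.im) ^ 2 := by
      rw [normSq_apply, sub_re, sub_im]; ring
    have m2 : normSq (z0 - conj u) = (z0.re - u.re) ^ 2 + (z0.im + u.im) ^ 2 := by
      rw [normSq_apply, sub_re, sub_im, conj_re, conj_im]; ring
    have e : -(z0.im * (-(z0 - u).im / normSq (z0 - u) + -(z0 - conj u).im / normSq (z0 - conj u))) =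
        (2 * z0.im ^ 2 * ((z0.re - u.re) ^ 2 + z0.im ^ 2 - u.im ^ 2)) /
          (normSq (z0 - u) * normSq (z0 - conj u)) := by
      have a1 : (z0 - u).im = z0.im - u.im := sub_im _ _
      have a2 : (z0 - conj u).im = z0.im + u.im := by rw [sub_im, conj_im]; ring
      rw [a1, a2]
      have q1' := q1.ne'
      have q2' := q2.ne'
      have : -(z0.im * (-(z0.im - u.im) / normSq (z0 - u) + -(z0.im + u.im) / normSq (z0 - conj u))) =
          (z0.im * ((z0.im - u.im) * normSq (z0 - conj u) + (z0.im + u.im) * normSq (z0 - u))) /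
          (normSq (z0 - u) * normSq (z0 - conj u)) := by
        field_simp
        ring
      rw [this]
      congr 1
      rw [m1, m2]
      ring
    rw [e]
    apply div_pos _ (mul_pos q1 q2)
    have : 0 < (z0.re - u.re) ^ 2 + z0.im ^ 2 - u.im ^ 2 := by linarith
    positivity

end H73.JP
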