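import Pool.Agent.Helper73.JP.I

set_option autoImplicit false

open Complex Set Filter Topology Metric
open scoped ComplexConjugate

namespace H73.JP

lemma EC.iter {b : ℝ} {F : ℂ → ℂ} (h : EC b F) (hne : ∀ n, ∃ z, iteratedDeriv n F z ≠ 0) (n : ℕ) :
    EC b (iteratedDeriv n F) := by
  induction n with
  | zero => simpa using h
  | succ n ih =>
    rw [iteratedDeriv_succ]
    refine ih.deriv ?_
    have := hne (n + 1)
    rwa [iteratedDeriv_succ] at this

lemma iter_iter (F : ℂ → ℂ) (i n : ℕ) : iteratedDeriv i (iteratedDeriv n F) = iteratedDeriv (n + i) F := by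
  induction i with
  | zero => simp
  | succ i ih => rw [iteratedDeriv_succ, ih, ← add_assoc, iteratedDeriv_succ]

/-- Gontcharoff's estimate -/
lemma gon {K : ℝ} (hK : 0 ≤ K) (m : ℕ) : ∀ (g : ℂ → ℂ) (x : ℕ → ℂ) (A ρ : ℝ), Differentiable ℂ g →
    (∀ i ≤ m, ‖x i‖ ≤ ρ) → (∀ i < m, ‖x (i + 1) - x i‖ ≤ K) → (∀ i ≤ m, iteratedDeriv i g (x i) = 0) →
    (∀ z : ℂ, ‖z‖ ≤ ρ → ‖iteratedDeriv (m + 1) g z‖ ≤ A) →
    ∀ z : ℂ, ‖z‖ ≤ ρ → ‖g z‖ ≤ A * (‖z - x 0‖ + K * m) ^ (m + 1) / (m + 1).factorial := by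
  induction m with
  | zero =>
    intro g x A ρ hg hx _ h0 hA z hz
    have h1 := (convex_closedBall (0 : ℂ) ρ).norm_image_sub_le_of_norm_deriv_le (𝕜 := ℂ) (f := g)
      (C := A) (x := x 0) (y := z) (fun z _ => hg z)
      (fun z hz => by
        have := hA z (by simpa using hz)
        simpa using this) (by simpa using hx 0 le_rfl) (by simpa using hz)
    have h2 := h0 0 le_rfl
    rw [iteratedDeriv_zero] at h2
    rw [h2, sub_zero] at h1
    simpa using h1
  | succ m ih =>
    intro g x A ρ hg hx hs h0 hA z hz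
    have hA0 : 0 ≤ A := (norm_nonneg _).trans (hA z hz)
    have h1 := ih (deriv g) (fun i => x (i + 1)) A ρ hg.deriv (fun i hi => hx (i + 1) (by omega))
      (fun i hi => hs (i + 1) (by omega)) (fun i hi => by
        have := h0 (i + 1) (by omega)
        rwa [iteratedDeriv_succ'] at this)
      (fun z hz => by
        have := hA z hz
        rwa [iteratedDeriv_succ'] at this)
    set d : ℝ := ‖z - x 0‖ with hd
    set K' : ℝ := K * (m + 1 : ℕ) with hK'
    have hK'0 : 0 ≤ K' := by positivity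
    have hx0 := hx 0 (Nat.zero_le _)
    have hmem : ∀ t ∈ Icc (0:ℝ) 1, ‖x 0 + t * (z - x 0)‖ ≤ ρ := fun t ht => by
      have h2 := (convex_closedBall (0 : ℂ) ρ) (x := x 0) (by simpa using hx0) (y := z) (by simpa using hz)
        (a := 1 - t) (b := t) (by linarith [ht.2]) ht.1 (by ring)
      have e : (1 - t) • x 0 + t • z = x 0 + t * (z - x 0) := by
        simp only [Complex.real_smul]
        push_cast
        ring
      rw [e] at h2
      simpa using h2
    have hbound := image_norm_le_of_norm_deriv_right_le_deriv_boundary (a := (0:ℝ)) (b := 1)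
      (f := fun t : ℝ => g (x 0 + t * (z - x 0))) (f' := fun t : ℝ => deriv g (x 0 + t * (z - x 0)) * (z - x 0))
      (B := fun t => A * (t * d + K') ^ (m + 2) / (m + 2).factorial)
      (B' := fun t => A * ((t * d + K') ^ (m + 1) / (m + 1).factorial) * d) ?_ ?_ ?_ ?_ ?_ (x := 1) ⟨zero_le_one, le_rfl⟩
    · simp only [ofReal_one, one_mul, add_sub_cancel] at hbound
      exact hbound
    · have := hg.continuous
      fun_prop
    · intro t _
      have h2 : HasDerivAt (fun t : ℝ => x 0 + t * (z - x 0)) (z - x 0) t := by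
        have h1 : HasDerivAt (fun t : ℝ => (t : ℂ)) 1 t := Complex.ofRealCLM.hasDerivAt
        simpa using (h1.mul_const (z - x 0)).const_add (x 0)
      exact (HasDerivAt.comp t (hg _).hasDerivAt h2).hasDerivWithinAt
    · have h2 := h0 0 (Nat.zero_le _)
      rw [iteratedDeriv_zero] at h2
      simp only [ofReal_zero, zero_mul, add_zero, zero_add]
      rw [h2, norm_zero]
      positivity
    · intro t
      have h2 : HasDerivAt (fun t : ℝ => t * d + K') (1 * d) t := ((hasDerivAt_id t).mul_const d).add_const _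
      have h3 := ((h2.fun_pow (m + 2)).const_mul A).div_const ((m + 2).factorial : ℝ)
      refine h3.congr_deriv ?_
      have hf : ((m + 1).factorial : ℝ) ≠ 0 := by exact_mod_cast (m + 1).factorial_ne_zero
      have hm : ((m : ℝ) + 2) ≠ 0 := by positivity
      rw [show m + 2 = (m + 1) + 1 from rfl, Nat.factorial_succ (m + 1)]
      simp only [Nat.add_sub_cancel]
      push_cast
      have hm' : ((m : ℝ) + 1 + 1) ≠ 0 := by positivity
      field_simp
    · intro t ht
      have ht' : t ∈ Icc (0:ℝ) 1 := ⟨ht.1, ht.2.le⟩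
      have h2 := h1 _ (hmem t ht')
      rw [norm_mul]
      apply mul_le_mul_of_nonneg_right _ (norm_nonneg _)
      refine h2.trans ?_
      rw [mul_div_assoc]
      apply mul_le_mul_of_nonneg_left _ hA0
      apply div_le_div_of_nonneg_right _ (by positivity)
      apply pow_le_pow_left₀ (by positivity)
      have h3 : ‖x 0 + t * (z - x 0) - x (0 + 1)‖ ≤ t * d + K := by
        have e : x 0 + t * (z - x 0) - x (0 + 1) = t * (z - x 0) - (x (0 + 1) - x 0) := by ring
        rw [e]
        refine (norm_sub_le _ _).trans ?_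
        rw [norm_mul, Complex.norm_real, Real.norm_eq_abs, abs_of_nonneg ht.1]
        have := hs 0 (by omega)
        linarith
      rw [hK']
      push_cast
      linarith

/-- chains of Jensen parents -/
lemma chain {b : ℝ} {F : ℂ → ℂ} (h : EC b F) (hne : ∀ n, ∃ z, iteratedDeriv n F z ≠ 0) {Lo U : ℕ → ℝ} {n1 : ℕ}
    (hloc : ∀ n, n1 ≤ n → ∀ x, iteratedDeriv n F x = 0 → Lo n ≤ ‖x‖ → ‖x‖ ≤ U n → x.im = 0)
    (hstep : ∀ n, n1 ≤ n → ∀ x x' : ℂ, ‖x‖ < Lo (n + 1) → x'.im ^ 2 ≤ 4 * b ^ 2 * (b ^ 2 - x'.re) →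
      (x.re - x'.re) ^ 2 + x.im ^ 2 ≤ x'.im ^ 2 → ‖x'‖ ≤ U n) (k : ℕ) : ∀ x : ℂ,
    iteratedDeriv (n1 + k) F x = 0 → 0 < x.im → ‖x‖ < Lo (n1 + k) →
    ∃ X : ℕ → ℂ, X k = x ∧ (∀ i ≤ k, iteratedDeriv (n1 + i) F (X i) = 0 ∧ 0 < (X i).im ∧
      ‖X i‖ < Lo (n1 + i)) ∧ ∀ i < k, ((X (i + 1)).re - (X i).re) ^ 2 + (X (i + 1)).im ^ 2 ≤ (X i).im ^ 2 := by
  induction k with
  | zero =>
    intro x hx him hL
    refine ⟨fun _ => x, rfl, fun i hi => ?_, fun i hi => by omega⟩
    obtain rfl : i = 0 := by omega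
    exact ⟨hx, him, hL⟩
  | succ k ih =>
    intro x hx him hL
    have hEC := h.iter hne (n1 + k)
    have hne' : ∃ z, deriv (iteratedDeriv (n1 + k) F) z ≠ 0 := by
      have := hne (n1 + k + 1)
      rwa [iteratedDeriv_succ] at this
    have hx' : deriv (iteratedDeriv (n1 + k) F) x = 0 := by
      rw [← add_assoc, iteratedDeriv_succ] at hx
      exact hx
    obtain ⟨u, hu1, hu2, hu3⟩ := jensen_disc hEC hne' hx' him.ne'
    -- choose the representative in the upper half plane
    obtain ⟨v, hv1, hv2, hv3⟩ : ∃ v : ℂ, 0 < v.im ∧ iteratedDeriv (n1 + k) F v = 0 ∧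
        (x.re - v.re) ^ 2 + x.im ^ 2 ≤ v.im ^ 2 := by
      rcases lt_or_gt_of_ne hu1 with hneg | hpos
      · refine ⟨conj u, by simpa using hneg, ?_, by simpa using hu3⟩
        rw [hEC.real, hu2, map_zero]
      · exact ⟨u, hpos, hu2, hu3⟩
    have hvU := hstep (n1 + k) (by omega) x v hL (hEC.zer v hv2) hv3
    have hvL : ‖v‖ < Lo (n1 + k) := by
      by_contra hcon
      push Not at hcon
      exact hv1.ne' (hloc (n1 + k) (by omega) v hv2 hcon hvU)
    obtain ⟨X, hX0, hX1, hX2⟩ := ih v hv2 hv1 hvL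
    refine ⟨fun i => if i = k + 1 then x else X i, by simp, fun i hi => ?_, fun i hi => ?_⟩
    · beta_reduce
      by_cases hik : i = k + 1
      · rw [if_pos hik, hik]
        exact ⟨hx, him, hL⟩
      · rw [if_neg hik]
        exact hX1 i (by omega)
    · beta_reduce
      by_cases hik : i = k
      · have e1 : (if i + 1 = k + 1 then x else X (i + 1)) = x := if_pos (by omega)
        have e2 : (if i = k + 1 then x else X i) = v := by
          rw [if_neg (by omega), hik, hX0]
        rw [e1, e2]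
        exact hv3
      · have e1 : (if i + 1 = k + 1 then x else X (i + 1)) = X (i + 1) := if_neg (by omega)
        have e2 : (if i = k + 1 then x else X i) = X i := if_neg (by omega)
        rw [e1, e2]
        exact hX2 i (by omega)

theorem small_zeros {b : ℝ} {F : ℂ → ℂ} (h : EC b F) (hne : ∀ n, ∃ z, iteratedDeriv n F z ≠ 0)
    {Lo U : ℕ → ℝ} {n1 : ℕ}
    (hloc : ∀ n, n1 ≤ n → ∀ x, iteratedDeriv n F x = 0 → Lo n ≤ ‖x‖ → ‖x‖ ≤ U n → x.im = 0)
    (hstep : ∀ n, n1 ≤ n → ∀ x x' : ℂ, ‖x‖ < Lo (n + 1) → x'.im ^ 2 ≤ 4 * b ^ 2 * (b ^ 2 - x'.re) →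
      (x.re - x'.re) ^ 2 + x.im ^ 2 ≤ x'.im ^ 2 → ‖x'‖ ≤ U n) :
    ∃ n2 : ℕ, ∀ n, n2 ≤ n → ∀ x, iteratedDeriv n F x = 0 → ‖x‖ ≤ U n → x.im = 0 := by
  by_contra hcon
  push Not at hcon
  set g : ℂ → ℂ := iteratedDeriv n1 F with hg
  have hEC := h.iter hne n1
  rw [← hg] at hEC
  obtain ⟨E, hE, hEt, hb⟩ := hEC.slow
  set Y : ℝ := |Lo n1| with hY
  set K : ℝ := 2 * Y with hK
  have hY0 : 0 ≤ Y := abs_nonneg _
  have hK00 : 0 ≤ K := by positivity
  obtain ⟨z, hz⟩ := hne n1
  apply hz
  set c : ℝ := ‖z‖ + Y + 1 with hc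
  have hc0 : 0 < c := by positivity
  -- eventually E is small
  have hsm : ∀ᶠ k : ℕ in atTop, E (3 * (c + K * k)) ≤ 1 / 4 * ((k : ℝ) + 1) := by
    have hcK : 0 < 12 * (c + K) := by positivity
    have h1 := hEt.eventually (gt_mem_nhds (show (0:ℝ) < 1 / (12 * (c + K)) by positivity))
    have h2 : Tendsto (fun k : ℕ => 3 * (c + K) * ((k : ℝ) + 1)) atTop atTop := by
      apply Tendsto.const_mul_atTop (by positivity)
      exact tendsto_atTop_add_const_right _ _ tendsto_natCast_atTop_atTop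
    filter_upwards [h2.eventually h1] with k hk
    have h3 : (0:ℝ) < 3 * (c + K) * ((k : ℝ) + 1) := by positivity
    rw [div_lt_iff₀ h3] at hk
    have h4 : 1 / (12 * (c + K)) * (3 * (c + K) * ((k : ℝ) + 1)) = 1 / 4 * ((k : ℝ) + 1) := by
      have hcK' : c + K ≠ 0 := by positivity
      field_simp
      ring
    rw [h4] at hk
    refine le_trans (hE ?_) hk.le
    have hk0 : (0:ℝ) ≤ k := Nat.cast_nonneg k
    have hK0 : 0 ≤ K := by positivity
    nlinarith [mul_nonneg hc0.le hk0]
  obtain ⟨k0, hk0⟩ := eventually_atTop.mp hsm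
  -- the estimate for one chain
  have hone : ∀ k1 : ℕ, ∃ k, k1 ≤ k ∧ ‖g z‖ ≤ (3 / 4 : ℝ) ^ (k + 1) := by
    intro k1
    obtain ⟨m, hm, x, hx0, hxU, him⟩ := hcon (n1 + k0 + k1)
    obtain ⟨k, rfl⟩ : ∃ k, m = n1 + k := ⟨m - n1, by omega⟩
    have hkk0 : k0 ≤ k := by omega
    refine ⟨k, by omega, ?_⟩
    have hECm := h.iter hne (n1 + k)
    obtain ⟨x', hx1, hx2, hx3⟩ : ∃ x' : ℂ, iteratedDeriv (n1 + k) F x' = 0 ∧ 0 < x'.im ∧ ‖x'‖ ≤ U (n1 + k) := by
      rcases lt_or_gt_of_ne him with hneg | hpos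
      · refine ⟨conj x, ?_, by simpa using hneg, by rwa [Complex.norm_conj]⟩
        rw [hECm.real, hx0, map_zero]
      · exact ⟨x, hx0, hpos, hxU⟩
    have hxL : ‖x'‖ < Lo (n1 + k) := by
      by_contra hcon2
      push Not at hcon2
      exact hx2.ne' (hloc (n1 + k) (by omega) x' hx1 hcon2 hx3)
    obtain ⟨X, -, hX1, hX2⟩ := chain h hne hloc hstep k x' hx1 hx2 hxL
    -- imaginary parts
    have him : ∀ i ≤ k, (X i).im ≤ Y := by
      intro i hi
      induction i with
      | zero =>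
        have h1 := (hX1 0 (Nat.zero_le _)).2.2
        rw [add_zero] at h1
        exact ((le_abs_self _).trans (Complex.abs_im_le_norm _)).trans (h1.le.trans (le_abs_self _))
      | succ i ihi =>
        have h1 := ihi (by omega)
        have h2 := hX2 i (by omega)
        have h3 := (hX1 i (by omega)).2.1
        have h4 := (hX1 (i + 1) hi).2.1
        have h5 : (X (i + 1)).im ≤ (X i).im := by
          refine (le_abs_self _).trans (abs_le_of_sq_le_sq ?_ h3.le)
          nlinarith [sq_nonneg ((X (i + 1)).re - (X i).re)]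
        linarith
    have hstepK : ∀ i < k, ‖X (i + 1) - X i‖ ≤ K := by
      intro i hi
      have h2 := hX2 i hi
      have h3 := (hX1 i (by omega)).2.1
      have h4 := (hX1 (i + 1) (by omega)).2.1
      have h5 := him i (by omega)
      have h6 := him (i + 1) (by omega)
      have h7 : |(X (i + 1) - X i).re| ≤ Y := by
        rw [sub_re]
        apply abs_le_of_sq_le_sq _ hY0
        nlinarith [sq_nonneg (X (i + 1)).im]
      have h8 : |(X (i + 1) - X i).im| ≤ Y := by
        rw [sub_im, abs_le]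
        constructor <;> linarith
      have := Complex.norm_le_abs_re_add_abs_im (X (i + 1) - X i)
      linarith
    have hX0n : ‖X 0‖ ≤ Y := by
      have h1 := (hX1 0 (Nat.zero_le _)).2.2
      rw [add_zero] at h1
      exact h1.le.trans (le_abs_self _)
    have hK0 : 0 ≤ K := by positivity
    have hXn : ∀ i ≤ k, ‖X i‖ ≤ Y + K * i := by
      intro i hi
      induction i with
      | zero => simpa using hX0n
      | succ i ihi =>
        have h1 := ihi (by omega)
        have h2 := hstepK i (by omega)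
        have h3 := norm_le_norm_add_norm_sub' (X (i + 1)) (X i)
        push_cast
        linarith
    set ρ : ℝ := c + K * k with hρ
    have hk0' : (0:ℝ) ≤ k := Nat.cast_nonneg k
    have hρ0 : 0 < ρ := by positivity
    have hR : 0 < 2 * ρ := by positivity
    have hder : ∀ w : ℂ, ‖w‖ ≤ ρ → ‖iteratedDeriv (k + 1) g w‖ ≤
        (k + 1).factorial * Real.exp (E (3 * ρ)) / (2 * ρ) ^ (k + 1) := by
      intro w hw
      apply Complex.norm_iteratedDeriv_le_of_forall_mem_sphere_norm_le (k + 1) hR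
        hEC.diff.diffContOnCl
      intro u hu
      refine (hb u).trans (Real.exp_le_exp.mpr (hE ?_))
      rw [mem_sphere, dist_eq_norm] at hu
      have := norm_add_le (u - w) w
      rw [sub_add_cancel] at this
      linarith
    have hgon := gon hK0 k g X _ ρ hEC.diff (fun i hi => ?_) hstepK (fun i hi => ?_) hder z ?_
    · refine hgon.trans ?_
      have hf : ((k + 1).factorial : ℝ) ≠ 0 := by exact_mod_cast (k + 1).factorial_ne_zero
      have e : ((k + 1).factorial : ℝ) * Real.exp (E (3 * ρ)) / (2 * ρ) ^ (k + 1) *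
          (‖z - X 0‖ + K * k) ^ (k + 1) / (k + 1).factorial =
          Real.exp (E (3 * ρ)) * ((‖z - X 0‖ + K * k) / (2 * ρ)) ^ (k + 1) := by
        rw [div_pow]
        field_simp
      rw [e]
      have h1 : (‖z - X 0‖ + K * k) / (2 * ρ) ≤ 1 / 2 := by
        rw [div_le_div_iff₀ hR (by norm_num)]
        have := norm_sub_le z (X 0)
        nlinarith
      have h2 : Real.exp (E (3 * ρ)) ≤ (3 / 2 : ℝ) ^ (k + 1) := by
        have h3 := hk0 k hkk0
        rw [← hρ] at h3
        have h4 : Real.exp (1 / 4) ≤ 3 / 2 := by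
          have := Real.exp_bound_div_one_sub_of_interval (x := 1 / 4) (by norm_num) (by norm_num)
          linarith
        calc Real.exp (E (3 * ρ)) ≤ Real.exp (((k + 1 : ℕ) : ℝ) * (1 / 4)) := by
              apply Real.exp_le_exp.mpr
              push_cast
              linarith
          _ = Real.exp (1 / 4) ^ (k + 1) := by rw [Real.exp_nat_mul]
          _ ≤ (3 / 2 : ℝ) ^ (k + 1) := by gcongr
      have h5 : 0 ≤ (‖z - X 0‖ + K * k) / (2 * ρ) := by positivity
      calc Real.exp (E (3 * ρ)) * ((‖z - X 0‖ + K * k) / (2 * ρ)) ^ (k + 1)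
          ≤ (3 / 2 : ℝ) ^ (k + 1) * (1 / 2) ^ (k + 1) := by gcongr
        _ = (3 / 4 : ℝ) ^ (k + 1) := by
          rw [← mul_pow]
          norm_num
    · refine (hXn i hi).trans ?_
      rw [hρ, hc]
      have : (i:ℝ) ≤ k := by exact_mod_cast hi
      have := mul_le_mul_of_nonneg_left this hK0
      linarith [norm_nonneg z]
    · rw [hg, iter_iter]
      exact (hX1 i hi).1
    · rw [hρ, hc]
      have : 0 ≤ K * k := by positivity
      linarith
  have hlim : Tendsto (fun k : ℕ => (3 / 4 : ℝ) ^ (k + 1)) atTop (𝓝 0) :=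
    (tendsto_pow_atTop_nhds_zero_of_lt_one (by norm_num) (by norm_num)).comp (tendsto_add_atTop_nat 1)
  by_contra hgz
  have hgp : 0 < ‖g z‖ := norm_pos_iff.mpr hgz
  obtain ⟨k1, hk1⟩ := eventually_atTop.mp (hlim.eventually (gt_mem_nhds hgp))
  obtain ⟨k, hk, hle⟩ := hone k1
  linarith [hk1 k hk]

end H73.JP
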