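import Mathlib

set_option autoImplicit false

open Complex Set Filter Topology Polynomial
open scoped ComplexConjugate

namespace H73.JP

lemma splits_of_im {A : ℝ[X]} (h : ∀ z : ℂ, aeval z A = 0 → z.im = 0) : A.Splits := by
  refine Splits.of_splits_map (algebraMap ℝ ℂ) (IsAlgClosed.splits _) fun a ha => ?_
  by_cases hA : A.map (algebraMap ℝ ℂ) = 0
  · rw [hA] at ha
    simp at ha
  · rw [mem_roots hA, IsRoot.def, eval_map_algebraMap] at ha
    have := h a ha
    exact ⟨a.re, by apply Complex.ext <;> simp [this]⟩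

/-- normal form of a split polynomial -/
lemma split_form {A : ℝ[X]} (hA : A.Splits) : ∃ (m : ℕ) (r : Fin m → ℝ), m = A.natDegree ∧
    A = C A.leadingCoeff * ∏ j, (X - C (r j)) := by
  have h1 := hA.eq_prod_roots
  have h2 := hA.natDegree_eq_card_roots
  have h3 : A.roots.toList.length = A.natDegree := by rw [Multiset.length_toList, h2]
  refine ⟨A.roots.toList.length, fun j => A.roots.toList[j.1], h3, ?_⟩
  conv_lhs => rw [h1]
  congr 1
  have h4 : (A.roots.map (X - C ·)).prod = (A.roots.toList.map (X - C ·)).prod := by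
    conv_lhs => rw [← Multiset.coe_toList A.roots]
    rw [Multiset.map_coe, Multiset.prod_coe]
  rw [h4, ← Fin.prod_univ_fun_getElem]

lemma aeval_prod_form {ι : Type*} (s : Finset ι) (r : ι → ℝ) (y : ℂ) :
    aeval y (∏ j ∈ s, (X - C (r j) : ℝ[X])) = ∏ j ∈ s, (y - r j) := by
  rw [map_prod]
  refine Finset.prod_congr rfl fun j _ => ?_
  simp

lemma ev_der {ι : Type*} [DecidableEq ι] (s : Finset ι) (r : ι → ℝ) {y : ℂ} (hy : y.im ≠ 0) :
    aeval y (∏ j ∈ s, (X - C (r j) : ℝ[X])) ≠ 0 ∧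
    aeval y (derivative (∏ j ∈ s, (X - C (r j) : ℝ[X]))) =
      aeval y (∏ j ∈ s, (X - C (r j) : ℝ[X])) * ∑ j ∈ s, (y - r j)⁻¹ ∧
    aeval y (derivative (derivative (∏ j ∈ s, (X - C (r j) : ℝ[X])))) =
      aeval y (∏ j ∈ s, (X - C (r j) : ℝ[X])) * ((∑ j ∈ s, (y - r j)⁻¹) ^ 2 - ∑ j ∈ s, ((y - r j)⁻¹) ^ 2) := by
  have hne : ∀ j, y - r j ≠ 0 := fun j h => by
    apply hy
    have := congrArg Complex.im h
    simpa using this
  induction s using Finset.induction_on with
  | empty => simp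
  | insert j s hj ih =>
    obtain ⟨h0, h1, h2⟩ := ih
    rw [Finset.prod_insert hj, Finset.sum_insert hj, Finset.sum_insert hj]
    set P : ℝ[X] := ∏ j ∈ s, (X - C (r j) : ℝ[X]) with hP
    have e0 : aeval y ((X - C (r j)) * P) = (y - r j) * aeval y P := by simp
    have e1 : derivative ((X - C (r j)) * P) = P + (X - C (r j)) * derivative P := by
      rw [derivative_mul]
      simp
    have e2 : derivative (P + (X - C (r j)) * derivative P) =
        2 * derivative P + (X - C (r j)) * derivative (derivative P) := by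
      rw [derivative_add, derivative_mul]
      simp
      ring
    have hn := hne j
    refine ⟨?_, ?_, ?_⟩
    · rw [e0]
      exact mul_ne_zero hn h0
    · rw [e0, e1]
      simp only [map_add, map_mul, map_sub, aeval_X, aeval_C, h1]
      simp only [Complex.coe_algebraMap]
      field_simp
    · rw [e0, e1, e2]
      simp only [map_add, map_mul, map_sub, aeval_X, aeval_C, h1, h2, map_ofNat]
      simp only [Complex.coe_algebraMap]
      field_simp
      ring

lemma inv_im_form {y : ℂ} (r : ℝ) : ((y - r)⁻¹).im = -(y.im * (normSq (y - r))⁻¹) := by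
  rw [Complex.inv_im]
  simp
  ring

/-- `A' - r A` -/
theorem split_one {A : ℝ[X]} (hA : A.Splits) (c : ℝ) : (derivative A - C c * A).Splits := by
  by_cases hA0 : A.leadingCoeff = 0
  · rw [leadingCoeff_eq_zero] at hA0
    rw [hA0]
    simp
  obtain ⟨m, r, hm, hform⟩ := split_form hA
  set P : ℝ[X] := ∏ j, (X - C (r j)) with hP
  have e : derivative A - C c * A = C A.leadingCoeff * (derivative P - C c * P) := by
    conv_lhs => rw [hform]
    rw [derivative_C_mul]
    ring
  rw [e]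
  apply Splits.C_mul
  rcases Nat.eq_zero_or_pos m with hm0 | hm0
  · have : P = 1 := by
      rw [hP]
      subst hm0
      simp
    rw [this]
    apply Splits.of_natDegree_le_one
    simp
  apply splits_of_im
  intro y hy
  by_contra him
  obtain ⟨h0, h1, -⟩ := ev_der Finset.univ r him
  rw [← hP] at h0 h1
  rw [map_sub, map_mul, aeval_C, h1, Complex.coe_algebraMap] at hy
  have h2 : (∑ j, (y - r j)⁻¹) = (c : ℂ) := by
    have : aeval y P * ((∑ j, (y - r j)⁻¹) - c) = 0 := by linear_combination hy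
    rcases mul_eq_zero.mp this with h | h
    · exact absurd h h0
    · linear_combination h
  have h3 := congrArg Complex.im h2
  rw [Complex.im_sum, Complex.ofReal_im] at h3
  simp only [inv_im_form] at h3
  rw [Finset.sum_neg_distrib, ← Finset.mul_sum, neg_eq_zero] at h3
  have h4 : 0 < ∑ j : Fin m, (normSq (y - r j))⁻¹ := by
    apply Finset.sum_pos
    · intro j _
      apply inv_pos.mpr
      apply normSq_pos.mpr
      intro h
      apply him
      have := congrArg Complex.im h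
      simpa using this
    · exact ⟨⟨0, hm0⟩, Finset.mem_univ _⟩
  rcases mul_eq_zero.mp h3 with h | h
  · exact him h
  · linarith

/-- the quadratic form argument -/
lemma lorentz {m : ℕ} {a p : Fin m → ℝ} (hm : 2 ≤ m) (hp : ∀ j, 0 < p j) {α β η : ℝ} (hη : η ≠ 0)
    (hαβ : 0 < α ^ 2 + β ^ 2) (h : ((m : ℝ) - 1) * β ^ 2 ≤ α ^ 2)
    (hre : (α - ∑ j, a j) ^ 2 - (η * ∑ j, p j) ^ 2 + β ^ 2 - (∑ j, a j ^ 2) + η ^ 2 * ∑ j, p j ^ 2 = 0)
    (him : (α - ∑ j, a j) * ∑ j, p j + ∑ j, a j * p j = 0) : False := by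
  set c : ℝ := α ^ 2 + β ^ 2 with hc
  set A1 := ∑ j, a j with hA1
  set B1 := ∑ j, p j with hB1
  set A2 := ∑ j, a j ^ 2 with hA2
  set B2 := ∑ j, p j ^ 2 with hB2
  set AB := ∑ j, a j * p j with hAB
  have hB1pos : 0 < B1 := Finset.sum_pos (fun j _ => hp j) ⟨⟨0, by omega⟩, Finset.mem_univ _⟩
  have hlt : B2 < B1 ^ 2 := by
    have h1 : B1 ^ 2 = ∑ j, p j * B1 := by rw [← Finset.sum_mul, ← hB1]; ring
    rw [h1, hB2]
    apply Finset.sum_lt_sum_of_nonempty ⟨⟨0, by omega⟩, Finset.mem_univ _⟩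
    intro j _
    rw [pow_two]
    apply mul_lt_mul_of_pos_left _ (hp j)
    rw [hB1]
    obtain ⟨k, hk⟩ : ∃ k : Fin m, k ≠ j := by
      by_cases hj : j = ⟨0, by omega⟩
      · exact ⟨⟨1, by omega⟩, by rw [hj]; simp⟩
      · exact ⟨⟨0, by omega⟩, fun h => hj h.symm⟩
    exact Finset.single_lt_sum hk (Finset.mem_univ j) (Finset.mem_univ k) (hp k) fun i _ _ => (hp i).le
  have hη2 : 0 < η ^ 2 := by positivity
  -- the form N
  have hN : ∀ x : ℝ, 0 ≤ (A2 - β ^ 2 / c * A1 ^ 2) * (x * x) + 2 * (AB - β ^ 2 / c * A1 * B1) * x +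
      (B2 - β ^ 2 / c * B1 ^ 2) := by
    intro x
    have h1 : (∑ j, (x * a j + p j)) ^ 2 ≤ m * ∑ j, (x * a j + p j) ^ 2 := by
      have := sq_sum_le_card_mul_sum_sq (s := (Finset.univ : Finset (Fin m))) (f := fun j => x * a j + p j)
      simpa using this
    have h2 : ∑ j, (x * a j + p j) = x * A1 + B1 := by
      rw [Finset.sum_add_distrib, ← Finset.mul_sum]
    have h3 : ∑ j, (x * a j + p j) ^ 2 = x ^ 2 * A2 + 2 * x * AB + B2 := by
      rw [hA2, hAB, hB2, Finset.mul_sum, Finset.mul_sum, ← Finset.sum_add_distrib, ← Finset.sum_add_distrib]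
      refine Finset.sum_congr rfl fun j _ => ?_
      ring
    rw [h2, h3] at h1
    have h4 : β ^ 2 / c * m ≤ 1 := by
      rw [div_mul_eq_mul_div, div_le_one hαβ, hc]
      linarith
    have h5 : 0 ≤ β ^ 2 / c := by positivity
    have h6 : 0 ≤ x ^ 2 * A2 + 2 * x * AB + B2 := by
      rw [← h3]
      positivity
    have h7 : β ^ 2 / c * (x * A1 + B1) ^ 2 ≤ β ^ 2 / c * (m * (x ^ 2 * A2 + 2 * x * AB + B2)) :=
      mul_le_mul_of_nonneg_left h1 h5
    have h8 : (β ^ 2 / c * m) * (x ^ 2 * A2 + 2 * x * AB + B2) ≤ 1 * (x ^ 2 * A2 + 2 * x * AB + B2) :=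
      mul_le_mul_of_nonneg_right h4 h6
    linarith
  have hdisc := discrim_le_zero hN
  rw [discrim] at hdisc
  set NP := A2 - β ^ 2 / c * A1 ^ 2 with hNP
  set NQ := B2 - β ^ 2 / c * B1 ^ 2 with hNQ
  set NPQ := AB - β ^ 2 / c * A1 * B1 with hNPQ
  have hcc : c ≠ 0 := hαβ.ne'
  have hβc : β ^ 2 / c = 1 - α ^ 2 / c := by
    have hb2 : β ^ 2 = c - α ^ 2 := by rw [hc]; ring
    rw [hb2]
    field_simp
  -- the linear form
  set lP : ℝ := 1 - α / c * A1 with hlP
  set lQ : ℝ := -(α / c * B1) with hlQ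
  have q1 : c * lP ^ 2 - NP = η ^ 2 * (B1 ^ 2 - B2) := by
    have e0 : c * lP ^ 2 - NP = c - 2 * α * A1 + A1 ^ 2 - A2 := by
      rw [hlP, hNP, hβc]
      field_simp
      ring
    have e : c * lP ^ 2 - NP = (α - A1) ^ 2 + β ^ 2 - A2 := by
      rw [e0, hc]
      ring
    rw [e]
    linarith
  have q2 : c * lQ ^ 2 - NQ = B1 ^ 2 - B2 := by
    rw [hlQ, hNQ, hβc]
    field_simp
    ring
  have q3 : c * (lP * lQ) = NPQ := by
    have e : c * (lP * lQ) - NPQ = -((α - A1) * B1 + AB) := by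
      rw [hlP, hlQ, hNPQ, hβc]
      field_simp
      ring
    rw [him, neg_zero] at e
    linarith
  have hNP0 : 0 ≤ NP := by
    have h1 : A1 ^ 2 ≤ m * A2 := by
      have := sq_sum_le_card_mul_sum_sq (s := (Finset.univ : Finset (Fin m))) (f := a)
      simpa using this
    have h4 : β ^ 2 / c * m ≤ 1 := by
      rw [div_mul_eq_mul_div, div_le_one hαβ, hc]
      linarith
    have h5 : 0 ≤ β ^ 2 / c := by positivity
    have h6 : 0 ≤ A2 := Finset.sum_nonneg fun j _ => sq_nonneg _
    have h7 := mul_le_mul_of_nonneg_left h1 h5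
    have h8 := mul_le_mul_of_nonneg_right h4 h6
    rw [hNP]
    linarith
  have hNQ0 : 0 ≤ NQ := by
    have := hN 0
    simpa using this
  have p1 : NP < c * lP ^ 2 := by
    have : 0 < η ^ 2 * (B1 ^ 2 - B2) := mul_pos hη2 (by linarith)
    linarith
  have p2 : NQ < c * lQ ^ 2 := by linarith
  have p3 : NP * NQ < (c * lP ^ 2) * (c * lQ ^ 2) := by
    have : 0 < c * lQ ^ 2 := lt_of_le_of_lt hNQ0 p2
    nlinarith
  have p4 : (c * lP ^ 2) * (c * lQ ^ 2) = NPQ ^ 2 := by
    rw [← q3]
    ring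
  nlinarith

/-- quadratic factors -/
theorem split_two {A : ℝ[X]} (hA : A.Splits) {m : ℕ} (hm : A.natDegree ≤ m) {α β : ℝ}
    (h : ((m : ℝ) - 1) * β ^ 2 ≤ α ^ 2) :
    (derivative (derivative A) - C (2 * α) * derivative A + C (α ^ 2 + β ^ 2) * A).Splits := by
  by_cases hA0 : A.leadingCoeff = 0
  · rw [leadingCoeff_eq_zero] at hA0
    rw [hA0]
    simp
  rcases eq_or_lt_of_le (show 0 ≤ α ^ 2 + β ^ 2 by positivity) with h0 | hαβ
  · have hα : α = 0 := by nlinarith [sq_nonneg α, sq_nonneg β]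
    rw [← h0, hα]
    have h1 := split_one (split_one hA 0) 0
    simpa using h1
  obtain ⟨N, r, hN, hform⟩ := split_form hA
  set P : ℝ[X] := ∏ j, (X - C (r j)) with hP
  have hPd : P.natDegree = N := by
    rw [hP, natDegree_prod_of_monic _ _ fun j _ => monic_X_sub_C _]
    simp
  have e : derivative (derivative A) - C (2 * α) * derivative A + C (α ^ 2 + β ^ 2) * A =
      C A.leadingCoeff * (derivative (derivative P) - C (2 * α) * derivative P + C (α ^ 2 + β ^ 2) * P) := by
    conv_lhs => rw [hform]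
    rw [derivative_C_mul, derivative_C_mul]
    ring
  rw [e]
  apply Splits.C_mul
  rcases Nat.lt_or_ge N 2 with hN2 | hN2
  · apply Splits.of_natDegree_le_one
    have hPd1 : P.natDegree ≤ 1 := by omega
    have d1 : (derivative P).natDegree ≤ 1 := (natDegree_derivative_le P).trans (by omega)
    have d2 : (derivative (derivative P)).natDegree ≤ 1 := (natDegree_derivative_le _).trans (by omega)
    refine (natDegree_add_le _ _).trans (max_le ((natDegree_sub_le _ _).trans (max_le d2 ?_)) ?_)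
    · exact (natDegree_C_mul_le _ _).trans d1
    · exact (natDegree_C_mul_le _ _).trans hPd1
  apply splits_of_im
  intro y hy
  by_contra himy
  obtain ⟨h0, h1, h2⟩ := ev_der Finset.univ r himy
  rw [← hP] at h0 h1 h2
  simp only [map_add, map_sub, map_mul, map_pow, aeval_C, h1, h2, Complex.coe_algebraMap] at hy
  set S : ℂ := ∑ j, (y - r j)⁻¹ with hS
  set T : ℂ := ∑ j, ((y - r j)⁻¹) ^ 2 with hT
  have h3 : (α - S) ^ 2 + β ^ 2 - T = 0 := by
    have : aeval y P * ((α - S) ^ 2 + β ^ 2 - T) = 0 := by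
      push_cast at hy
      linear_combination hy
    exact (mul_eq_zero.mp this).resolve_left h0
  have hpos : ∀ j, 0 < (normSq (y - r j))⁻¹ := fun j => by
    apply inv_pos.mpr
    apply normSq_pos.mpr
    intro h
    apply himy
    have := congrArg Complex.im h
    simpa using this
  have hSre : S.re = ∑ j, ((y - r j)⁻¹).re := by rw [hS, Complex.re_sum]
  have hSim : S.im = -(y.im * ∑ j, (normSq (y - r j))⁻¹) := by
    rw [hS, Complex.im_sum, Finset.mul_sum, ← Finset.sum_neg_distrib]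
    exact Finset.sum_congr rfl fun j _ => inv_im_form (r j)
  have hTre : T.re = ∑ j, ((y - r j)⁻¹).re ^ 2 - y.im ^ 2 * ∑ j, ((normSq (y - r j))⁻¹) ^ 2 := by
    rw [hT, Complex.re_sum, Finset.mul_sum, ← Finset.sum_sub_distrib]
    refine Finset.sum_congr rfl fun j _ => ?_
    rw [pow_two (y - r j)⁻¹, mul_re, inv_im_form]
    ring
  have hTim : T.im = -(2 * y.im * ∑ j, ((y - r j)⁻¹).re * (normSq (y - r j))⁻¹) := by
    rw [hT, Complex.im_sum, Finset.mul_sum, ← Finset.sum_neg_distrib]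
    refine Finset.sum_congr rfl fun j _ => ?_
    rw [pow_two (y - r j)⁻¹, mul_im, inv_im_form]
    ring
  have hNm : (N : ℝ) ≤ m := by
    have : N ≤ m := by omega
    exact_mod_cast this
  refine lorentz (a := fun j => ((y - r j)⁻¹).re) (p := fun j => (normSq (y - r j))⁻¹) hN2 hpos himy hαβ ?_ ?_ ?_
  · nlinarith [sq_nonneg β]
  · have h4 := congrArg Complex.re h3
    simp only [add_re, sub_re, pow_two, mul_re, sub_im, ofReal_re, ofReal_im, zero_re, mul_zero, sub_zero,
      zero_sub] at h4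
    rw [hTre, hSim, hSre] at h4
    linear_combination h4
  · have h4 := congrArg Complex.im h3
    simp only [add_im, sub_im, pow_two, mul_im, sub_re, ofReal_re, ofReal_im, zero_im, mul_zero, sub_zero,
      zero_sub, zero_mul, add_zero] at h4
    rw [hTim, hSim, hSre] at h4
    have h5 : 2 * y.im * ((α - ∑ j, ((y - r j)⁻¹).re) * ∑ j, (normSq (y - r j))⁻¹ +
        ∑ j, ((y - r j)⁻¹).re * (normSq (y - r j))⁻¹) = 0 := by
      linear_combination h4
    exact (mul_eq_zero.mp h5).resolve_left (mul_ne_zero two_ne_zero himy)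

end H73.JP
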