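import Pool.Agent.Helper73.JP.K
import Pool.Agent.Helper73.JP.J

set_option autoImplicit false

open Complex Set Filter Topology Polynomial
open scoped ComplexConjugate

namespace H73.JP

/-- the differential operator attached to a polynomial -/
noncomputable def op (p : ℝ[X]) : Module.End ℝ ℝ[X] := aeval (Polynomial.derivative : Module.End ℝ ℝ[X]) p

lemma op_mul (p q A : ℝ[X]) : op (p * q) A = op p (op q A) := by
  simp [op, map_mul, Module.End.mul_apply]

lemma op_lin (r : ℝ) (A : ℝ[X]) : op (X - C r) A = derivative A - C r * A := by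
  simp [op, Polynomial.smul_eq_C_mul, Algebra.algebraMap_eq_smul_one]

lemma op_C (c : ℝ) (A : ℝ[X]) : op (C c) A = C c * A := by
  simp [op, Polynomial.smul_eq_C_mul, Algebra.algebraMap_eq_smul_one]

lemma op_quad (α β : ℝ) (A : ℝ[X]) : op (X ^ 2 - C (2 * α) * X + C (α ^ 2 + β ^ 2)) A =
    derivative (derivative A) - C (2 * α) * derivative A + C (α ^ 2 + β ^ 2) * A := by
  have e : (X ^ 2 - C (2 * α) * X + C (α ^ 2 + β ^ 2) : ℝ[X]) = X * X - C (2 * α) * X + C (α ^ 2 + β ^ 2) := by
    ring
  rw [e]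
  unfold op
  rw [map_add, map_sub, map_mul, map_mul, aeval_X]
  rw [LinearMap.add_apply, LinearMap.sub_apply, Module.End.mul_apply, Module.End.mul_apply]
  have h1 := op_C (2 * α) (derivative A)
  have h2 := op_C (α ^ 2 + β ^ 2) A
  unfold op at h1 h2
  rw [h1, h2]

/-- the quadratic factor of a pair of conjugate numbers -/
noncomputable def quad (u : ℂ) : ℝ[X] := X ^ 2 - C (2 * u.re) * X + C (u.re ^ 2 + u.im ^ 2)

/-- product of linear and quadratic factors -/
noncomputable def fac (l1 : List ℝ) (l2 : List ℂ) : ℝ[X] := (l1.map fun r => X - C r).prod * (l2.map quad).prod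

lemma op_fac {d : ℕ} (l1 : List ℝ) (l2 : List ℂ) (h : ∀ u ∈ l2, ((d : ℝ) - 1) * u.im ^ 2 ≤ u.re ^ 2) :
    ∀ A : ℝ[X], A.Splits → A.natDegree ≤ d → (op (fac l1 l2) A).Splits ∧ (op (fac l1 l2) A).natDegree ≤ d := by
  have h2 : ∀ A : ℝ[X], A.Splits → A.natDegree ≤ d →
      (op (l2.map quad).prod A).Splits ∧ (op (l2.map quad).prod A).natDegree ≤ d := by
    induction l2 with
    | nil =>
      intro A hA hd
      have : op (([] : List ℂ).map quad).prod A = A := by
        simp [op]
      rw [this]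
      exact ⟨hA, hd⟩
    | cons u l ih =>
      intro A hA hd
      obtain ⟨i1, i2⟩ := ih (fun v hv => h v (List.mem_cons_of_mem u hv)) A hA hd
      rw [List.map_cons, List.prod_cons, op_mul, quad, op_quad]
      refine ⟨split_two i1 i2 (h u List.mem_cons_self), ?_⟩
      set B := op (l.map quad).prod A
      have d1 : (derivative B).natDegree ≤ d := (natDegree_derivative_le B).trans (by omega)
      have d2 : (derivative (derivative B)).natDegree ≤ d := (natDegree_derivative_le _).trans (by omega)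
      refine (natDegree_add_le _ _).trans (max_le ((natDegree_sub_le _ _).trans (max_le d2 ?_)) ?_)
      · exact (natDegree_C_mul_le _ _).trans d1
      · exact (natDegree_C_mul_le _ _).trans i2
  unfold fac
  induction l1 with
  | nil =>
    intro A hA hd
    simpa using h2 A hA hd
  | cons r l ih =>
    intro A hA hd
    obtain ⟨i1, i2⟩ := ih A hA hd
    rw [List.map_cons, List.prod_cons, mul_assoc, op_mul, op_lin]
    set B := op ((l.map fun r => X - C r).prod * (l2.map quad).prod) A
    refine ⟨split_one i1 r, ?_⟩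
    have d1 : (derivative B).natDegree ≤ d := (natDegree_derivative_le B).trans (by omega)
    exact (natDegree_sub_le _ _).trans (max_le d1 ((natDegree_C_mul_le _ _).trans i2))

/-- the Jensen polynomial of a polynomial -/
noncomputable def Jp (d : ℕ) (p : ℝ[X]) : ℝ[X] :=
  ∑ j ∈ Finset.range (d + 1), C (d.choose j * (j.factorial * p.coeff j)) * X ^ j

lemma Jp_rev (d : ℕ) (p : ℝ[X]) {z : ℂ} (hz : z ≠ 0) :
    aeval z (Jp d p) = z ^ d * aeval z⁻¹ (op p (X ^ d)) := by
  set f : ℕ → ℂ := fun i => (p.coeff i : ℂ) * (d.descFactorial i : ℂ) * z ^ i with hf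
  have h1 : aeval z (Jp d p) = ∑ i ∈ Finset.range (d + 1), f i := by
    unfold Jp
    rw [map_sum]
    refine Finset.sum_congr rfl fun i _ => ?_
    rw [map_mul, aeval_C, map_pow, aeval_X, Complex.coe_algebraMap]
    simp only [hf]
    rw [Nat.descFactorial_eq_factorial_mul_choose]
    push_cast
    ring
  have h2 : z ^ d * aeval z⁻¹ (op p (X ^ d)) = ∑ i ∈ Finset.range (p.natDegree + 1), f i := by
    unfold op
    rw [aeval_eq_sum_range (p := p) (Polynomial.derivative : Module.End ℝ ℝ[X]), LinearMap.sum_apply, map_sum,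
      Finset.mul_sum]
    refine Finset.sum_congr rfl fun i _ => ?_
    rw [LinearMap.smul_apply, Module.End.pow_apply, Polynomial.iterate_derivative_X_pow_eq_smul]
    simp only [hf]
    rcases le_or_gt i d with hi | hi
    · rw [map_smul, map_smul, map_pow, aeval_X]
      have hzp : z ^ d = z ^ (d - i) * z ^ i := by rw [← pow_add]; congr 1; omega
      rw [hzp, inv_pow]
      have : z ^ (d - i) ≠ 0 := pow_ne_zero _ hz
      simp only [Complex.real_smul]
      push_cast
      field_simp
    · rw [Nat.descFactorial_eq_zero_iff_lt.mpr hi]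
      simp
  rw [h1, h2]
  have h3 : ∑ i ∈ Finset.range (d + 1), f i = ∑ i ∈ Finset.range (d + p.natDegree + 1), f i := by
    apply Finset.sum_subset
    · exact Finset.range_subset_range.mpr (by omega)
    · intro i _ hi
      rw [Finset.mem_range, not_lt] at hi
      simp only [hf]
      rw [Nat.descFactorial_eq_zero_iff_lt.mpr (by omega)]
      simp
  have h4 : ∑ i ∈ Finset.range (p.natDegree + 1), f i = ∑ i ∈ Finset.range (d + p.natDegree + 1), f i := by
    apply Finset.sum_subset
    · exact Finset.range_subset_range.mpr (by omega)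
    · intro i _ hi
      rw [Finset.mem_range, not_lt] at hi
      simp only [hf]
      rw [coeff_eq_zero_of_natDegree_lt (by omega)]
      simp
  rw [h3, h4]

lemma im_of_splits {A : ℝ[X]} (hA : A.Splits) (hA0 : A ≠ 0) {z : ℂ} (hz : aeval z A = 0) : z.im = 0 := by
  by_contra him
  obtain ⟨m, r, -, hform⟩ := split_form hA
  obtain ⟨h0, -, -⟩ := ev_der Finset.univ r him
  rw [hform, map_mul, aeval_C, Complex.coe_algebraMap] at hz
  rcases mul_eq_zero.mp hz with h | h
  · exact hA0 (leadingCoeff_eq_zero.mp (by exact_mod_cast h))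
  · exact h0 h

lemma poly_zero_of_real {Q : ℝ[X]} (h : ∀ x : ℝ, aeval (x : ℂ) Q = 0) : Q = 0 := by
  apply Polynomial.funext
  intro x
  have h1 := h x
  have h2 : aeval (x : ℂ) Q = ((Q.eval x : ℝ) : ℂ) := by
    have := Polynomial.aeval_algebraMap_apply ℂ x Q
    rw [Complex.coe_algebraMap] at this
    rw [this]
    simp
  rw [h2] at h1
  rw [eval_zero]
  exact_mod_cast h1

lemma Jp_splits {d : ℕ} (c : ℝ) (l1 : List ℝ) (l2 : List ℂ)
    (h : ∀ u ∈ l2, ((d : ℝ) - 1) * u.im ^ 2 ≤ u.re ^ 2) : (Jp d (C c * fac l1 l2)).Splits := by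
  by_cases hJ : Jp d (C c * fac l1 l2) = 0
  · rw [hJ]
    exact Splits.zero
  have h1 := (op_fac l1 l2 h (X ^ d) (Splits.X_pow d) (by simp)).1
  have h2 : (op (C c * fac l1 l2) (X ^ d)).Splits := by
    rw [op_mul, op_C]
    exact Splits.C_mul h1 c
  have h3 : op (C c * fac l1 l2) (X ^ d) ≠ 0 := fun h0 => by
    apply hJ
    have h4 : X * Jp d (C c * fac l1 l2) = 0 := by
      apply poly_zero_of_real
      intro x
      rcases eq_or_ne x 0 with rfl | hx
      · simp
      · rw [map_mul, Jp_rev d _ (by exact_mod_cast hx), h0]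
        simp
    rcases mul_eq_zero.mp h4 with h5 | h5
    · exact absurd h5 X_ne_zero
    · exact h5
  apply splits_of_im
  intro z hz
  rcases eq_or_ne z 0 with rfl | hz0
  · rfl
  rw [Jp_rev d _ hz0] at hz
  have h4 : aeval z⁻¹ (op (C c * fac l1 l2) (X ^ d)) = 0 := (mul_eq_zero.mp hz).resolve_left (pow_ne_zero _ hz0)
  have h5 := im_of_splits h2 h3 h4
  rw [Complex.inv_im] at h5
  have h6 : normSq z ≠ 0 := (normSq_pos.mpr hz0).ne'
  have h7 := (div_eq_zero_iff.mp h5).resolve_right h6
  linarith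

/-- a limit of polynomials with only real zeros has only real zeros -/
lemma closure {d : ℕ} {q : ℕ → ℝ[X]} {Q : ℝ[X]} (hq : ∀ k, (q k).Splits) (hd : ∀ k, (q k).natDegree ≤ d)
    (hlim : ∀ z : ℂ, Tendsto (fun k => aeval z (q k)) atTop (𝓝 (aeval z Q))) : Q.Splits := by
  by_cases hQ0 : Q = 0
  · rw [hQ0]
    exact Splits.zero
  apply splits_of_im
  by_contra hcon
  push Not at hcon
  obtain ⟨z0, hz0, him⟩ := hcon
  apply hQ0
  apply poly_zero_of_real
  intro x
  have hη : 0 < |z0.im| := abs_pos.mpr him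
  set B : ℝ := 1 + ‖(x : ℂ) - z0‖ / |z0.im| with hB
  have hB1 : 1 ≤ B := by
    rw [hB]
    have : 0 ≤ ‖(x : ℂ) - z0‖ / |z0.im| := by positivity
    linarith
  have hbd : ∀ k, ‖aeval (x : ℂ) (q k)‖ ≤ ‖aeval z0 (q k)‖ * B ^ d := by
    intro k
    obtain ⟨m, r, hm, hform⟩ := split_form (hq k)
    have e : ∀ y : ℂ, aeval y (q k) = (q k).leadingCoeff * ∏ j, (y - r j) := fun y => by
      conv_lhs => rw [hform]
      rw [map_mul, aeval_C, Complex.coe_algebraMap, aeval_prod_form]
    rw [e, e, norm_mul, norm_mul, norm_prod, norm_prod, mul_assoc]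
    apply mul_le_mul_of_nonneg_left _ (norm_nonneg _)
    have hj : ∀ j, ‖(x : ℂ) - r j‖ ≤ ‖z0 - r j‖ * B := fun j => by
      have h1 : |z0.im| ≤ ‖z0 - r j‖ := by
        have := Complex.abs_im_le_norm (z0 - r j)
        simpa using this
      have h2 : ‖(x : ℂ) - r j‖ ≤ ‖z0 - r j‖ + ‖(x : ℂ) - z0‖ := by
        have := norm_add_le (z0 - r j) ((x : ℂ) - z0)
        have e2 : z0 - r j + ((x : ℂ) - z0) = (x : ℂ) - r j := by ring
        rwa [e2] at this
      have h3 : ‖(x : ℂ) - z0‖ ≤ ‖z0 - r j‖ * (‖(x : ℂ) - z0‖ / |z0.im|) := by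
        rw [mul_div_assoc', le_div_iff₀ hη, mul_comm]
        exact mul_le_mul_of_nonneg_right h1 (norm_nonneg _)
      rw [hB]
      linarith
    calc ∏ j, ‖(x : ℂ) - r j‖ ≤ ∏ j, (‖z0 - r j‖ * B) :=
          Finset.prod_le_prod (fun j _ => norm_nonneg _) fun j _ => hj j
      _ = (∏ j, ‖z0 - r j‖) * B ^ m := by
          rw [Finset.prod_mul_distrib]
          simp
      _ ≤ (∏ j, ‖z0 - r j‖) * B ^ d := by
          apply mul_le_mul_of_nonneg_left _ (Finset.prod_nonneg fun j _ => norm_nonneg _)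
          exact pow_le_pow_right₀ hB1 (by rw [hm]; exact hd k)
  have l1 := (hlim x).norm
  have l2 := ((hlim z0).norm.mul_const (B ^ d))
  rw [hz0, norm_zero, zero_mul] at l2
  have := le_of_tendsto_of_tendsto' l1 l2 hbd
  exact norm_le_zero_iff.mp this

end H73.JP
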