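import Pool.Agent.Helper73.JP.L

set_option autoImplicit false

open Complex Set Filter Topology Polynomial Metric
open scoped ComplexConjugate

namespace H73.JP

/-- Jensen polynomial of an entire function, real coefficients -/
noncomputable def JQ (d : ℕ) (g : ℂ → ℂ) : ℝ[X] :=
  ∑ j ∈ Finset.range (d + 1), C (d.choose j * (iteratedDeriv j g 0).re) * X ^ j

lemma iter_poly (p : ℝ[X]) (j : ℕ) (z : ℂ) :
    iteratedDeriv j (fun x : ℂ => aeval x p) z = aeval z (derivative^[j] p) := by
  induction j generalizing z with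
  | zero => simp
  | succ j ih =>
    rw [iteratedDeriv_succ]
    have e : iteratedDeriv j (fun x : ℂ => aeval x p) = fun x : ℂ => aeval x (derivative^[j] p) := funext ih
    rw [e, Polynomial.deriv_aeval, Function.iterate_succ_apply']

lemma iter_poly_zero (p : ℝ[X]) (j : ℕ) :
    iteratedDeriv j (fun x : ℂ => aeval x p) 0 = ((j.factorial * p.coeff j : ℝ) : ℂ) := by
  rw [iter_poly, ← coeff_zero_eq_aeval_zero', coeff_iterate_derivative, Complex.coe_algebraMap]
  simp [Nat.descFactorial_self]

lemma lin_prod (a : ℝ) (l : List ℝ) (h : ∀ r ∈ l, r ≠ 0) : ∃ c : ℝ, ∀ z : ℂ,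
    (l.map fun r : ℝ => 1 - (z - a) / (r : ℂ)).prod =
      c * aeval z ((l.map fun r : ℝ => a + r).map fun r => X - C r).prod := by
  induction l with
  | nil => exact ⟨1, fun z => by simp⟩
  | cons r l ih =>
    obtain ⟨c, hc⟩ := ih fun r hr => h r (List.mem_cons_of_mem _ hr)
    have hr := h r List.mem_cons_self
    have hrc : (r : ℂ) ≠ 0 := by exact_mod_cast hr
    refine ⟨-(1 / r) * c, fun z => ?_⟩
    simp only [List.map_cons, List.prod_cons, map_mul, map_sub, aeval_X, aeval_C]
    rw [hc z, Complex.coe_algebraMap]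
    push_cast
    field_simp
    ring

lemma quad_eval (u z : ℂ) : aeval z (quad u) = (z - u) * (z - conj u) := by
  unfold quad
  simp only [map_add, map_sub, map_mul, map_pow, aeval_X, aeval_C, Complex.coe_algebraMap]
  have h1 : u + conj u = 2 * u.re := by rw [Complex.add_conj]; push_cast; ring
  have h2 : u * conj u = u.re ^ 2 + u.im ^ 2 := by
    rw [Complex.mul_conj, normSq_apply]
    push_cast
    ring
  push_cast
  linear_combination z * h1 - h2

lemma quad_prod (a : ℝ) (l : List ℂ) (h : ∀ u ∈ l, u.im ≠ 0) : ∃ c : ℝ, ∀ z : ℂ,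
    (l.map fun u => (1 - (z - a) / u) * (1 - (z - a) / conj u)).prod =
      c * aeval z ((l.map fun u => (a : ℂ) + u).map quad).prod := by
  induction l with
  | nil => exact ⟨1, fun z => by simp⟩
  | cons u l ih =>
    obtain ⟨c, hc⟩ := ih fun r hr => h r (List.mem_cons_of_mem _ hr)
    have hu := h u List.mem_cons_self
    have hu0 : u ≠ 0 := fun h0 => hu (by rw [h0]; rfl)
    have hcu0 : conj u ≠ 0 := (_root_.map_ne_zero _).mpr hu0
    refine ⟨1 / normSq u * c, fun z => ?_⟩
    simp only [List.map_cons, List.prod_cons, map_mul, quad_eval]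
    rw [hc z]
    have hn : ((normSq u : ℝ) : ℂ) = u * conj u := (Complex.mul_conj u).symm
    push_cast
    rw [hn, map_add, Complex.conj_ofReal]
    field_simp
    ring

/-- real entire functions of slow growth whose zeros lie in a sector have hyperbolic Jensen polynomials -/
theorem hyper {b : ℝ} {g : ℂ → ℂ} (h : EC b g) {d : ℕ}
    (hsec : ∀ ρ : ℂ, ρ.im ≠ 0 → g ρ = 0 → ((d : ℝ) - 1) * ρ.im ^ 2 ≤ ρ.re ^ 2) : (JQ d g).Splits := by
  by_cases hne : ∃ z, g z ≠ 0
  swap
  · push Not at hne
    have : g = fun _ => 0 := funext hne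
    have e : JQ d g = 0 := by
      unfold JQ
      rw [this]
      apply Finset.sum_eq_zero
      intro j _
      simp
    rw [e]
    exact Splits.zero
  obtain ⟨a, ha⟩ := exists_real_ne h.diff hne
  have hga : g a = ((g a).re : ℂ) := by
    have := h.real a
    rw [Complex.conj_ofReal] at this
    exact (Complex.conj_eq_iff_real.mp this.symm).elim fun r hr => by rw [hr]; simp
  set R : ℝ := 1 + |a| with hR
  have hR0 : 0 < R := by positivity
  obtain ⟨M, hM⟩ := (isCompact_closedBall (0 : ℂ) 1).exists_bound_of_continuousOn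
    (f := g) h.diff.continuous.continuousOn
  -- approximating polynomials
  have happ : ∀ ε : ℝ, 0 < ε → ε * R ≤ 1 → ∃ (c : ℝ) (l1 : List ℝ) (l2 : List ℂ),
      (∀ u ∈ l2, ((d : ℝ) - 1) * u.im ^ 2 ≤ u.re ^ 2) ∧
      ∀ z : ℂ, ‖z‖ ≤ 1 → ‖aeval z (C c * fac l1 l2) - g z‖ ≤ M * (2 * (ε * R)) := by
    intro ε hε hεR
    obtain ⟨l1, l2, G, hG, hG0, hFG, hnz, hl1, hl2, -, hL⟩ := approx_fac h ha hε (R := R) hR0
    have hl1' : ∀ r ∈ l1, r ≠ 0 := fun r hr h0 => by
      have := hl1 r hr
      rw [h0, ofReal_zero, add_zero] at this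
      exact ha this
    obtain ⟨c1, hc1⟩ := lin_prod a l1 hl1'
    obtain ⟨c2, hc2⟩ := quad_prod a l2 fun u hu => (hl2 u hu).1
    refine ⟨(g a).re * c1 * c2, l1.map fun r : ℝ => a + r, l2.map fun u => (a : ℂ) + u, fun u hu => ?_,
      fun z hz => ?_⟩
    · obtain ⟨v, hv, rfl⟩ := List.mem_map.mp hu
      exact hsec _ (by simpa using (hl2 v hv).1) (hl2 v hv).2
    · have hw : ‖z - a‖ ≤ R := by
        have := norm_sub_le z a
        rw [Complex.norm_real, Real.norm_eq_abs] at this
        linarith
      obtain ⟨L, hL1, hL2⟩ := hL (z - a) hw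
      have e1 : aeval z (C ((g a).re * c1 * c2) * fac (l1.map fun r : ℝ => a + r) (l2.map fun u => (a : ℂ) + u)) =
          g z * cexp (-L) := by
        have h1 := hFG (z - a)
        rw [add_sub_cancel, hc1, hc2, hL2, hG0] at h1
        rw [h1]
        unfold fac
        rw [map_mul, map_mul (aeval z) (List.prod _) _, aeval_C, Complex.coe_algebraMap, hga]
        have h2 : cexp L * cexp (-L) = 1 := by rw [← Complex.exp_add, add_neg_cancel, Complex.exp_zero]
        push_cast
        rw [ofReal_re]
        linear_combination (-(c1 * aeval z ((l1.map fun r : ℝ => a + r).map fun r => X - C r).prod *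
          (c2 * aeval z ((l2.map fun u => (a : ℂ) + u).map quad).prod) * ((g a).re : ℂ))) * h2
      rw [e1]
      have e2 : g z * cexp (-L) - g z = g z * (cexp (-L) - 1) := by ring
      rw [e2, norm_mul]
      have hLn : ‖-L‖ ≤ ε * R := by
        rw [norm_neg]
        exact hL1.trans (mul_le_mul_of_nonneg_left hw hε.le)
      have h3 := Complex.norm_exp_sub_one_le (x := -L) (hLn.trans hεR)
      have h4 := hM z (by simpa using hz)
      exact mul_le_mul h4 (h3.trans (by linarith)) (norm_nonneg _) ((norm_nonneg _).trans h4)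
  have hch : ∀ k : ℕ, ∃ p : ℝ[X], (Jp d p).Splits ∧
      ∀ z : ℂ, ‖z‖ ≤ 1 → ‖aeval z p - g z‖ ≤ M * (2 * (1 / ((k : ℝ) + 1))) := by
    intro k
    have hk : 0 < 1 / (((k : ℝ) + 1) * R) := by positivity
    obtain ⟨c, l1, l2, hl, hz⟩ := happ (1 / (((k : ℝ) + 1) * R)) hk (by
      rw [div_mul_eq_mul_div, one_mul, div_le_one (by positivity)]
      have : (0:ℝ) ≤ k := Nat.cast_nonneg k
      nlinarith)
    refine ⟨_, Jp_splits c l1 l2 hl, fun z hz' => ?_⟩
    refine (hz z hz').trans (le_of_eq ?_)
    congr 2
    field_simp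
  obtain ⟨p, hp⟩ := Classical.axiom_of_choice hch
  have hp1 := fun k => (hp k).1
  have hp2 := fun k => (hp k).2
  refine closure (d := d) (q := fun k => Jp d (p k)) hp1 (fun k => ?_) (fun z => ?_)
  · unfold Jp
    apply natDegree_sum_le_of_forall_le
    intro i hi
    rw [Finset.mem_range] at hi
    exact (natDegree_C_mul_X_pow_le _ _).trans (by omega)
  · -- convergence of the coefficients
    have hco : ∀ j : ℕ, Tendsto (fun k => (j.factorial * (p k).coeff j : ℝ)) atTop
        (𝓝 (iteratedDeriv j g 0).re) := by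
      intro j
      have h1 : ∀ k, |(j.factorial * (p k).coeff j : ℝ) - (iteratedDeriv j g 0).re| ≤
          j.factorial * (M * (2 * (1 / ((k : ℝ) + 1)))) := by
        intro k
        have hpd : Differentiable ℂ (fun x : ℂ => aeval x (p k)) := Polynomial.differentiable_aeval _
        have h2 : iteratedDeriv j (fun x : ℂ => aeval x (p k) - g x) 0 =
            iteratedDeriv j (fun x : ℂ => aeval x (p k)) 0 - iteratedDeriv j g 0 := by
          have := iteratedDeriv_sub (𝕜 := ℂ) (n := j) (x := 0) (f := fun x : ℂ => aeval x (p k)) (g := g)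
            (hpd.contDiff.contDiffAt) (h.diff.contDiff.contDiffAt)
          exact this
        have h3 := Complex.norm_iteratedDeriv_le_of_forall_mem_sphere_norm_le j (c := (0 : ℂ)) one_pos
          (f := fun x : ℂ => aeval x (p k) - g x) (C := M * (2 * (1 / ((k : ℝ) + 1))))
          ((hpd.sub h.diff).diffContOnCl) (fun z hz => hp2 k z (by
            rw [mem_sphere, dist_zero_right] at hz
            exact hz.le))
        rw [h2, iter_poly_zero, one_pow, div_one] at h3
        have h4 := (Complex.abs_re_le_norm _).trans h3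
        rw [sub_re, ofReal_re] at h4
        exact h4
      rw [tendsto_iff_norm_sub_tendsto_zero]
      have h5 : Tendsto (fun k : ℕ => (j.factorial : ℝ) * (M * (2 * (1 / ((k : ℝ) + 1))))) atTop (𝓝 0) := by
        have := tendsto_one_div_add_atTop_nhds_zero_nat (𝕜 := ℝ)
        have h6 := ((this.const_mul 2).const_mul M).const_mul (j.factorial : ℝ)
        simpa using h6
      exact squeeze_zero (fun k => norm_nonneg _) h1 h5
    unfold Jp JQ
    simp only [map_sum]
    apply tendsto_finset_sum
    intro j _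
    simp only [map_mul, aeval_C, map_pow, aeval_X, Complex.coe_algebraMap, Complex.ofReal_mul]
    have h1 := (Complex.continuous_ofReal.tendsto _).comp (hco j)
    have h2 := (h1.const_mul ((d.choose j : ℝ) : ℂ)).mul_const (z ^ j)
    refine h2.congr fun k => ?_
    simp only [Function.comp]
    push_cast
    ring

end H73.JP
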