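import Pool.Agent.Helper73.JP.M
import Pool.Agent.Helper73.JP.G

set_option autoImplicit false

open Complex Set Filter Topology Polynomial Metric
open scoped ComplexConjugate

namespace H73.JP

variable {b k C κ : ℝ} {G γ D : ℂ → ℂ}

lemma exists_sqrt (z : ℂ) : ∃ w : ℂ, w ^ 2 = z ∧ 0 ≤ w.im := by
  obtain ⟨w, hw⟩ := IsAlgClosed.exists_pow_nat_eq z (n := 2) (by norm_num)
  rcases le_total 0 w.im with h | h
  · exact ⟨w, hw, h⟩
  · refine ⟨-w, by rw [neg_sq]; exact hw, ?_⟩
    rw [neg_im]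
    linarith

lemma growth (h : JD b k C κ G γ D) : ∃ K : ℝ, 0 < K ∧ ∀ w : ℂ,
    ‖G w‖ ≤ K * Real.exp (C * (1 + Real.log (‖w‖ + k + 2)) * (‖w‖ + 1)) := by
  have hb := h.hb
  have hk := h.hk
  have hC := h.hC
  have hk1 : 1 ≤ k := by linarith
  have hne : γ (k + 1) ≠ 0 := h.ne _ (by
    rw [add_re, ofReal_re, one_re]
    linarith)
  have hpos : 0 < ‖γ (k + 1)‖ := norm_pos_iff.mpr hne
  refine ⟨C * ‖γ (k + 1)‖, by positivity, ?_⟩
  have hright : ∀ w : ℂ, 0 ≤ w.re →
      ‖G w‖ ≤ C * ‖γ (k + 1)‖ * Real.exp (C * (1 + Real.log (‖w‖ + k + 2)) * (‖w‖ + 1)) := by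
    intro w hw
    have h1 := h.strip w (by linarith)
    have hre : ∀ t ∈ Icc (0:ℝ) 1, 1 ≤ ((k : ℂ) + 1 + t * (w - 1)).re := fun t ht => by
      have e : ((k : ℂ) + 1 + t * (w - 1)).re = k + 1 + t * (w.re - 1) := by simp
      rw [e]
      nlinarith [ht.1, ht.2]
    have hv : ‖w - 1‖ ≤ ‖w‖ + 1 := by
      have := norm_sub_le w 1
      rwa [norm_one] at this
    have h2 := H353.E.seg_le h.gp (s := (k : ℂ) + 1) (v := w - 1)
      (A := C * (1 + Real.log (‖w‖ + k + 2)) * (‖w‖ + 1)) hre (fun t ht => ?_)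
    · have e : (k : ℂ) + 1 + (w - 1) = w + k := by ring
      rw [e] at h2
      calc ‖G w‖ ≤ C * ‖γ (w + k)‖ := h1
        _ ≤ C * (‖γ (k + 1)‖ * Real.exp (C * (1 + Real.log (‖w‖ + k + 2)) * (‖w‖ + 1))) := by gcongr
        _ = _ := by ring
    · refine (re_le_norm _).trans ?_
      rw [norm_mul]
      have h3 : ‖(k : ℂ) + 1 + t * (w - 1)‖ ≤ ‖w‖ + k + 2 := by
        have h4 := norm_add_le ((k : ℂ) + 1) (t * (w - 1))
        have h4' := norm_add_le (k : ℂ) 1
        rw [norm_one, Complex.norm_real, Real.norm_eq_abs, abs_of_pos (by linarith)] at h4'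
        have h5 : ‖(t : ℂ) * (w - 1)‖ ≤ ‖w‖ + 1 := by
          rw [norm_mul, Complex.norm_real, Real.norm_eq_abs, abs_of_nonneg ht.1]
          nlinarith [ht.1, ht.2, norm_nonneg (w - 1)]
        linarith
      have h4 := h.up _ (hre t ht)
      have h5 : Real.log ‖(k : ℂ) + 1 + t * (w - 1)‖ ≤ Real.log (‖w‖ + k + 2) :=
        Real.log_le_log (by linarith [one_le_norm (hre t ht)]) h3
      have h6 : ‖D ((k : ℂ) + 1 + t * (w - 1))‖ ≤ C * (1 + Real.log (‖w‖ + k + 2)) :=
        h4.trans (mul_le_mul_of_nonneg_left (by linarith) (by linarith))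
      exact mul_le_mul h6 hv (norm_nonneg _) ((norm_nonneg _).trans h6)
  intro w
  rcases le_total 0 w.re with hw | hw
  · exact hright w hw
  · have := hright (-w) (by rw [neg_re]; linarith)
    rwa [h.even, norm_neg] at this

lemma tend_E1 (K C k : ℝ) : Tendsto (fun ρ : ℝ => (Real.log K + C * (1 + Real.log (Real.sqrt ρ + k + 2)) *
    (Real.sqrt ρ + 1)) / ρ) atTop (𝓝 0) := by
  have hs : Tendsto (fun ρ : ℝ => Real.sqrt ρ) atTop atTop := Real.tendsto_sqrt_atTop
  have h1 : Tendsto (fun x : ℝ => (Real.log K + C * (1 + Real.log (x + k + 2)) * (x + 1)) / x ^ 2) atTop (𝓝 0) := by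
    have h0 : Tendsto (fun ρ : ℝ => ρ + (k + 2)) atTop atTop := tendsto_atTop_add_const_right _ _ tendsto_id
    have h1 : Tendsto (fun ρ : ℝ => Real.log (ρ + (k + 2)) / (ρ + (k + 2))) atTop (𝓝 0) :=
      (Real.isLittleO_log_id_atTop.tendsto_div_nhds_zero).comp h0
    have hinv : Tendsto (fun ρ : ℝ => 1 / ρ) atTop (𝓝 0) := tendsto_const_nhds.div_atTop tendsto_id
    have h2 : Tendsto (fun ρ : ℝ => Real.log K * (1 / ρ) ^ 2 + (C * (1 / ρ) +
        C * (Real.log (ρ + (k + 2)) / (ρ + (k + 2)) * (1 + (k + 2) * (1 / ρ)))) * (1 + 1 / ρ)) atTop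
        (𝓝 (Real.log K * 0 ^ 2 + (C * 0 + C * (0 * (1 + (k + 2) * 0))) * (1 + 0))) :=
      ((hinv.pow 2).const_mul _).add (((hinv.const_mul C).add
        ((h1.mul ((hinv.const_mul (k + 2)).const_add 1)).const_mul C)).mul (hinv.const_add 1))
    have e : Real.log K * 0 ^ 2 + (C * 0 + C * (0 * (1 + (k + 2) * 0))) * (1 + 0) = (0 : ℝ) := by ring
    rw [e] at h2
    refine h2.congr' ?_
    filter_upwards [eventually_gt_atTop 0, eventually_gt_atTop (-(k + 2))] with ρ hρ hρ2
    have h3 : ρ + (k + 2) ≠ 0 := by linarith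
    have h4 : ρ + k + 2 = ρ + (k + 2) := by ring
    rw [h4]
    field_simp
  have h2 := h1.comp hs
  refine h2.congr' ?_
  filter_upwards [eventually_ge_atTop 0] with ρ hρ
  simp only [Function.comp]
  rw [Real.sq_sqrt hρ]

lemma JD.ec (h : JD b k C κ G γ D) {F : ℂ → ℂ} (hF : Differentiable ℂ F) (hFG : ∀ w, F (w ^ 2) = G w) : EC b F where
  diff := hF
  real := fun z => by
    obtain ⟨w, hw, -⟩ := exists_sqrt z
    rw [← hw, hFG, ← h.real, ← hFG, map_pow]
  slow := by
    obtain ⟨K, hK, hg⟩ := growth h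
    have hk := h.hk
    have hb := h.hb
    have hC := h.hC
    refine ⟨fun ρ => Real.log K + C * (1 + Real.log (Real.sqrt ρ + k + 2)) * (Real.sqrt ρ + 1), fun x y hxy => ?_,
      tend_E1 K C k, fun z => ?_⟩
    · have h1 := Real.sqrt_le_sqrt hxy
      have h2 := Real.sqrt_nonneg x
      have h3 : Real.log (Real.sqrt x + k + 2) ≤ Real.log (Real.sqrt y + k + 2) :=
        Real.log_le_log (by linarith) (by linarith)
      have h4 : 0 ≤ Real.log (Real.sqrt x + k + 2) := Real.log_nonneg (by linarith)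
      have h5 : 0 ≤ C * (1 + Real.log (Real.sqrt y + k + 2)) := mul_nonneg (by linarith) (by linarith)
      show Real.log K + C * (1 + Real.log (Real.sqrt x + k + 2)) * (Real.sqrt x + 1) ≤
        Real.log K + C * (1 + Real.log (Real.sqrt y + k + 2)) * (Real.sqrt y + 1)
      gcongr
    · obtain ⟨w, hw, -⟩ := exists_sqrt z
      have hn : Real.sqrt ‖z‖ = ‖w‖ := by
        rw [← hw, norm_pow]
        exact Real.sqrt_sq (norm_nonneg w)
      show ‖F z‖ ≤ Real.exp (Real.log K + C * (1 + Real.log (Real.sqrt ‖z‖ + k + 2)) * (Real.sqrt ‖z‖ + 1))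
      rw [Real.exp_add, Real.exp_log hK, hn]
      have := hg w
      rwa [← hFG, hw] at this
  zer := fun z hz => by
    obtain ⟨w, hw, -⟩ := exists_sqrt z
    rw [← hw, hFG] at hz
    have h1 := h.zer w hz
    have h2 : w.re ^ 2 ≤ b ^ 2 := by
      rw [← sq_abs w.re]
      exact pow_le_pow_left₀ (abs_nonneg _) h1 2
    rw [← hw]
    have e1 : (w ^ 2).im = 2 * w.re * w.im := by
      rw [pow_two, mul_im]
      ring
    have e2 : (w ^ 2).re = w.re ^ 2 - w.im ^ 2 := by
      rw [pow_two, mul_re]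
      ring
    rw [e1, e2]
    nlinarith [mul_nonneg (sub_nonneg.mpr h2) (add_nonneg (sq_nonneg w.im) (sq_nonneg b))]

lemma par_sqrt (hb : 0 < b) {w : ℂ} (h : (w ^ 2).im ^ 2 ≤ 4 * b ^ 2 * (b ^ 2 - (w ^ 2).re)) : |w.re| ≤ b := by
  have e1 : (w ^ 2).im = 2 * w.re * w.im := by
    rw [pow_two, mul_im]
    ring
  have e2 : (w ^ 2).re = w.re ^ 2 - w.im ^ 2 := by
    rw [pow_two, mul_re]
    ring
  rw [e1, e2] at h
  have h1 : 0 ≤ (b ^ 2 - w.re ^ 2) * (w.im ^ 2 + b ^ 2) := by nlinarith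
  have h2 : 0 < w.im ^ 2 + b ^ 2 := by positivity
  have h3 : 0 ≤ b ^ 2 - w.re ^ 2 := by
    by_contra hcon
    push Not at hcon
    have := mul_neg_of_neg_of_pos hcon h2
    linarith
  exact abs_le_of_sq_le_sq (by linarith) hb.le

lemma poly_exp {A : ℝ} (hA : 0 < A) (K : ℝ) : ∀ᶠ n : ℕ in atTop,
    K * ((n : ℝ) + 1) ^ 12 ≤ Real.exp (2 * (n / A - 1)) := by
  set c : ℝ := 2 / A with hc
  have hc0 : 0 < c := by positivity
  have h1 := Real.tendsto_pow_mul_exp_neg_atTop_nhds_zero 12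
  have h2 : Tendsto (fun n : ℕ => c * ((n : ℝ) + 1)) atTop atTop := by
    apply Tendsto.const_mul_atTop hc0
    exact tendsto_atTop_add_const_right _ _ tendsto_natCast_atTop_atTop
  have h3 := h1.comp h2
  set δ : ℝ := Real.exp (-(2 + c)) * c ^ 12 / (|K| + 1) with hδ
  have hδ0 : 0 < δ := by positivity
  filter_upwards [h3.eventually (gt_mem_nhds hδ0)] with n hn
  simp only [Function.comp] at hn
  have hE : Real.exp (2 * ((n:ℝ) / A - 1)) = Real.exp (c * ((n:ℝ) + 1)) * Real.exp (-(2 + c)) := by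
    rw [← Real.exp_add]
    congr 1
    rw [hc]
    field_simp
    ring
  rw [hE]
  rw [Real.exp_neg, hδ, lt_div_iff₀ (by positivity)] at hn
  have hep := Real.exp_pos (c * ((n:ℝ) + 1))
  have h5 : (c * ((n:ℝ) + 1)) ^ 12 * (|K| + 1) < Real.exp (-(2 + c)) * c ^ 12 * Real.exp (c * ((n:ℝ) + 1)) := by
    have := mul_lt_mul_of_pos_right hn hep
    have e : (c * ((n:ℝ) + 1)) ^ 12 * (Real.exp (c * ((n:ℝ) + 1)))⁻¹ * (|K| + 1) * Real.exp (c * ((n:ℝ) + 1)) =
        (c * ((n:ℝ) + 1)) ^ 12 * (|K| + 1) := by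
      field_simp
    rwa [e] at this
  rw [mul_pow] at h5
  have h6 : ((n:ℝ) + 1) ^ 12 * (|K| + 1) < Real.exp (-(2 + c)) * Real.exp (c * ((n:ℝ) + 1)) := by
    have hc12 : 0 < c ^ 12 := by positivity
    have e : c ^ 12 * (((n:ℝ) + 1) ^ 12 * (|K| + 1)) < c ^ 12 * (Real.exp (-(2 + c)) * Real.exp (c * ((n:ℝ) + 1))) := by
      linarith
    exact lt_of_mul_lt_mul_left e hc12.le
  have h7 : K ≤ |K| + 1 := by linarith [le_abs_self K]
  have h8 : K * ((n:ℝ) + 1) ^ 12 ≤ (|K| + 1) * ((n:ℝ) + 1) ^ 12 := by gcongr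
  linarith

/-- the general theorem on zeros of high derivatives in the variable `w ^ 2` -/
theorem zeros_high (h : JD b k C κ G γ D) {F : ℂ → ℂ} (hF : Differentiable ℂ F) (hFG : ∀ w, F (w ^ 2) = G w) :
    (∀ n, ∃ z, iteratedDeriv n F z ≠ 0) ∧
    ∃ A : ℝ, 0 < A ∧ ∃ N : ℕ, ∀ n, N ≤ n → ∀ x, iteratedDeriv n F x = 0 →
      ‖x‖ ≤ Real.exp (2 * (n / A - 1)) → x.im = 0 := by
  obtain ⟨A, hA, N, hloc⟩ := local_thm h hF hFG
  have hb := h.hb
  have hec := h.ec hF hFG
  set U : ℕ → ℝ := fun n => Real.exp (2 * (n / A - 1)) with hU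
  set Lo : ℕ → ℝ := fun n => (n : ℝ) ^ 12 + b ^ 2 with hLo
  have hbig : ∀ᶠ n : ℕ in atTop, 3 * Lo (n + 1) + 10 * b ^ 2 + 1 ≤ U n := by
    filter_upwards [poly_exp hA (3 + 13 * b ^ 2 + 1)] with n hn
    have h1 : (1:ℝ) ≤ ((n:ℝ) + 1) ^ 12 := by
      have : (0:ℝ) ≤ n := Nat.cast_nonneg n
      exact one_le_pow₀ (by linarith)
    simp only [hLo, hU]
    push_cast
    nlinarith [sq_nonneg b]
  obtain ⟨n0, hn0⟩ := eventually_atTop.mp hbig
  -- nonvanishing
  have hne : ∀ n, ∃ z, iteratedDeriv n F z ≠ 0 := by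
    intro n
    by_contra hcon
    push Not at hcon
    have hall : ∀ j, iteratedDeriv (n + j) F = fun _ => 0 := by
      intro j
      rw [← iter_iter]
      have : iteratedDeriv n F = fun _ => 0 := funext hcon
      rw [this]
      funext z
      simp
    set m : ℕ := n + (N + n0) with hm
    have hm0 := hn0 m (by omega)
    set y : ℝ := Real.exp (m / A - 1) with hy
    have hyU : y ^ 2 = U m := by
      simp only [hU, hy]
      rw [← Real.exp_nat_mul]
      congr 1
    have hym : (m : ℝ) ^ 6 ≤ y := by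
      refine (le_abs_self _).trans (abs_le_of_sq_le_sq ?_ (Real.exp_pos _).le)
      have e : ((m : ℝ) ^ 6) ^ 2 = (m : ℝ) ^ 12 := by ring
      rw [hyU, e]
      simp only [hLo] at hm0
      push_cast at hm0
      have h2 : (m : ℝ) ^ 12 ≤ ((m : ℝ) + 1) ^ 12 := by
        have : (0:ℝ) ≤ m := Nat.cast_nonneg m
        gcongr
        linarith
      have h3 : (0:ℝ) ≤ ((m : ℝ) + 1) ^ 12 := by positivity
      nlinarith [sq_nonneg b]
    have h1 := hloc m (by omega) ((b : ℂ) + y * I) (by simp [abs_of_pos hb]) (by simpa using hym)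
      (by
        have e : ((b : ℂ) + y * I).im = y := by simp
        rw [e, hy, Real.log_exp]
        have : A * (1 + (m / A - 1)) = m := by
          field_simp
          ring
        rw [this]) (by rw [hall])
    simp at h1
    exact hb.ne' h1
  refine ⟨hne, A, hA, ?_⟩
  refine small_zeros hec hne (Lo := Lo) (U := U) (n1 := N + n0 + 1) (fun n hn x hx hL hUx => ?_)
    (fun n hn x x' hx hx' hd => ?_)
  · -- the local theorem in the variable x
    have hecn := hec.iter hne n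
    obtain ⟨v, hv, hvi⟩ := exists_sqrt x
    have hz := hecn.zer x hx
    rw [← hv] at hz
    have hvb := par_sqrt hb hz
    have hnx : ‖x‖ = v.re ^ 2 + v.im ^ 2 := by
      rw [← hv, norm_pow, ← Complex.normSq_eq_norm_sq, normSq_apply]
      ring
    have hvb2 : v.re ^ 2 ≤ b ^ 2 := by
      rw [← sq_abs v.re]
      exact pow_le_pow_left₀ (abs_nonneg _) hvb 2
    have him : (n : ℝ) ^ 6 ≤ v.im := by
      refine (le_abs_self _).trans (abs_le_of_sq_le_sq ?_ hvi)
      have e : ((n : ℝ) ^ 6) ^ 2 = (n : ℝ) ^ 12 := by ring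
      rw [e]
      simp only [hLo] at hL
      linarith
    have hvre : v.re = 0 := by
      have hnpos : 0 < n := by omega
      · have him0 : 0 < v.im := lt_of_lt_of_le (by positivity) him
        refine hloc n (by omega) v hvb him ?_ (by rw [hv]; exact hx)
        have h1 : Real.log v.im ≤ n / A - 1 := by
          rw [Real.log_le_iff_le_exp him0]
          refine (le_abs_self _).trans (abs_le_of_sq_le_sq ?_ (Real.exp_pos _).le)
          have e : Real.exp (n / A - 1) ^ 2 = U n := by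
            simp only [hU]
            rw [← Real.exp_nat_mul]
            congr 1
          rw [e]
          have := sq_nonneg v.re
          linarith
        have : A * (1 + Real.log v.im) ≤ A * (n / A) := mul_le_mul_of_nonneg_left (by linarith) hA.le
        have e : A * ((n:ℝ) / A) = n := by field_simp
        linarith
    have e : (v ^ 2).im = 2 * v.re * v.im := by
      rw [pow_two, mul_im]
      ring
    rw [← hv, e, hvre]
    ring
  · -- the step
    have h1 := hn0 n (by omega)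
    set M : ℝ := b ^ 2 + Lo (n + 1) with hM
    have hLo0 : 0 ≤ Lo (n + 1) := by simp only [hLo]; positivity
    have hM0 : 0 < M := by positivity
    set s : ℝ := |x'.im| with hs
    have hs0 : 0 ≤ s := abs_nonneg _
    have hs2 : x'.im ^ 2 = s ^ 2 := (sq_abs _).symm
    rw [hs2] at hx' hd
    have hre : |x'.re| ≤ Lo (n + 1) + s := by
      have h2 : |x.re - x'.re| ≤ s := by
        apply abs_le_of_sq_le_sq _ hs0
        nlinarith [sq_nonneg x.im]
      have h3 : |x.re| ≤ Lo (n + 1) := (Complex.abs_re_le_norm x).trans hx.le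
      have h4 := abs_sub_abs_le_abs_sub x'.re x.re
      rw [abs_sub_comm] at h4
      linarith
    have hneg : -x'.re ≤ |x'.re| := neg_le_abs _
    have h5 : s ^ 2 ≤ 4 * b ^ 2 * (M + s) := by
      refine hx'.trans ?_
      apply mul_le_mul_of_nonneg_left _ (by positivity)
      rw [hM]
      linarith
    have h6 : s ≤ 4 * b ^ 2 + M := by
      by_contra hcon
      push Not at hcon
      nlinarith [sq_nonneg b, mul_pos hM0 hM0]
    have h7 := Complex.norm_le_abs_re_add_abs_im x'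
    rw [← hs] at h7
    have h8 : M = b ^ 2 + Lo (n + 1) := rfl
    linarith
/-- the Jensen polynomials in the logarithmic range -/
theorem jensen_log (h : JD b k C κ G γ D) {F : ℂ → ℂ} (hF : Differentiable ℂ F) (hFG : ∀ w, F (w ^ 2) = G w) :
    ∃ C0 : ℝ, 0 < C0 ∧ ∀ d n : ℕ, C0 * (1 + Real.log ((d : ℝ) + 1)) ≤ n →
      (JQ d (iteratedDeriv n F)).Splits := by
  obtain ⟨hne, A, hA, N, hz⟩ := zeros_high h hF hFG
  have hec := h.ec hF hFG
  have hb := h.hb
  set B : ℝ := 12 * b ^ 2 with hB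
  have hB0 : 0 < B := by positivity
  refine ⟨N + A * (2 + |Real.log B|), by positivity, fun d n hn => ?_⟩
  have hlog : 0 ≤ Real.log ((d : ℝ) + 1) := Real.log_nonneg (by
    have : (0:ℝ) ≤ d := Nat.cast_nonneg d
    linarith)
  have hN0 : (0:ℝ) ≤ N := Nat.cast_nonneg N
  have habs := abs_nonneg (Real.log B)
  have hAp : 0 ≤ A * (2 + |Real.log B|) := by positivity
  have hnN : N ≤ n := by
    have : (N : ℝ) ≤ n := by nlinarith
    exact_mod_cast this
  have hnA : A * (1 + (Real.log B + Real.log ((d : ℝ) + 1))) ≤ n := by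
    have h1 : A * (1 + (Real.log B + Real.log ((d : ℝ) + 1))) ≤
        A * (2 + |Real.log B|) * (1 + Real.log ((d : ℝ) + 1)) := by
      have h2 : 1 + (Real.log B + Real.log ((d : ℝ) + 1)) ≤ (2 + |Real.log B|) * (1 + Real.log ((d : ℝ) + 1)) := by
        have := le_abs_self (Real.log B)
        nlinarith [mul_nonneg habs hlog]
      calc A * (1 + (Real.log B + Real.log ((d : ℝ) + 1))) ≤
            A * ((2 + |Real.log B|) * (1 + Real.log ((d : ℝ) + 1))) := mul_le_mul_of_nonneg_left h2 hA.le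
        _ = _ := by ring
    have h3 : 0 ≤ (N : ℝ) * (1 + Real.log ((d : ℝ) + 1)) := by positivity
    linarith
  have hU : B * ((d : ℝ) + 1) ≤ Real.exp (2 * (n / A - 1)) := by
    have hd1 : (0:ℝ) < (d : ℝ) + 1 := by positivity
    rw [← Real.log_le_iff_le_exp (by positivity), Real.log_mul hB0.ne' hd1.ne']
    have h1 : 1 + (Real.log B + Real.log ((d : ℝ) + 1)) ≤ n / A := by
      rw [le_div_iff₀ hA, mul_comm]
      exact hnA
    have h2 : 1 ≤ (n : ℝ) / A := by
      rw [le_div_iff₀ hA, one_mul]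
      have h3 : A * (2 + |Real.log B|) ≤ A * (2 + |Real.log B|) * (1 + Real.log ((d : ℝ) + 1)) :=
        le_mul_of_one_le_right hAp (by linarith)
      have h4 : 0 ≤ (N : ℝ) * (1 + Real.log ((d : ℝ) + 1)) := by positivity
      nlinarith [mul_nonneg hA.le habs]
    linarith
  refine hyper (hec.iter hne n) fun ρ him hρ => ?_
  have hρU : Real.exp (2 * (n / A - 1)) < ‖ρ‖ := by
    by_contra hcon
    push Not at hcon
    exact him (hz n hnN ρ hρ hcon)
  have hpar := (hec.iter hne n).zer ρ hρ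
  set X : ℝ := |ρ.re| with hX
  set s : ℝ := |ρ.im| with hs
  have hX0 : 0 ≤ X := abs_nonneg _
  have hs0 : 0 ≤ s := abs_nonneg _
  have e1 : ρ.im ^ 2 = s ^ 2 := (sq_abs _).symm
  have e2 : ρ.re ^ 2 = X ^ 2 := (sq_abs _).symm
  rw [e1] at hpar ⊢
  rw [e2]
  have hneg : -ρ.re ≤ X := neg_le_abs _
  have h5 : s ^ 2 ≤ 4 * b ^ 2 * (b ^ 2 + X) := by
    refine hpar.trans ?_
    apply mul_le_mul_of_nonneg_left _ (by positivity)
    linarith
  have h6 : s ≤ 2 * b ^ 2 + X := by
    refine (le_abs_self _).trans (abs_le_of_sq_le_sq ?_ (by positivity))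
    nlinarith [sq_nonneg X]
  have h7 := Complex.norm_le_abs_re_add_abs_im ρ
  rw [← hs, ← hX] at h7
  have hd0 : (0:ℝ) ≤ d := Nat.cast_nonneg d
  have h8 : 4 * b ^ 2 * d + b ^ 2 ≤ X := by
    have hb2 : 0 < b ^ 2 := by positivity
    nlinarith
  have h9 : (d : ℝ) * (4 * b ^ 2 * (b ^ 2 + X)) ≤ X ^ 2 := by
    have hb2 : 0 < b ^ 2 := by positivity
    have h10 : 0 ≤ 4 * b ^ 2 * d := by positivity
    nlinarith [mul_nonneg h10 hb2.le]
  nlinarith [sq_nonneg s]

end H73.JP
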