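import Pool.Agent.Helper73.JP.C

set_option autoImplicit false

open Complex Set MeasureTheory intervalIntegral Filter Topology Metric
open scoped ComplexConjugate

namespace H73.JP

/-- the archimedean part of `JD` -/
structure JA (C κ : ℝ) (γ D : ℂ → ℂ) : Prop where
  hC : 1 ≤ C
  hκ : 0 < κ
  der : ∀ w : ℂ, 1 ≤ w.re → HasDerivAt γ (γ w * D w) w
  ne : ∀ w : ℂ, 1 ≤ w.re → γ w ≠ 0
  dD : ∀ w : ℂ, 1 ≤ w.re → ∃ d : ℂ, HasDerivAt D d w ∧ ‖d‖ ≤ C / ‖w‖
  im : ∀ w : ℂ, 1 ≤ w.re → |(D w).im| ≤ C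
  low : ∀ w : ℂ, 1 ≤ w.re → κ * Real.log ‖w‖ - C ≤ (D w).re
  up : ∀ w : ℂ, 1 ≤ w.re → ‖D w‖ ≤ C * (1 + Real.log ‖w‖)

variable {C κ : ℝ} {G γ D L : ℂ → ℂ}

lemma JA.gp (h : JA C κ γ D) :
    H353.E.GP C (fun K => Real.exp ((K + C) / κ)) γ D where
  der := h.der
  ne := h.ne
  dD := fun s hs => by
    obtain ⟨d, h1, h2⟩ := h.dD s hs
    refine ⟨d, h1, h2.trans ?_⟩
    have hC := h.hC
    exact div_le_div_of_nonneg_left (by linarith) (by linarith)
      ((le_abs_self _).trans (Complex.abs_re_le_norm s))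
  im := h.im
  re := fun s hs => by
    have h1 := h.low s hs
    have h2 : 0 ≤ Real.log ‖s‖ := Real.log_nonneg (one_le_norm hs)
    have h3 := h.hκ
    nlinarith
  gr := fun K s hs hK => by
    have h1 := h.low s hs
    have h3 := h.hκ
    have h4 : (K + C) / κ ≤ Real.log ‖s‖ := by
      rw [Real.le_log_iff_exp_le (by linarith [one_le_norm hs])]
      exact hK.trans ((le_abs_self _).trans (Complex.abs_re_le_norm s))
    rw [div_le_iff₀ h3] at h4
    linarith

lemma neg_conj_re (z : ℂ) : (-conj z).re = -z.re := by simp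

lemma neg_conj_im (z : ℂ) : (-conj z).im = z.im := by simp

/-- Phragmén–Lindelöf in the symmetric strip -/
lemma JA.strip (h : JA C κ γ D) {B X M : ℝ} (hB : 1 ≤ B) (hX : 1 ≤ X) (diff : Differentiable ℂ G)
    (even : ∀ w, G (-w) = G w) (real : ∀ w, G (conj w) = conj (G w))
    (close : ∀ w : ℂ, X ≤ w.re → ‖G w‖ ≤ B * ‖γ w‖)
    (bdd : ∀ w : ℂ, |w.re| ≤ X → ‖G w‖ ≤ M) {w : ℂ} (hw : |w.re| ≤ X) :
    ‖G w‖ ≤ B * Real.exp (C * (2 * X + 1)) * ‖γ (w + (2 * X + 1 : ℝ))‖ := by
  have hC := h.hC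
  have gp := h.gp
  have hM0 : 0 ≤ M := (norm_nonneg _).trans (bdd w hw)
  set k : ℝ := 2 * X + 1 with hk
  have hkre : ∀ z : ℂ, (z + (k : ℂ)).re = z.re + k := fun z => by simp
  have h7 : ∀ z : ℂ, -X ≤ z.re → X + 1 ≤ (z + (k : ℂ)).re := fun z hz => by
    rw [hkre]
    linarith
  have hne : ∀ z : ℂ, -X ≤ z.re → γ (z + (k : ℂ)) ≠ 0 := fun z hz => gp.ne _ (by linarith [h7 z hz])
  set f : ℂ → ℂ := fun z => G z / γ (z + (k : ℂ)) with hf
  have hfd : DiffContOnCl ℂ f (re ⁻¹' Ioo (-X) X) := by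
    apply DifferentiableOn.diffContOnCl
    intro z hz
    have hz' : z ∈ re ⁻¹' Icc (-X : ℝ) X :=
      closure_minimal (preimage_mono Ioo_subset_Icc_self) (isClosed_Icc.preimage continuous_re) hz
    have hd : DifferentiableAt ℂ (fun z => γ (z + (k : ℂ))) z :=
      DifferentiableAt.comp (g := γ) (f := fun z : ℂ => z + (k : ℂ)) z
        (gp.der _ (by linarith [h7 z hz'.1])).differentiableAt (by fun_prop)
    exact ((diff z).div hd (hne z hz'.1)).differentiableWithinAt
  have hw' := abs_le.mp hw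
  have hle := PhragmenLindelof.vertical_strip (f := f) (a := -X) (b := X)
    (C := B * Real.exp (C * k)) hfd ?_ ?_ ?_ hw'.1 hw'.2
  · simp only [hf] at hle
    rw [norm_div, div_le_iff₀ (norm_pos_iff.mpr (hne w hw'.1))] at hle
    exact hle
  · refine ⟨1 / (2 * X), ?_, 2 * X * C, ?_⟩
    · have e : X - -X = 2 * X := by ring
      rw [e]
      have := Real.pi_gt_three
      exact div_lt_div_of_pos_right (by linarith) (by linarith)
    · set g0 := ‖γ ((X + 1 : ℝ) : ℂ)‖ with hg0
      have hg0p : 0 < g0 := norm_pos_iff.mpr (gp.ne _ (by rw [ofReal_re]; linarith))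
      refine Asymptotics.IsBigO.of_bound (M * (Real.exp (C * k) / g0)) ?_
      refine Filter.eventually_inf_principal.mpr (Eventually.of_forall fun z hz => ?_)
      have hz1 : -X ≤ z.re := hz.1.le
      have hz2 : z.re ≤ X := hz.2.le
      have e1 : z + (k : ℂ) = (((X + 1 : ℝ) : ℂ) + ((z.re + X : ℝ) : ℂ)) + z.im * I := by
        apply Complex.ext
        · simp [hk]
          ring
        · simp
      have h3 := H353.E.right_ge gp (s := ((X + 1 : ℝ) : ℂ)) (by rw [ofReal_re]; linarith)
        (a := z.re + X) (by linarith)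
      have h4 := H353.E.vert_ge gp (s := ((X + 1 : ℝ) : ℂ) + ((z.re + X : ℝ) : ℂ)) (by
        rw [add_re, ofReal_re, ofReal_re]
        linarith) z.im
      rw [← e1] at h4
      have h5 : g0 ≤ Real.exp (C * k) * (Real.exp (C * |z.im|) * ‖γ (z + (k : ℂ))‖) := by
        refine h3.trans ?_
        have : Real.exp (C * (z.re + X)) ≤ Real.exp (C * k) := by
          apply Real.exp_le_exp.mpr
          nlinarith
        gcongr
      have hpos := norm_pos_iff.mpr (hne z hz1)
      have h6 : ‖f z‖ ≤ M * (Real.exp (C * k) / g0) * Real.exp (C * |z.im|) := by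
        simp only [hf]
        rw [norm_div, div_le_iff₀ hpos]
        refine (bdd z (abs_le.mpr ⟨hz1, hz2⟩)).trans ?_
        have e2 : M * (Real.exp (C * k) / g0) * Real.exp (C * |z.im|) * ‖γ (z + (k : ℂ))‖ =
            M * ((Real.exp (C * k) * (Real.exp (C * |z.im|) * ‖γ (z + (k : ℂ))‖)) / g0) := by
          ring
        rw [e2]
        have h8 : 1 ≤ (Real.exp (C * k) * (Real.exp (C * |z.im|) * ‖γ (z + (k : ℂ))‖)) / g0 := by
          rwa [one_le_div hg0p]
        nlinarith
      refine h6.trans ?_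
      rw [Real.norm_eq_abs, abs_of_pos (Real.exp_pos _)]
      refine mul_le_mul_of_nonneg_left (Real.exp_le_exp.mpr ?_) (by positivity)
      have h9 := Real.add_one_le_exp (1 / (2 * X) * |z.im|)
      have h10 : 2 * X * C * (1 / (2 * X) * |z.im|) = C * |z.im| := by
        field_simp
      have h11 : 0 ≤ 2 * X * C := by positivity
      nlinarith
  · intro z hz
    have h3 : X ≤ (-conj z).re := by
      rw [neg_conj_re, hz, neg_neg]
    have e1 : z + (k : ℂ) = -conj z + ((1 : ℝ) : ℂ) := by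
      apply Complex.ext
      · rw [hkre, add_re, neg_conj_re, hz, ofReal_re, hk]
        ring
      · simp
    have h4 := close (-conj z) h3
    have h5 := H353.E.right_ge gp (s := -conj z) (by linarith) (a := 1) (by norm_num)
    rw [← e1] at h5
    simp only [hf]
    rw [norm_div, div_le_iff₀ (norm_pos_iff.mpr (hne z (by rw [hz])))]
    have h6 : ‖G z‖ = ‖G (-conj z)‖ := by
      rw [even, real, Complex.norm_conj]
    rw [h6]
    refine h4.trans ?_
    rw [mul_assoc]
    refine mul_le_mul_of_nonneg_left (h5.trans ?_) (by linarith)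
    refine mul_le_mul_of_nonneg_right (Real.exp_le_exp.mpr ?_) (norm_nonneg _)
    nlinarith
  · intro z hz
    have h4 := close z (by rw [hz])
    have h5 := H353.E.right_ge gp (s := z) (by rw [hz]; linarith) (a := k) (by linarith)
    simp only [hf]
    rw [norm_div, div_le_iff₀ (norm_pos_iff.mpr (hne z (by rw [hz]; linarith)))]
    refine h4.trans ?_
    rw [mul_assoc]
    exact mul_le_mul_of_nonneg_left h5 (by linarith)

/-- the builder of the analytic data -/
theorem JA.jd (h : JA C κ γ D) (diff : Differentiable ℂ G)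
    (even : ∀ w, G (-w) = G w) (real : ∀ w, G (conj w) = conj (G w))
    {B : ℝ} (hB : 0 ≤ B) (hL : ∀ w : ℂ, 4 ≤ w.re → G w = γ w * L w)
    (hL1 : ∀ w : ℂ, 4 ≤ w.re → ‖L w - 1‖ ≤ B * (1 / 2 : ℝ) ^ w.re)
    (bdd : ∀ X : ℝ, ∃ M : ℝ, ∀ w : ℂ, |w.re| ≤ X → ‖G w‖ ≤ M) :
    ∃ b k C' : ℝ, JD b k C' κ G γ D := by
  have hC := h.hC
  have gp := h.gp
  set b : ℝ := 4 + B with hb
  set X : ℝ := 2 * b with hX
  set k : ℝ := 2 * X + 1 with hk
  set C' : ℝ := (1 + B) * C * Real.exp (C * k) with hC'
  have he : 1 ≤ Real.exp (C * k) := Real.one_le_exp (by positivity)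
  have hCC : C ≤ C' := by
    rw [hC']
    have h1 : 1 * C * 1 ≤ (1 + B) * C * Real.exp (C * k) := by
      gcongr
      linarith
    linarith
  have hBC : (1 + B) * Real.exp (C * k) ≤ C' := by
    rw [hC']
    have h1 : (1 + B) * 1 * Real.exp (C * k) ≤ (1 + B) * C * Real.exp (C * k) := by
      gcongr
    linarith
  have hBC2 : 1 + B ≤ C' := by
    refine le_trans ?_ hBC
    nlinarith
  have hclose : ∀ w : ℂ, 4 ≤ w.re → ‖G w‖ ≤ (1 + B) * ‖γ w‖ := fun w hw => by
    have h3 : (1 / 2 : ℝ) ^ w.re ≤ 1 :=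
      Real.rpow_le_one (by norm_num) (by norm_num) (by linarith)
    have h1 : ‖L w‖ ≤ 1 + B := by
      have h2 : ‖L w‖ ≤ ‖L w - 1‖ + ‖(1 : ℂ)‖ := by
        have := norm_add_le (L w - 1) 1
        simpa using this
      rw [norm_one] at h2
      have h4 := hL1 w hw
      nlinarith
    rw [hL w hw, norm_mul, mul_comm]
    exact mul_le_mul_of_nonneg_right h1 (norm_nonneg _)
  have hkX : (k : ℝ) = 2 * X + 1 := rfl
  refine ⟨b, k, C', ?_⟩
  have h1C' : 1 ≤ C' := hC.trans hCC
  have hLne : ∀ w : ℂ, b < w.re → L w ≠ 0 := fun w hw h0 => by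
    have h4 := hL1 w (by linarith)
    rw [h0, zero_sub, norm_neg, norm_one] at h4
    have h5 : (1 / 2 : ℝ) ^ w.re < (1 / 2 : ℝ) ^ b :=
      Real.rpow_lt_rpow_of_exponent_gt (by norm_num) (by norm_num) hw
    have h6 : B * (1 / 2 : ℝ) ^ b < 1 := by
      have h7 : B < (2 : ℝ) ^ b := by
        have h8 : B + 1 ≤ Real.exp B := Real.add_one_le_exp B
        have h10 : (2 : ℝ) ^ b = (2 : ℝ) ^ (4 : ℝ) * (2 : ℝ) ^ B := by
          rw [hb, Real.rpow_add (by norm_num)]
        have h11 := one_add_mul_self_le_rpow_one_add (s := 1) (by norm_num) (p := B + 1) (by linarith)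
        rw [mul_one, show (1 : ℝ) + 1 = 2 by norm_num, Real.rpow_add (by norm_num), Real.rpow_one] at h11
        have h12 : (2 : ℝ) ^ (4 : ℝ) = 16 := by norm_num
        rw [h10, h12]
        have h13 : 0 < (2 : ℝ) ^ B := by positivity
        linarith
      have h9 : (1 / 2 : ℝ) ^ b = ((2 : ℝ) ^ b)⁻¹ := by
        rw [one_div, Real.inv_rpow (by norm_num)]
      rw [h9, ← div_eq_mul_inv, div_lt_one (by positivity)]
      exact h7
    have h14 : B * (1 / 2 : ℝ) ^ w.re ≤ B * (1 / 2 : ℝ) ^ b := by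
      gcongr
    linarith
  have hGne : ∀ w : ℂ, b < w.re → G w ≠ 0 := fun w hw => by
    rw [hL w (by linarith)]
    exact mul_ne_zero (h.ne w (by linarith)) (hLne w hw)
  exact {
    hb := by linarith
    hk := by linarith
    hC := h1C'
    hκ := h.hκ
    diff := diff
    even := even
    real := real
    der := h.der
    ne := h.ne
    dD := fun w hw => by
      obtain ⟨d, h1, h2⟩ := h.dD w hw
      exact ⟨d, h1, h2.trans (div_le_div_of_nonneg_right hCC (norm_nonneg _))⟩
    im := fun w hw => (h.im w hw).trans hCC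
    low := fun w hw => le_trans (by linarith) (h.low w hw)
    up := fun w hw => (h.up w hw).trans (by
      have := Real.log_nonneg (one_le_norm hw)
      gcongr)
    close := fun w hw => by
      have e : G w - γ w = γ w * (L w - 1) := by
        rw [hL w hw]
        ring
      rw [e, norm_mul, mul_comm]
      refine mul_le_mul_of_nonneg_right ((hL1 w hw).trans ?_) (norm_nonneg _)
      have : 0 ≤ (1 / 2 : ℝ) ^ w.re := by positivity
      have h1 : B ≤ C' := by linarith
      gcongr
    strip := fun w hw => by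
      rcases le_total w.re X with hwX | hwX
      · obtain ⟨M, hM⟩ := bdd X
        have h1 := h.strip (B := 1 + B) (by linarith) (X := X) (by linarith) diff even real
          (fun w hw => hclose w (by linarith)) hM (w := w) (abs_le.mpr ⟨by linarith, hwX⟩)
        refine h1.trans ?_
        rw [← hkX]
        exact mul_le_mul_of_nonneg_right hBC (norm_nonneg _)
      · have h5 := H353.E.right_ge gp (s := w) (by linarith) (a := k) (by linarith)
        refine (hclose w (by linarith)).trans ?_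
        refine le_trans ?_ (mul_le_mul_of_nonneg_right hBC (norm_nonneg _))
        rw [mul_assoc]
        exact mul_le_mul_of_nonneg_left h5 (by linarith)
    zer := fun w hw => by
      rw [abs_le]
      constructor
      · by_contra hcon
        exact hGne (-w) (by rw [neg_re]; linarith) (by rw [even]; exact hw)
      · by_contra hcon
        exact hGne w (by linarith) hw }

end H73.JP
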