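import Pool.Agent.Helper73.JP.O
import Pool.Graph.R_seed8.H353R6.E9

set_option autoImplicit false

open Complex Set MeasureTheory Filter Topology Metric
open scoped ComplexConjugate

namespace H73.JP

lemma norm_inv_sq_le {s : ℂ} (hs : 0 < s.re) {a : ℝ} (ha : 0 ≤ a) :
    ‖1 / (s + a) ^ 2‖ ≤ 2 / (‖s‖ + a) ^ 2 := by
  rw [norm_div, norm_one, norm_pow]
  have h1 : ‖s + a‖ ^ 2 = ‖s‖ ^ 2 + 2 * a * s.re + a ^ 2 := by
    rw [Complex.sq_norm, Complex.sq_norm, Complex.normSq_apply, Complex.normSq_apply]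
    simp
    ring
  have h2 : 0 < ‖s‖ := norm_pos_iff.mpr (by rintro rfl; simp at hs)
  rw [div_le_div_iff₀ (by rw [h1]; positivity) (by positivity), h1]
  nlinarith [sq_nonneg (‖s‖ - a), mul_nonneg ha hs.le]

lemma dig_der_norm {s : ℂ} (hs : 1 / 4 ≤ s.re) :
    ‖1 / s ^ 2 + 1 / (s + 1) ^ 2 + ∑' n : ℕ, 1 / (s + (n + 2)) ^ 2‖ ≤ 18 / ‖s‖ := by
  have hσ : 0 < s.re := by linarith
  have hr : 1 / 4 ≤ ‖s‖ := hs.trans (re_le_norm s)
  set r : ℝ := ‖s‖ with hrdef
  have hr0 : 0 < r := by linarith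
  have h1 : ‖1 / s ^ 2‖ ≤ 8 / r := by
    have := norm_inv_sq_le hσ (le_refl (0:ℝ))
    simp only [ofReal_zero, add_zero] at this
    refine this.trans ?_
    rw [div_le_div_iff₀ (by positivity) hr0]
    nlinarith
  have h2 : ‖1 / (s + 1) ^ 2‖ ≤ 8 / r := by
    have := norm_inv_sq_le hσ zero_le_one
    simp only [ofReal_one] at this
    refine this.trans ?_
    rw [← hrdef, div_le_div_iff₀ (by positivity) hr0]
    nlinarith
  have h3 : ‖∑' n : ℕ, 1 / (s + (n + 2)) ^ 2‖ ≤ 2 / r := by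
    have hb : ∀ n : ℕ, ‖1 / (s + ((n : ℂ) + 2)) ^ 2‖ ≤ 2 / (r + (n + 2)) ^ 2 := fun n => by
      have := norm_inv_sq_le hσ (a := n + 2) (by positivity)
      push_cast at this
      exact this
    have hpart : ∀ N : ℕ, ∑ n ∈ Finset.range N, 2 / (r + ((n : ℝ) + 2)) ^ 2 ≤
        2 / (r + 1) - 2 / (r + N + 1) := by
      intro N
      induction N with
      | zero => simp
      | succ N ih =>
        rw [Finset.sum_range_succ]
        have hN : (0 : ℝ) ≤ N := Nat.cast_nonneg N
        have h5 : 2 / (r + ((N : ℝ) + 2)) ^ 2 ≤ 2 / (r + N + 1) - 2 / (r + (N + 1) + 1) := by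
          rw [div_sub_div _ _ (by positivity) (by positivity), div_le_div_iff₀ (by positivity)
            (by positivity)]
          nlinarith
        push_cast
        linarith
    have hpart2 : ∀ N : ℕ, ∑ n ∈ Finset.range N, 2 / (r + ((n : ℝ) + 2)) ^ 2 ≤ 2 / r := by
      intro N
      refine (hpart N).trans ?_
      have h6 : (0 : ℝ) ≤ 2 / (r + N + 1) := by positivity
      have h7 : 2 / (r + 1) ≤ 2 / r := by
        apply div_le_div_of_nonneg_left (by norm_num) hr0
        linarith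
      linarith
    have hsum : Summable (fun n : ℕ => 2 / (r + ((n : ℝ) + 2)) ^ 2) :=
      summable_of_sum_range_le (fun n => by positivity) hpart2
    exact (tsum_of_norm_bounded hsum.hasSum hb).trans
      (hsum.tsum_le_of_sum_range_le hpart2)
  calc _ ≤ ‖1 / s ^ 2 + 1 / (s + 1) ^ 2‖ + ‖∑' n : ℕ, 1 / (s + (n + 2)) ^ 2‖ := norm_add_le _ _
    _ ≤ (‖1 / s ^ 2‖ + ‖1 / (s + 1) ^ 2‖) + ‖∑' n : ℕ, 1 / (s + (n + 2)) ^ 2‖ := by
        gcongr
        exact norm_add_le _ _
    _ ≤ 8 / r + 8 / r + 2 / r := by gcongr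
    _ = 18 / r := by ring

lemma Gamma_der {s : ℂ} (hs : 0 < s.re) : HasDerivAt Gamma (Gamma s * logDeriv Gamma s) s := by
  have hne : Gamma s ≠ 0 := Gamma_ne_zero_of_re_pos hs
  have hd : DifferentiableAt ℂ Gamma s := differentiableAt_Gamma s fun m h => by
    have := congrArg re h
    simp at this
    have hm : (0 : ℝ) ≤ m := Nat.cast_nonneg m
    linarith
  have h := hd.hasDerivAt
  rw [logDeriv_apply, mul_div_cancel₀ _ hne]
  exact h

/-- the archimedean data of `c·e^{−αw}·Γ(u+κw)` -/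
theorem JA_gamma {c : ℂ} (hc : c ≠ 0) {α u κ : ℝ} (hu : 0 ≤ u) (hκ : 0 < κ) (huκ : 1 / 4 ≤ u + κ) :
    ∃ C : ℝ, JA C κ (fun w => c * cexp (-(α * w)) * Gamma (u + κ * w))
      (fun w => -(α : ℂ) + κ * logDeriv Gamma (u + κ * w)) := by
  have hre : ∀ w : ℂ, (u + κ * w : ℂ).re = u + κ * w.re := fun w => by simp
  have hs4 : ∀ w : ℂ, 1 ≤ w.re → 1 / 4 ≤ (u + κ * w : ℂ).re := fun w hw => by
    rw [hre]
    nlinarith
  have hnorm : ∀ w : ℂ, 1 ≤ w.re → κ * ‖w‖ ≤ ‖(u + κ * w : ℂ)‖ := fun w hw => by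
    have h1 : ‖(u + κ * w : ℂ)‖ ^ 2 = (κ * ‖w‖) ^ 2 + 2 * u * (κ * w.re) + u ^ 2 := by
      rw [mul_pow, Complex.sq_norm, Complex.sq_norm, Complex.normSq_apply, Complex.normSq_apply]
      simp
      ring
    refine abs_le_of_sq_le_sq' ?_ (norm_nonneg _) |>.2
    rw [h1]
    have : 0 ≤ 2 * u * (κ * w.re) := by positivity
    nlinarith [sq_nonneg u]
  have hnorm2 : ∀ w : ℂ, 1 ≤ w.re → ‖(u + κ * w : ℂ)‖ + 2 ≤ (u + κ + 2) * ‖w‖ := fun w hw => by
    have h1 := one_le_norm hw
    have h2 : ‖(u + κ * w : ℂ)‖ ≤ u + κ * ‖w‖ := by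
      refine (norm_add_le _ _).trans ?_
      rw [norm_mul, norm_real, norm_real, Real.norm_of_nonneg hu, Real.norm_of_nonneg hκ.le]
    nlinarith
  have haff : ∀ w : ℂ, HasDerivAt (fun w : ℂ => (u : ℂ) + κ * w) κ w := fun w => by
    simpa using ((hasDerivAt_id w).const_mul (κ : ℂ)).const_add (u : ℂ)
  set C : ℝ := 1 + |α| + κ * (|Real.log κ| + |Real.log (u + κ + 2)| + 18) with hCdef
  have hC1 : 0 ≤ |α| := abs_nonneg _
  have hC2 : 0 ≤ κ * (|Real.log κ| + |Real.log (u + κ + 2)| + 18) := by positivity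
  refine ⟨C, ?_⟩
  exact {
    hC := by linarith
    hκ := hκ
    der := fun w hw => by
      have h1 : HasDerivAt (fun w : ℂ => cexp (-(α * w))) (cexp (-(α * w)) * (-(α : ℂ))) w := by
        have h2 : HasDerivAt (fun w : ℂ => -((α : ℂ) * w)) (-(α : ℂ)) w := by
          simpa using ((hasDerivAt_id w).const_mul (α : ℂ)).fun_neg
        exact h2.cexp
      have h3 : HasDerivAt (fun w : ℂ => Gamma (u + κ * w))
          (Gamma (u + κ * w) * logDeriv Gamma (u + κ * w) * κ) w :=
        (Gamma_der (s := u + κ * w) (by linarith [hs4 w hw])).comp w (haff w)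
      have h4 := (h1.const_mul c).fun_mul h3
      exact h4.congr_deriv (by ring)
    ne := fun w hw => by
      refine mul_ne_zero (mul_ne_zero hc (Complex.exp_ne_zero _)) (Gamma_ne_zero_of_re_pos ?_)
      linarith [hs4 w hw]
    dD := fun w hw => by
      have h1 := (H353.E.hasDerivAt_dig (s := u + κ * w) (by linarith [hs4 w hw])).comp w (haff w)
      have h2 := (h1.const_mul (κ : ℂ)).const_add (-(α : ℂ))
      refine ⟨_, h2, ?_⟩
      have h3 := dig_der_norm (hs4 w hw)
      have hw1 := one_le_norm hw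
      rw [norm_mul, norm_mul, norm_real, Real.norm_of_nonneg hκ.le]
      have h4 : 18 / ‖(u + κ * w : ℂ)‖ ≤ 18 / (κ * ‖w‖) :=
        div_le_div_of_nonneg_left (by norm_num) (by positivity) (hnorm w hw)
      have h5 : κ * (‖1 / (u + κ * w : ℂ) ^ 2 + 1 / ((u + κ * w : ℂ) + 1) ^ 2 +
          ∑' n : ℕ, 1 / ((u + κ * w : ℂ) + (n + 2)) ^ 2‖ * κ) ≤ κ * (18 / (κ * ‖w‖) * κ) := by
        refine mul_le_mul_of_nonneg_left (mul_le_mul_of_nonneg_right (h3.trans h4) hκ.le) hκ.le
      refine h5.trans ?_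
      have e : κ * (18 / (κ * ‖w‖) * κ) = (18 * κ) / ‖w‖ := by
        field_simp
      rw [e]
      refine div_le_div_of_nonneg_right ?_ (norm_nonneg _)
      have h6 : 0 ≤ κ * |Real.log κ| := by positivity
      have h7 : 0 ≤ κ * |Real.log (u + κ + 2)| := by positivity
      rw [hCdef]
      nlinarith
    im := fun w hw => by
      have h1 := H353.E.dig_im (hs4 w hw)
      have e : (-(α : ℂ) + κ * logDeriv Gamma (u + κ * w)).im = κ * (logDeriv Gamma (u + κ * w)).im := by
        simp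
      rw [e, abs_mul, abs_of_pos hκ]
      have h6 : 0 ≤ κ * |Real.log κ| := by positivity
      have h7 : 0 ≤ κ * |Real.log (u + κ + 2)| := by positivity
      rw [hCdef]
      nlinarith
    low := fun w hw => by
      have e : (-(α : ℂ) + κ * logDeriv Gamma (u + κ * w)).re =
          -α + κ * (logDeriv Gamma (u + κ * w)).re := by
        simp
      have hw1 := one_le_norm hw
      have h1 := (Complex.abs_re_le_norm _).trans (H353.E.dig_aux (hs4 w hw))
      rw [sub_re, Complex.log_re] at h1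
      have h2 : Real.log (κ * ‖w‖) ≤ Real.log ‖(u + κ * w : ℂ) + 2‖ := by
        apply Real.log_le_log (by positivity)
        refine (hnorm w hw).trans ?_
        have h8 : ‖(u + κ * w : ℂ) + 2‖ ^ 2 = ‖(u + κ * w : ℂ)‖ ^ 2 + 4 * (u + κ * w : ℂ).re + 4 := by
          rw [Complex.sq_norm, Complex.sq_norm, Complex.normSq_apply, Complex.normSq_apply]
          simp
          ring
        refine abs_le_of_sq_le_sq' ?_ (norm_nonneg _) |>.2
        rw [h8]
        linarith [hs4 w hw]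
      rw [Real.log_mul (by positivity) (by positivity)] at h2
      have h3 := (abs_le.mp h1).1
      have h4 := neg_abs_le (Real.log κ)
      have h5 := le_abs_self α
      have h7 : 0 ≤ κ * |Real.log (u + κ + 2)| := by positivity
      have h9 : Real.log ‖w‖ - |Real.log κ| - 7 ≤ (logDeriv Gamma (u + κ * w)).re := by linarith
      have h10 := mul_le_mul_of_nonneg_left h9 hκ.le
      rw [e, hCdef]
      nlinarith
    up := fun w hw => by
      have hw1 := one_le_norm hw
      have h1 := H353.E.dig_norm (hs4 w hw)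
      have h2 : Real.log (‖(u + κ * w : ℂ)‖ + 2) ≤ Real.log (u + κ + 2) + Real.log ‖w‖ := by
        rw [← Real.log_mul (by positivity) (by positivity)]
        exact Real.log_le_log (by positivity) (hnorm2 w hw)
      have h3 := le_abs_self (Real.log (u + κ + 2))
      have h4 : ‖(-(α : ℂ) + κ * logDeriv Gamma (u + κ * w))‖ ≤ |α| + κ * ‖logDeriv Gamma (u + κ * w)‖ := by
        refine (norm_add_le _ _).trans ?_
        rw [norm_neg, norm_mul, norm_real, norm_real, Real.norm_of_nonneg hκ.le, Real.norm_eq_abs]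
      have h5 := Real.log_nonneg hw1
      have h6 : ‖logDeriv Gamma (u + κ * w)‖ ≤ |Real.log (u + κ + 2)| + Real.log ‖w‖ + 11 := by linarith
      have h7 := mul_le_mul_of_nonneg_left h6 hκ.le
      have h8 : 0 ≤ κ * |Real.log κ| := by positivity
      have h9 : κ ≤ C := by
        rw [hCdef]
        nlinarith [abs_nonneg (Real.log κ), abs_nonneg (Real.log (u + κ + 2))]
      have h10 : |α| + κ * (|Real.log (u + κ + 2)| + 11) ≤ C := by
        rw [hCdef]
        nlinarith
      have h11 := mul_le_mul_of_nonneg_right h9 h5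
      have h12 : C * (1 + Real.log ‖w‖) = C + C * Real.log ‖w‖ := by ring
      rw [h12]
      nlinarith }

end H73.JP
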