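import Pool.Agent.Helper73.JP.P
import Pool.Agent.Helper73.JP.N
import Pool.Agent.Helper73.XD.X3

set_option autoImplicit false

open Complex Set MeasureTheory Filter Topology Metric
open scoped ComplexConjugate

namespace H73.JP

open H73.XD

/-- the completed L-function of `Δ`, centred at the symmetry point -/
noncomputable def GD (w : ℂ) : ℂ := Lam (6 + w)

lemma GD_diff : Differentiable ℂ GD := Lam_differentiable.comp (by fun_prop)

lemma GD_even (w : ℂ) : GD (-w) = GD w := by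
  unfold GD
  rw [← Lam_symm]
  congr 1
  ring

lemma GD_real (w : ℂ) : GD (conj w) = conj (GD w) := by
  unfold GD
  rw [← Lam_conj]
  congr 1
  rw [map_add, map_ofNat]

lemma GD_bdd (X : ℝ) : ∃ M : ℝ, ∀ w : ℂ, |w.re| ≤ X → ‖GD w‖ ≤ M := by
  obtain ⟨C, hC⟩ := Dec_Phi (X + 1)
  refine ⟨∫ u : ℝ, C * Real.exp (-|u|), fun w hw => ?_⟩
  unfold GD Lam XD.LT
  refine norm_integral_le_of_norm_le (integrable_exp_neg_abs.const_mul C) (ae_of_all _ fun u => ?_)
  rw [norm_mul]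
  have h1 := hC u
  have h2 := norm_exp_mul_le (6 + w - 6) u
  have h3 : |(6 + w - 6).re| ≤ X := by
    have e : 6 + w - 6 = w := by ring
    rw [e]
    exact hw
  calc ‖(Phi u : ℂ)‖ * ‖cexp ((6 + w - 6) * u)‖
      ≤ (C * Real.exp (-((X + 1) * |u|))) * Real.exp (X * |u|) := by
        refine mul_le_mul h1 (h2.trans ?_) (norm_nonneg _) ((norm_nonneg _).trans h1)
        exact Real.exp_le_exp.2 (mul_le_mul_of_nonneg_right h3 (abs_nonneg _))
    _ = C * Real.exp (-|u|) := by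
        rw [mul_assoc, ← Real.exp_add]
        congr 2
        ring

/-- the analytic data of the L-function of `Δ` -/
theorem GD_jd : ∃ b k C : ℝ, ∃ γ D : ℂ → ℂ, JD b k C 1 GD γ D := by
  have hc : ((2 * Real.pi : ℝ) : ℂ) ^ (-(6 : ℂ)) ≠ 0 :=
    (cpow_ne_zero_iff (y := -(6 : ℂ))).mpr (Or.inl twopi_ne)
  obtain ⟨C, hJ⟩ := JA_gamma hc (α := Real.log (2 * Real.pi)) (u := 6) (κ := 1) (by norm_num)
    one_pos (by norm_num)
  obtain ⟨B, hB0, hB⟩ := cf_bound
  have h1 : ∀ w : ℂ, 4 ≤ w.re → GD w =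
      (((2 * Real.pi : ℝ) : ℂ) ^ (-(6 : ℂ)) * cexp (-(((Real.log (2 * Real.pi) : ℝ) : ℂ) * w)) *
        Gamma (((6 : ℝ) : ℂ) + ((1 : ℝ) : ℂ) * w)) * Ld (6 + w) := fun w hw => by
    have hG : Gamma (6 + w) ≠ 0 := Gamma_ne_zero_of_re_pos (by
      rw [add_re, re_ofNat]
      linarith)
    have e1 : ((2 * Real.pi : ℝ) : ℂ) ^ (-(6 + w)) = ((2 * Real.pi : ℝ) : ℂ) ^ (-(6 : ℂ)) *
        cexp (-(((Real.log (2 * Real.pi) : ℝ) : ℂ) * w)) := by
      rw [neg_add, cpow_add _ _ twopi_ne]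
      congr 1
      rw [cpow_def_of_ne_zero twopi_ne, ofReal_log (by positivity)]
      congr 1
      ring
    unfold GD
    rw [Lam_eq hG, e1, ofReal_one, one_mul, ofReal_ofNat]
  have h2 : ∀ w : ℂ, 4 ≤ w.re → ‖Ld (6 + w) - 1‖ ≤ B * (1 / 2 : ℝ) ^ w.re := fun w hw => by
    have h1 := hB (6 + w) (by
      rw [add_re, re_ofNat]
      linarith)
    refine h1.trans ?_
    refine mul_le_mul_of_nonneg_left ?_ hB0
    rw [add_re, re_ofNat, one_div, Real.inv_rpow (by norm_num), ← Real.rpow_neg (by norm_num)]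
    exact Real.rpow_le_rpow_of_exponent_le (by norm_num) (by linarith)
  obtain ⟨b, k, C', hD⟩ := hJ.jd (G := GD) (L := fun w => Ld (6 + w)) GD_diff GD_even GD_real
    (B := B) hB0 h1 h2 GD_bdd
  exact ⟨b, k, C', _, _, hD⟩

end H73.JP
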