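import Mathlib

set_option autoImplicit false

open Complex Set Filter Topology Metric
open scoped ComplexConjugate

namespace H73.JP

/-- coefficients of the square-root series of an even function -/
noncomputable def ev (G : ℂ → ℂ) (n : ℕ) : ℂ := iteratedDeriv (2 * n) G 0 / (2 * n).factorial

/-- `F` with `F(w²) = G(w)` -/
noncomputable def FF (G : ℂ → ℂ) (z : ℂ) : ℂ := ∑' n : ℕ, ev G n * z ^ n

variable {G : ℂ → ℂ}

lemma odd_zero (even : ∀ w, G (-w) = G w) {n : ℕ} (hn : Odd n) : iteratedDeriv n G 0 = 0 := by
  have h := iteratedDeriv_comp_neg n G (0 : ℂ)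
  have e : (fun x => G (-x)) = G := funext even
  rw [e, neg_zero, hn.neg_one_pow, neg_one_smul] at h
  have h2 : (2 : ℂ) * iteratedDeriv n G 0 = 0 := by linear_combination h
  simpa using h2

lemma ev_hasSum (diff : Differentiable ℂ G) (even : ∀ w, G (-w) = G w) (w : ℂ) :
    HasSum (fun n : ℕ => ev G n * (w ^ 2) ^ n) (G w) := by
  have h := hasSum_taylorSeries_of_entire diff 0 w
  have hinj : Function.Injective (fun n : ℕ => 2 * n) := fun a b h => by
    simp only at h
    omega
  rw [← Function.Injective.hasSum_iff hinj] at h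
  · have e : (fun n : ℕ => ev G n * (w ^ 2) ^ n) =
        (fun n : ℕ => ((n.factorial : ℂ))⁻¹ • (w - 0) ^ n • iteratedDeriv n G 0) ∘ fun n => 2 * n := by
      funext n
      simp only [Function.comp, sub_zero, smul_eq_mul]
      unfold ev
      rw [← pow_mul]
      ring
    rw [e]
    exact h
  · intro n hn
    have h1 : Odd n := by
      rw [← Nat.not_even_iff_odd]
      rintro ⟨k, hk⟩
      exact hn ⟨k, by simp only; omega⟩
    rw [odd_zero even h1]
    simp

lemma ev_summable (diff : Differentiable ℂ G) (even : ∀ w, G (-w) = G w) (r : ℝ) (hr : 0 ≤ r) :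
    Summable (fun n : ℕ => ‖ev G n‖ * r ^ n) := by
  have h := (ev_hasSum diff even ((Real.sqrt r : ℝ) : ℂ)).summable.norm
  convert h using 1
  funext n
  rw [norm_mul, norm_pow, norm_pow, norm_real, Real.norm_of_nonneg (Real.sqrt_nonneg r), Real.sq_sqrt hr]

lemma FF_sq (diff : Differentiable ℂ G) (even : ∀ w, G (-w) = G w) (w : ℂ) : FF G (w ^ 2) = G w :=
  (ev_hasSum diff even w).tsum_eq

lemma FF_hfps (diff : Differentiable ℂ G) (even : ∀ w, G (-w) = G w) :
    HasFPowerSeriesOnBall (FF G) (FormalMultilinearSeries.ofScalars ℂ (ev G)) 0 ⊤ := by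
  have hrad : (FormalMultilinearSeries.ofScalars ℂ (ev G)).radius = ⊤ := by
    apply FormalMultilinearSeries.radius_eq_top_of_summable_norm
    intro r
    have h := ev_summable diff even r r.2
    convert h using 1
    funext n
    rw [FormalMultilinearSeries.ofScalars_norm]
  have h := FormalMultilinearSeries.hasFPowerSeriesOnBall
    (FormalMultilinearSeries.ofScalars ℂ (ev G)) (by rw [hrad]; exact ENNReal.zero_lt_top)
  rw [hrad] at h
  convert h using 1
  funext z
  unfold FF FormalMultilinearSeries.sum
  refine tsum_congr fun n => ?_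
  rw [FormalMultilinearSeries.ofScalars_apply_eq, smul_eq_mul]

lemma FF_diff (diff : Differentiable ℂ G) (even : ∀ w, G (-w) = G w) : Differentiable ℂ (FF G) := by
  have h := (FF_hfps diff even).differentiableOn
  intro z
  refine (h z ?_).differentiableAt ?_
  · simp
  · exact (Metric.isOpen_eball).mem_nhds (by simp)

lemma FF_iter (diff : Differentiable ℂ G) (even : ∀ w, G (-w) = G w) (n : ℕ) :
    iteratedDeriv n (FF G) 0 = n.factorial * ev G n := by
  have h := (FF_hfps diff even).factorial_smul 1 n
  rw [← iteratedDeriv_eq_iteratedFDeriv, FormalMultilinearSeries.ofScalars_apply_eq] at h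
  rw [← h]
  simp

end H73.JP
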