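import Pool.Agent.Helper73.JP.N
import Pool.Agent.Helper73.JP.R

set_option autoImplicit false

open Complex Set Filter Topology Polynomial Metric
open scoped ComplexConjugate

namespace H73.JP

/-- the numbers `γ(n) = n!/(2n)!·G^(2n)(0)` -/
noncomputable def gam (G : ℂ → ℂ) (n : ℕ) : ℝ :=
  (n.factorial : ℝ) / ((2 * n).factorial : ℝ) * (iteratedDeriv (2 * n) G 0).re

lemma gam_eq {G : ℂ → ℂ} (diff : Differentiable ℂ G) (even : ∀ w, G (-w) = G w) (n : ℕ) :
    (iteratedDeriv n (FF G) 0).re = gam G n := by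
  rw [FF_iter diff even]
  unfold ev gam
  have e : (n.factorial : ℂ) * (iteratedDeriv (2 * n) G 0 / ((2 * n).factorial : ℂ)) =
      (((n.factorial : ℝ) / ((2 * n).factorial : ℝ) : ℝ) : ℂ) * iteratedDeriv (2 * n) G 0 := by
    push_cast
    ring
  rw [e, re_ofReal_mul]

lemma JQ_eval {G : ℂ → ℂ} (diff : Differentiable ℂ G) (even : ∀ w, G (-w) = G w) (d n : ℕ) (z : ℂ) :
    aeval z (JQ d (iteratedDeriv n (FF G))) =
      ∑ j ∈ Finset.range (d + 1), (d.choose j : ℂ) * (gam G (n + j) : ℂ) * z ^ j := by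
  unfold JQ
  rw [map_sum]
  refine Finset.sum_congr rfl fun j _ => ?_
  rw [iter_iter, gam_eq diff even]
  simp only [map_mul, aeval_C, map_pow, aeval_X, Complex.coe_algebraMap, Complex.ofReal_mul]
  push_cast
  ring

lemma norm_mono {Q : ℝ[X]} (hQ : Q.Splits) (x : ℝ) {y1 y2 : ℝ} (h : |y1| ≤ |y2|) :
    ‖aeval ((x : ℂ) + y1 * I) Q‖ ≤ ‖aeval ((x : ℂ) + y2 * I) Q‖ := by
  obtain ⟨m, r, -, hform⟩ := split_form hQ
  rw [hform]
  simp only [map_mul, map_prod, norm_mul, norm_prod, map_sub, aeval_X, aeval_C, Complex.coe_algebraMap]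
  refine mul_le_mul_of_nonneg_left (Finset.prod_le_prod (fun _ _ => norm_nonneg _) fun j _ => ?_)
    (norm_nonneg _)
  have e : ∀ y : ℝ, ‖(x : ℂ) + y * I - (r j : ℝ)‖ ^ 2 = (x - r j) ^ 2 + y ^ 2 := fun y => by
    rw [Complex.sq_norm, normSq_apply]
    simp
    ring
  refine abs_le_of_sq_le_sq' ?_ (norm_nonneg _) |>.2
  rw [e, e]
  have := sq_le_sq' (by linarith [abs_nonneg y1, abs_nonneg y2]) h
  rw [sq_abs, sq_abs] at this
  linarith

variable {b : ℝ} {F : ℂ → ℂ}

lemma EC.coef_real (h : EC b F) (hne : ∀ n, ∃ z, iteratedDeriv n F z ≠ 0) (n : ℕ) :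
    ((iteratedDeriv n F 0).re : ℂ) = iteratedDeriv n F 0 := by
  have h1 := (h.iter hne n).real 0
  rw [map_zero] at h1
  exact (Complex.conj_eq_iff_re.mp h1.symm)

lemma scaled_lim (h : EC b F) (hne : ∀ n, ∃ z, iteratedDeriv n F z ≠ 0) (z : ℂ) :
    Tendsto (fun d : ℕ => aeval (z / d) (JQ d F)) atTop (𝓝 (F z)) := by
  have hT := hasSum_taylorSeries_of_entire h.diff 0 z
  set g : ℕ → ℂ := fun j => ((j.factorial : ℂ))⁻¹ • (z - 0) ^ j • iteratedDeriv j F 0 with hg
  rw [← hT.tsum_eq]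
  set f : ℕ → ℕ → ℂ := fun d j => (d.choose j : ℂ) * iteratedDeriv j F 0 * (z / d) ^ j with hf
  have e1 : ∀ d : ℕ, aeval (z / d) (JQ d F) = ∑' j, f d j := by
    intro d
    rw [tsum_eq_sum (s := Finset.range (d + 1))]
    · unfold JQ
      rw [map_sum]
      refine Finset.sum_congr rfl fun j _ => ?_
      simp only [map_mul, aeval_C, map_pow, aeval_X, Complex.coe_algebraMap, Complex.ofReal_mul]
      rw [h.coef_real hne]
      push_cast
      rfl
    · intro j hj
      rw [Finset.mem_range, not_lt] at hj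
      simp only [hf]
      rw [Nat.choose_eq_zero_of_lt (by omega)]
      simp
  simp only [e1]
  refine tendsto_tsum_of_dominated_convergence (bound := fun j => ‖g j‖) hT.summable.norm
    (fun j => ?_) ?_
  · have h1 := ProbabilityTheory.tendsto_choose_mul_pow_atTop (p := fun n : ℕ => 1 / (n : ℝ)) (r := 1) j (by
      refine tendsto_const_nhds.congr' ?_
      filter_upwards [eventually_ge_atTop 1] with n hn
      have : (0 : ℝ) < n := by exact_mod_cast hn
      field_simp)
    have h2 := (Complex.continuous_ofReal.tendsto _).comp h1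
    have h3 := h2.mul_const (iteratedDeriv j F 0 * z ^ j)
    have e2 : (((1 ^ j / (j.factorial : ℝ) : ℝ)) : ℂ) * (iteratedDeriv j F 0 * z ^ j) = g j := by
      simp only [hg, smul_eq_mul, sub_zero]
      push_cast
      rw [one_pow]
      ring
    rw [e2] at h3
    refine h3.congr fun d => ?_
    simp only [hf, Function.comp]
    push_cast
    rw [div_pow, div_pow, one_pow]
    ring
  · filter_upwards [eventually_ge_atTop 1] with d hd j
    have hd0 : (0 : ℝ) < d := by exact_mod_cast hd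
    simp only [hf, hg, smul_eq_mul, sub_zero]
    rw [norm_mul, norm_mul, norm_mul, norm_mul, norm_pow, norm_div, norm_pow, norm_inv]
    rw [Complex.norm_natCast, Complex.norm_natCast, Complex.norm_natCast]
    have h1 := Nat.choose_le_pow_div (α := ℝ) j d
    have h2 : (d.choose j : ℝ) * ‖iteratedDeriv j F 0‖ * (‖z‖ / d) ^ j ≤
        ((d : ℝ) ^ j / j.factorial) * ‖iteratedDeriv j F 0‖ * (‖z‖ / d) ^ j := by
      gcongr
    refine h2.trans (le_of_eq ?_)
    rw [div_pow]
    field_simp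

/-- the zeros of `F` are real if all its Jensen polynomials split -/
theorem real_of_jensen (h : EC b F) (hne : ∀ n, ∃ z, iteratedDeriv n F z ≠ 0)
    (hJ : ∀ d, (JQ d F).Splits) : ∀ z, F z = 0 → z.im = 0 := by
  intro z0 hz0
  by_contra him
  have hmono : ∀ (x : ℝ) {y1 y2 : ℝ}, |y1| ≤ |y2| → ‖F ((x : ℂ) + y1 * I)‖ ≤ ‖F ((x : ℂ) + y2 * I)‖ := by
    intro x y1 y2 hy
    refine le_of_tendsto_of_tendsto' (scaled_lim h hne _).norm (scaled_lim h hne _).norm fun d => ?_
    have e : ∀ y : ℝ, ((x : ℂ) + y * I) / d = ((x / d : ℝ) : ℂ) + ((y / d : ℝ) : ℂ) * I := fun y => by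
      push_cast
      ring
    rw [e, e]
    refine norm_mono (hJ d) _ ?_
    rw [abs_div, abs_div]
    gcongr
  have hz : ∀ y : ℝ, |y| ≤ |z0.im| → F ((z0.re : ℂ) + y * I) = 0 := by
    intro y hy
    have h1 := hmono z0.re hy
    rw [Complex.re_add_im, hz0, norm_zero] at h1
    exact norm_le_zero_iff.mp h1
  obtain ⟨z1, hz1⟩ := hne 0
  rw [iteratedDeriv_zero] at hz1
  apply hz1
  have hA : AnalyticOnNhd ℂ F univ := fun x _ => h.diff.analyticAt x
  refine hA.eqOn_zero_of_preconnected_of_frequently_eq_zero isPreconnected_univ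
    (mem_univ (z0.re : ℂ)) ?_ (mem_univ z1)
  have hpos : 0 < |z0.im| := abs_pos.mpr him
  have ht : Tendsto (fun n : ℕ => (z0.re : ℂ) + ((|z0.im| * (1 / ((n : ℝ) + 1)) : ℝ) : ℂ) * I) atTop
      (𝓝[≠] (z0.re : ℂ)) := by
    rw [tendsto_nhdsWithin_iff]
    constructor
    · have h1 := (Complex.continuous_ofReal.tendsto _).comp
        ((tendsto_one_div_add_atTop_nhds_zero_nat (𝕜 := ℝ)).const_mul |z0.im|)
      have h2 := (h1.mul_const I).const_add (z0.re : ℂ)
      rw [mul_zero, Complex.ofReal_zero, zero_mul, add_zero] at h2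
      exact h2
    · refine Eventually.of_forall fun n => ?_
      rw [mem_compl_iff, mem_singleton_iff]
      intro h
      have h2 : (0 : ℝ) < |z0.im| * (1 / ((n : ℝ) + 1)) := by positivity
      have h3 := congrArg im h
      rw [add_im, ofReal_im, mul_im, I_im, I_re, ofReal_im, ofReal_re] at h3
      linarith
  refine ht.frequently (Frequently.of_forall fun n => hz _ ?_)
  rw [abs_mul, abs_abs, abs_of_pos (by positivity : (0 : ℝ) < 1 / ((n : ℝ) + 1))]
  have h1 : 1 / ((n : ℝ) + 1) ≤ 1 := by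
    rw [div_le_one (by positivity)]
    have : (0:ℝ) ≤ n := Nat.cast_nonneg n
    linarith
  nlinarith

/-- derivatives keep real zeros -/
theorem iter_real (h : EC b F) (hne : ∀ n, ∃ z, iteratedDeriv n F z ≠ 0)
    (hz : ∀ z, F z = 0 → z.im = 0) (n : ℕ) : ∀ z, iteratedDeriv n F z = 0 → z.im = 0 := by
  induction n with
  | zero => simpa using hz
  | succ n ih =>
    intro z hz0
    by_contra him
    have hne1 : ∃ z, deriv (iteratedDeriv n F) z ≠ 0 := by
      rw [← iteratedDeriv_succ]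
      exact hne (n + 1)
    rw [iteratedDeriv_succ] at hz0
    obtain ⟨u, hu, hFu, -⟩ := jensen_disc (h.iter hne n) hne1 hz0 him
    exact hu (ih u hFu)

/-- if the zeros of `F` are real then all Jensen polynomials of all derivatives split -/
theorem jensen_of_real (h : EC b F) (hne : ∀ n, ∃ z, iteratedDeriv n F z ≠ 0)
    (hz : ∀ z, F z = 0 → z.im = 0) (d n : ℕ) : (JQ d (iteratedDeriv n F)).Splits :=
  hyper (h.iter hne n) fun u hu hFu => absurd (iter_real h hne hz n u hFu) hu

end H73.JP
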