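import Pool.Agent.Helper73.JP.Q
import Pool.Agent.Helper73.JP.S

set_option autoImplicit false

open Complex Set MeasureTheory Filter Topology Metric
open scoped ComplexConjugate

namespace H73.JP

open H73.XD

lemma Dec_pow {K : ℝ → ℂ} (hd : Dec K) (m : ℕ) : Dec (fun u => (u : ℂ) ^ m * K u) := by
  induction m with
  | zero => simpa using hd
  | succ m ih =>
    have h := ih.id_mul
    have e : (fun u : ℝ => (u : ℂ) * ((u : ℂ) ^ m * K u)) = fun u : ℝ => (u : ℂ) ^ (m + 1) * K u := by
      funext u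
      ring
    rwa [e] at h

lemma meas_pow {K : ℝ → ℂ} (hc : AEStronglyMeasurable K volume) (m : ℕ) :
    AEStronglyMeasurable (fun u : ℝ => (u : ℂ) ^ m * K u) volume :=
  ((continuous_ofReal.pow m).aestronglyMeasurable).mul hc

lemma iter_LT {K : ℝ → ℂ} (hc : AEStronglyMeasurable K volume) (hd : Dec K) (m : ℕ) :
    iteratedDeriv m (XD.LT K) = XD.LT (fun u => (u : ℂ) ^ m * K u) := by
  induction m with
  | zero => simp
  | succ m ih =>
    rw [iteratedDeriv_succ, ih]
    funext s
    rw [(LT_hasDerivAt (meas_pow hc m) (Dec_pow hd m) s).deriv]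
    congr 1
    funext u
    ring

lemma GD_eq : GD = XD.LT (fun u => (Phi u : ℂ)) := by
  funext w
  unfold GD Lam
  congr 1
  ring

lemma LT_pos (m : ℕ) (x : ℝ) : 0 < (XD.LT (fun u => (u : ℂ) ^ (2 * m) * (Phi u : ℂ)) (x : ℂ)).re := by
  unfold XD.LT
  have e : (fun u : ℝ => (u : ℂ) ^ (2 * m) * (Phi u : ℂ) * cexp ((x : ℂ) * u)) =
      fun u : ℝ => (((u ^ (2 * m) * Phi u * Real.exp (x * u) : ℝ)) : ℂ) := by
    funext u
    push_cast
    ring
  have hint := Dec.integrable (meas_pow Phi_contC.aestronglyMeasurable (2 * m)) (Dec_pow Dec_Phi (2 * m)) (x : ℂ)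
  rw [e] at hint ⊢
  rw [integral_complex_ofReal, ofReal_re]
  have hint2 : Integrable (fun u : ℝ => u ^ (2 * m) * Phi u * Real.exp (x * u)) := by
    have := hint.re
    exact this
  rw [integral_pos_iff_support_of_nonneg (fun u => ?_) hint2]
  · refine lt_of_lt_of_le ?_ (measure_mono (s := Ioi (0 : ℝ)) ?_)
    · rw [Real.volume_Ioi]
      exact ENNReal.zero_lt_top
    · intro u hu
      rw [Function.mem_support]
      have h1 : 0 < u := hu
      have h2 := Phi_pos u
      positivity
  · have h2 := Phi_pos u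
    have h3 : 0 ≤ u ^ (2 * m) := by
      rw [pow_mul]
      positivity
    simp only [Pi.zero_apply]
    positivity

lemma gam_pos (n : ℕ) : 0 < gam GD n := by
  unfold gam
  rw [GD_eq, iter_LT Phi_contC.aestronglyMeasurable Dec_Phi]
  have := LT_pos n 0
  rw [ofReal_zero] at this
  positivity

lemma GD_real_pos (x : ℝ) : GD (x : ℂ) ≠ 0 := by
  intro h
  have h1 := LT_pos 0 x
  simp only [mul_zero, pow_zero, one_mul] at h1
  rw [GD_eq] at h
  rw [h] at h1
  simp at h1

end H73.JP
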